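import Mathlib

set_option autoImplicit false

namespace Pool.Agent.Helper48.QT

open MvPolynomial HahnSeries

/-- The value group: `ℤ × ℤ` with the lexicographic order. -/
abbrev Γ := ℤ ×ₗ ℤ

noncomputable section

abbrev Pol := MvPolynomial (Fin 2) ℂ
abbrev F := FractionRing Pol
abbrev H := HahnSeries Γ ℂ

def g (i j : ℤ) : Γ := toLex (i, j)

theorem g_add (i j k l : ℤ) : g i j + g k l = g (i + k) (j + l) := rfl

theorem g_zero : g 0 0 = 0 := rfl

theorem g_inj {i j k l : ℤ} : g i j = g k l ↔ i = k ∧ j = l := by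
  unfold g
  rw [toLex_inj, Prod.mk.injEq]

theorem g_surj (a : Γ) : ∃ i j, a = g i j := ⟨(ofLex a).1, (ofLex a).2, rfl⟩

theorem nsmul_g (n : ℕ) (i j : ℤ) : n • g i j = g (n * i) (n * j) := by
  induction n with
  | zero => simp [g_zero]
  | succ n ih => rw [succ_nsmul, ih, g_add]; congr 1 <;> push_cast <;> ring

def jP : Pol →ₐ[ℂ] H := aeval ![single (g 1 0) 1, single (g 0 1) 1]

theorem jP_monomial (m : Fin 2 →₀ ℕ) (c : ℂ) :
    jP (monomial m c) = single (g (m 0) (m 1)) c := by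
  unfold jP
  rw [aeval_monomial, Finsupp.prod_fintype _ _ (fun i => by simp)]
  simp only [Fin.prod_univ_two, Matrix.cons_val_zero, Matrix.cons_val_one, single_pow, one_pow,
    nsmul_g]
  rw [HahnSeries.algebraMap_apply, single_mul_single, HahnSeries.C_apply, single_mul_single, g_add]
  simp

theorem jP_coeff (f : Pol) (m : Fin 2 →₀ ℕ) : (jP f).coeff (g (m 0) (m 1)) = f.coeff m := by
  classical
  induction f using MvPolynomial.induction_on' with
  | monomial u a =>
    rw [jP_monomial, coeff_single, coeff_monomial]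
    by_cases h : u = m
    · subst h; simp
    · rw [if_neg h, if_neg]
      intro h'
      apply h
      rw [g_inj] at h'
      ext i
      fin_cases i
      · exact_mod_cast h'.1.symm
      · exact_mod_cast h'.2.symm
  | add p q hp hq => rw [map_add, HahnSeries.coeff_add, hp, hq, MvPolynomial.coeff_add]

theorem jP_injective : Function.Injective jP := by
  intro f f' h
  ext m
  rw [← jP_coeff, ← jP_coeff, h]

/-- The embedding of `ℂ(u, v)` in the field of Hahn series. -/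
def j : F →+* H := IsFractionRing.lift (A := Pol) (K := F) (L := H) (g := jP.toRingHom) jP_injective

theorem j_algebraMap (f : Pol) : j (algebraMap Pol F f) = jP f :=
  IsFractionRing.lift_algebraMap _ _

def mulN (n : ℕ) : Γ →+ Γ := nsmulAddMonoidHom n

theorem mulN_inj (n : ℕ) (hn : 0 < n) : Function.Injective (mulN n) := by
  intro a b h
  obtain ⟨i, k, rfl⟩ := g_surj a
  obtain ⟨i', k', rfl⟩ := g_surj b
  simp only [mulN, nsmulAddMonoidHom_apply, nsmul_g, g_inj] at h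
  rw [g_inj]
  have : (n : ℤ) ≠ 0 := by exact_mod_cast hn.ne'
  exact ⟨mul_left_cancel₀ this h.1, mul_left_cancel₀ this h.2⟩

theorem mulN_le (n : ℕ) (hn : 0 < n) (a b : Γ) : mulN n a ≤ mulN n b ↔ a ≤ b := by
  simp only [mulN, nsmulAddMonoidHom_apply]
  exact nsmul_le_nsmul_iff_right hn.ne'

/-- `ξ ↦ ξ ^ n`, `η ↦ η ^ n`. -/
def eps (n : ℕ) (hn : 0 < n) : H →+* H := embDomainRingHom (mulN n) (mulN_inj n hn) (mulN_le n hn)

theorem eps_single (n : ℕ) (hn : 0 < n) (i k : ℤ) (c : ℂ) :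
    eps n hn (single (g i k) c) = single (g (n * i) (n * k)) c := by
  unfold eps
  simp only [embDomainRingHom, RingHom.coe_mk, MonoidHom.coe_mk, OneHom.coe_mk]
  rw [embDomain_single]
  change single (n • g i k) c = _
  rw [nsmul_g]

theorem eps_coeff (n : ℕ) (hn : 0 < n) (x : H) (a : Γ) (h : (eps n hn x).coeff a ≠ 0) :
    ∃ i k, a = g (n * i) (n * k) := by
  by_contra hc
  apply h
  unfold eps
  simp only [embDomainRingHom, RingHom.coe_mk, MonoidHom.coe_mk, OneHom.coe_mk]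
  apply embDomain_of_notMem_range
  rintro ⟨b, rfl⟩
  apply hc
  obtain ⟨i, k, rfl⟩ := g_surj b
  exact ⟨i, k, nsmul_g n i k⟩

def iota (n : ℕ) (hn : 0 < n) : F →+* H := (eps n hn).comp j

theorem iota_coeff (n : ℕ) (hn : 0 < n) (x : F) (a : Γ) (h : (iota n hn x).coeff a ≠ 0) :
    ∃ i k, a = g (n * i) (n * k) := eps_coeff n hn (j x) a h

theorem eps_C (n : ℕ) (hn : 0 < n) (c : ℂ) : eps n hn (algebraMap ℂ H c) = algebraMap ℂ H c := by
  have h : algebraMap ℂ H c = single (g 0 0) c := rfl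
  rw [h, eps_single]
  simp

theorem iota_C (n : ℕ) (hn : 0 < n) (c : ℂ) :
    iota n hn (algebraMap ℂ F c) = algebraMap ℂ H c := by
  unfold iota
  rw [RingHom.comp_apply, IsScalarTower.algebraMap_apply ℂ Pol F, j_algebraMap, AlgHom.commutes,
    eps_C]

theorem iota_X0 (n : ℕ) (hn : 0 < n) :
    iota n hn (algebraMap Pol F (X 0)) = single (g n 0) 1 := by
  unfold iota
  rw [RingHom.comp_apply, j_algebraMap]
  simp only [jP, aeval_X, Matrix.cons_val_zero]
  rw [eps_single]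
  simp

theorem iota_X1 (n : ℕ) (hn : 0 < n) :
    iota n hn (algebraMap Pol F (X 1)) = single (g 0 n) 1 := by
  unfold iota
  rw [RingHom.comp_apply, j_algebraMap]
  simp only [jP, aeval_X, Matrix.cons_val_one]
  change eps n hn (single (g 0 1) 1) = _
  rw [eps_single]
  simp

/-- Twist of the coefficients by `ζ ^ (-i)`. -/
def twist (ζ : ℂ) (hζ : ζ ≠ 0) (x : H) : H where
  coeff a := ζ ^ (-(ofLex a).1) * x.coeff a
  isPWO_support' := x.isPWO_support.mono (by
    intro a ha h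
    apply ha
    simp only at h ⊢
    rw [h, mul_zero])

theorem twist_coeff (ζ : ℂ) (hζ : ζ ≠ 0) (x : H) (a : Γ) :
    (twist ζ hζ x).coeff a = ζ ^ (-(ofLex a).1) * x.coeff a := rfl

theorem twist_support (ζ : ℂ) (hζ : ζ ≠ 0) (x : H) : (twist ζ hζ x).support = x.support := by
  ext a
  simp only [mem_support, twist_coeff]
  rw [ne_eq, mul_eq_zero, not_or]
  exact ⟨fun h => h.2, fun h => ⟨zpow_ne_zero _ hζ, h⟩⟩

theorem twist_mul (ζ : ℂ) (hζ : ζ ≠ 0) (x y : H) :
    twist ζ hζ (x * y) = twist ζ hζ x * twist ζ hζ y := by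
  ext a
  rw [twist_coeff, HahnSeries.coeff_mul, HahnSeries.coeff_mul, Finset.mul_sum]
  have hx := twist_support ζ hζ x
  have hy := twist_support ζ hζ y
  refine Finset.sum_congr ?_ ?_
  · ext ⟨b, c⟩
    simp [hx, hy]
  · rintro ⟨b, c⟩ hbc
    rw [Finset.mem_antidiagonal] at hbc
    simp only [twist_coeff]
    rw [← hbc.2.2]
    have : -(ofLex (b + c)).1 = -(ofLex b).1 + -(ofLex c).1 := by
      simp; ring
    simp only at this ⊢
    rw [this, zpow_add₀ hζ]
    ring

/-- The automorphism `ξ ↦ ζ⁻¹ ξ`, `η ↦ η`. -/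
def sg (ζ : ℂ) (hζ : ζ ≠ 0) : H →+* H where
  toFun := twist ζ hζ
  map_one' := by
    ext a
    rw [twist_coeff, HahnSeries.coeff_one]
    split_ifs with h
    · rw [h]; simp
    · simp
  map_mul' := twist_mul ζ hζ
  map_zero' := by
    ext a
    simp [twist_coeff]
  map_add' x y := by
    ext a
    simp [twist_coeff, mul_add]

theorem sg_coeff (ζ : ℂ) (hζ : ζ ≠ 0) (x : H) (a : Γ) :
    (sg ζ hζ x).coeff a = ζ ^ (-(ofLex a).1) * x.coeff a := rfl

theorem sg_iota (n : ℕ) (hn : 0 < n) (ζ : ℂ) (hζ : ζ ≠ 0) (h1 : ζ ^ n = 1) (c : F) :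
    sg ζ hζ (iota n hn c) = iota n hn c := by
  ext a
  rw [sg_coeff]
  by_cases h : (iota n hn c).coeff a = 0
  · rw [h, mul_zero]
  · obtain ⟨i, k, rfl⟩ := iota_coeff n hn c a h
    have : ζ ^ (-(ofLex (g (n * i) (n * k))).1) = 1 := by
      change ζ ^ (-((n : ℤ) * i)) = 1
      rw [zpow_neg, zpow_mul, zpow_natCast, h1]
      simp
    rw [this, one_mul]

theorem sg_coeff_ne (ζ : ℂ) (hζ : ζ ≠ 0) (x : H) (a : Γ) :
    (sg ζ hζ x).coeff a ≠ 0 ↔ x.coeff a ≠ 0 := by
  rw [sg_coeff, ne_eq, mul_eq_zero, not_or]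
  exact ⟨fun h => h.2, fun h => ⟨zpow_ne_zero _ hζ, h⟩⟩

theorem sg_orderTop (ζ : ℂ) (hζ : ζ ≠ 0) (x : H) : (sg ζ hζ x).orderTop = x.orderTop := by
  by_cases hx : x = 0
  · rw [hx, map_zero]
  have hx' : sg ζ hζ x ≠ 0 := (map_ne_zero _).2 hx
  apply le_antisymm
  · obtain ⟨a, ha⟩ := WithTop.ne_top_iff_exists.1 (orderTop_ne_top.2 hx)
    rw [← ha]
    exact orderTop_le_of_coeff_ne_zero ((sg_coeff_ne ζ hζ x a).2 (coeff_orderTop_ne ha.symm))
  · obtain ⟨a, ha⟩ := WithTop.ne_top_iff_exists.1 (orderTop_ne_top.2 hx')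
    rw [← ha]
    exact orderTop_le_of_coeff_ne_zero ((sg_coeff_ne ζ hζ x a).1 (coeff_orderTop_ne ha.symm))

end

end Pool.Agent.Helper48.QT
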