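import Pool.Agent.Helper48.QT1

set_option autoImplicit false

namespace Pool.Agent.Helper48.QT

open MvPolynomial HahnSeries

noncomputable section

/-- The defining relations of the cyclic algebra. -/
def rel (n : ℕ) (ζ : ℂ) : FreeAlgebra F (Fin 2) → FreeAlgebra F (Fin 2) → Prop :=
  fun a b =>
    (a = FreeAlgebra.ι F (0 : Fin 2) ^ n ∧
      b = algebraMap F (FreeAlgebra F (Fin 2)) (algebraMap Pol F (X (0 : Fin 2)))) ∨
    (a = FreeAlgebra.ι F (1 : Fin 2) ^ n ∧
      b = algebraMap F (FreeAlgebra F (Fin 2)) (algebraMap Pol F (X (1 : Fin 2)))) ∨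
    (a = FreeAlgebra.ι F (0 : Fin 2) * FreeAlgebra.ι F (1 : Fin 2) ∧
      b = algebraMap ℂ (FreeAlgebra F (Fin 2)) ζ *
        (FreeAlgebra.ι F (1 : Fin 2) * FreeAlgebra.ι F (0 : Fin 2)))

abbrev A (n : ℕ) (ζ : ℂ) := RingQuot (rel n ζ)

variable (n : ℕ) (ζ : ℂ)

def mk : FreeAlgebra F (Fin 2) →ₐ[F] A n ζ := RingQuot.mkAlgHom F (rel n ζ)

def x : A n ζ := mk n ζ (FreeAlgebra.ι F 0)
def y : A n ζ := mk n ζ (FreeAlgebra.ι F 1)

theorem x_pow : x n ζ ^ n = algebraMap F (A n ζ) (algebraMap Pol F (X 0)) := by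
  unfold x
  rw [← map_pow, ← AlgHom.commutes (mk n ζ)]
  exact RingQuot.mkAlgHom_rel F (Or.inl ⟨rfl, rfl⟩)

theorem y_pow : y n ζ ^ n = algebraMap F (A n ζ) (algebraMap Pol F (X 1)) := by
  unfold y
  rw [← map_pow, ← AlgHom.commutes (mk n ζ)]
  exact RingQuot.mkAlgHom_rel F (Or.inr (Or.inl ⟨rfl, rfl⟩))

theorem xy : x n ζ * y n ζ = algebraMap ℂ (A n ζ) ζ * (y n ζ * x n ζ) := by
  unfold x y
  rw [← map_mul, ← map_mul, IsScalarTower.algebraMap_apply ℂ F (A n ζ),
    ← AlgHom.commutes (mk n ζ), ← map_mul]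
  rw [← IsScalarTower.algebraMap_apply ℂ F (FreeAlgebra F (Fin 2))]
  exact RingQuot.mkAlgHom_rel F (Or.inr (Or.inr ⟨rfl, rfl⟩))

theorem span_top (W : Submodule F (A n ζ)) (h1 : 1 ∈ W) (hx : ∀ a ∈ W, x n ζ * a ∈ W)
    (hy : ∀ a ∈ W, y n ζ * a ∈ W) (a : A n ζ) : a ∈ W := by
  obtain ⟨b, rfl⟩ := RingQuot.mkAlgHom_surjective F (rel n ζ) a
  have key : ∀ w ∈ W, mk n ζ b * w ∈ W := by
    induction b using FreeAlgebra.induction with
    | grade0 r =>
      intro w hw
      rw [AlgHom.commutes, ← Algebra.smul_def]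
      exact W.smul_mem _ hw
    | grade1 i =>
      intro w hw
      fin_cases i
      · exact hx w hw
      · exact hy w hw
    | mul b c hb hc =>
      intro w hw
      rw [map_mul, mul_assoc]
      exact hb _ (hc _ hw)
    | add b c hb hc =>
      intro w hw
      rw [map_add, add_mul]
      exact W.add_mem (hb _ hw) (hc _ hw)
  have := key 1 h1
  rwa [mul_one] at this

def mon (p : Fin n × Fin n) : A n ζ := x n ζ ^ (p.1 : ℕ) * y n ζ ^ (p.2 : ℕ)

theorem yx_pow (hζ : ζ ≠ 0) (i : ℕ) :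
    y n ζ * x n ζ ^ i = algebraMap ℂ (A n ζ) (ζ⁻¹ ^ i) * (x n ζ ^ i * y n ζ) := by
  have hyx : y n ζ * x n ζ = algebraMap ℂ (A n ζ) ζ⁻¹ * (x n ζ * y n ζ) := by
    rw [xy, ← mul_assoc, ← map_mul, inv_mul_cancel₀ hζ, map_one, one_mul]
  induction i with
  | zero => simp
  | succ i ih =>
    rw [pow_succ, ← mul_assoc, ih, mul_assoc, mul_assoc, hyx, pow_succ, map_mul]
    rw [← mul_assoc (x n ζ ^ i), ← Algebra.commutes ζ⁻¹ (x n ζ ^ i)]
    simp only [mul_assoc]

theorem mon_mem (hn : 0 < n) (i j : ℕ) :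
    x n ζ ^ i * y n ζ ^ j ∈ Submodule.span F (Set.range (mon n ζ)) := by
  have hi : x n ζ ^ i = (algebraMap Pol F (X 0)) ^ (i / n) • x n ζ ^ (i % n) := by
    conv_lhs => rw [← Nat.div_add_mod i n]
    rw [_root_.pow_add, pow_mul, x_pow, ← map_pow, Algebra.smul_def]
  have hj : y n ζ ^ j = (algebraMap Pol F (X 1)) ^ (j / n) • y n ζ ^ (j % n) := by
    conv_lhs => rw [← Nat.div_add_mod j n]
    rw [_root_.pow_add, pow_mul, y_pow, ← map_pow, Algebra.smul_def]
  rw [hi, hj, smul_mul_assoc, mul_smul_comm]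
  refine Submodule.smul_mem _ _ (Submodule.smul_mem _ _ (Submodule.subset_span ?_))
  exact ⟨(⟨i % n, Nat.mod_lt _ hn⟩, ⟨j % n, Nat.mod_lt _ hn⟩), rfl⟩

theorem span_mon (hn : 0 < n) (hζ : ζ ≠ 0) : Submodule.span F (Set.range (mon n ζ)) = ⊤ := by
  rw [eq_top_iff]
  intro a _
  apply span_top
  · simpa using mon_mem n ζ hn 0 0
  · intro a ha
    induction ha using Submodule.span_induction with
    | mem a h =>
      obtain ⟨p, rfl⟩ := h
      unfold mon
      rw [← mul_assoc, ← pow_succ']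
      exact mon_mem n ζ hn _ _
    | zero => rw [mul_zero]; exact Submodule.zero_mem _
    | add a b _ _ ha hb => rw [mul_add]; exact Submodule.add_mem _ ha hb
    | smul c a _ ha => rw [mul_smul_comm]; exact Submodule.smul_mem _ _ ha
  · intro a ha
    induction ha using Submodule.span_induction with
    | mem a h =>
      obtain ⟨p, rfl⟩ := h
      unfold mon
      rw [← mul_assoc, yx_pow n ζ hζ, mul_assoc, mul_assoc, ← pow_succ',
        IsScalarTower.algebraMap_apply ℂ F (A n ζ), ← Algebra.smul_def]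
      exact Submodule.smul_mem _ _ (mon_mem n ζ hn _ _)
    | zero => rw [mul_zero]; exact Submodule.zero_mem _
    | add a b _ _ ha hb => rw [mul_add]; exact Submodule.add_mem _ ha hb
    | smul c a _ ha => rw [mul_smul_comm]; exact Submodule.smul_mem _ _ ha

theorem exists_coeffs (hn : 0 < n) (hζ : ζ ≠ 0) (a : A n ζ) :
    ∃ c : Fin n × Fin n → F, ∑ p, c p • mon n ζ p = a := by
  have : a ∈ Submodule.span F (Set.range (mon n ζ)) := by rw [span_mon n ζ hn hζ]; trivial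
  exact Submodule.mem_span_range_iff_exists_fun F |>.1 this

theorem finite (hn : 0 < n) (hζ : ζ ≠ 0) : Module.Finite F (A n ζ) :=
  ⟨⟨(Set.finite_range (mon n ζ)).toFinset, by simpa using span_mon n ζ hn hζ⟩⟩

end

end Pool.Agent.Helper48.QT
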