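import Pool.Agent.Helper48.QT2

set_option autoImplicit false

namespace Pool.Agent.Helper48.QT

open MvPolynomial

noncomputable section

section model

variable (n : ℕ) (ζ : ℂ) {K : Type} [Field K] [Algebra F K] (σ : K →ₐ[F] K) (ξ η : K)

def rx : Module.End F K := LinearMap.mulLeft F ξ
def ry : Module.End F K := LinearMap.mulLeft F η ∘ₗ σ.toLinearMap

theorem rx_pow_apply (m : ℕ) (f : K) : (rx ξ ^ m) f = ξ ^ m * f := by
  induction m with
  | zero => simp
  | succ m ih =>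
    rw [pow_succ', Module.End.mul_apply, ih]
    simp only [rx, LinearMap.mulLeft_apply]
    ring

theorem ry_pow_apply (hη : σ η = η) (m : ℕ) (f : K) : (ry σ η ^ m) f = η ^ m * σ^[m] f := by
  induction m with
  | zero => simp
  | succ m ih =>
    rw [pow_succ', Module.End.mul_apply, ih]
    simp only [ry, LinearMap.comp_apply, LinearMap.mulLeft_apply, AlgHom.toLinearMap_apply,
      map_mul, map_pow, hη]
    rw [Function.iterate_succ', Function.comp_apply]
    ring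

theorem rel_model (hξn : ξ ^ n = algebraMap F K (algebraMap Pol F (X 0)))
    (hηn : η ^ n = algebraMap F K (algebraMap Pol F (X 1)))
    (hζ : ζ ≠ 0) (hσξ : σ ξ = algebraMap F K (algebraMap ℂ F ζ⁻¹) * ξ) (hση : σ η = η)
    (hσ : ∀ f, σ^[n] f = f) ⦃a b : FreeAlgebra F (Fin 2)⦄ (h : rel n ζ a b) :
    FreeAlgebra.lift F ![rx ξ, ry σ η] a = FreeAlgebra.lift F ![rx ξ, ry σ η] b := by
  rcases h with ⟨rfl, rfl⟩ | ⟨rfl, rfl⟩ | ⟨rfl, rfl⟩
  · rw [map_pow, AlgHom.commutes, FreeAlgebra.lift_ι_apply]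
    refine LinearMap.ext fun f => ?_
    rw [Matrix.cons_val_zero, rx_pow_apply, Module.algebraMap_end_apply, Algebra.smul_def, hξn]
  · rw [map_pow, AlgHom.commutes, FreeAlgebra.lift_ι_apply]
    refine LinearMap.ext fun f => ?_
    rw [Matrix.cons_val_one, Matrix.cons_val_fin_one, ry_pow_apply σ η hση,
      Module.algebraMap_end_apply, Algebra.smul_def, hηn, hσ]
  · rw [IsScalarTower.algebraMap_apply ℂ F (FreeAlgebra F (Fin 2)), map_mul, map_mul, map_mul,
      AlgHom.commutes, FreeAlgebra.lift_ι_apply, FreeAlgebra.lift_ι_apply]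
    refine LinearMap.ext fun f => ?_
    rw [Module.End.mul_apply, Module.End.mul_apply, Module.End.mul_apply,
      Module.algebraMap_end_apply, Algebra.smul_def]
    simp only [Matrix.cons_val_zero, Matrix.cons_val_one, Matrix.cons_val_fin_one, rx, ry,
      LinearMap.comp_apply, LinearMap.mulLeft_apply, AlgHom.toLinearMap_apply, map_mul, hσξ]
    have h4 : algebraMap F K (algebraMap ℂ F ζ) * algebraMap F K (algebraMap ℂ F ζ⁻¹) = 1 := by
      rw [← map_mul, ← map_mul, mul_inv_cancel₀ hζ, map_one, map_one]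
    linear_combination (-ξ * η * σ f) * h4

theorem model_domain (hn : 0 < n) (hξn : ξ ^ n = algebraMap F K (algebraMap Pol F (X 0)))
    (hηn : η ^ n = algebraMap F K (algebraMap Pol F (X 1)))
    (hζ : ζ ≠ 0) (hσξ : σ ξ = algebraMap F K (algebraMap ℂ F ζ⁻¹) * ξ) (hση : σ η = η)
    (hσ : ∀ f, σ^[n] f = f)
    (hval : ∀ c : Fin n × Fin n → F, c ≠ 0 → ∀ f : K, f ≠ 0 →
      ∑ p, algebraMap F K (c p) * (ξ ^ (p.1 : ℕ) * (η ^ (p.2 : ℕ) * σ^[(p.2 : ℕ)] f)) ≠ 0) :
    ∃ ρ : A n ζ →ₐ[F] Module.End F K, (∀ f, ρ (x n ζ) f = ξ * f) ∧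
      (∀ f, ρ (y n ζ) f = η * σ f) ∧ ∀ a, a ≠ 0 → ∀ f, f ≠ 0 → ρ a f ≠ 0 := by
  let ρ : A n ζ →ₐ[F] Module.End F K :=
    RingQuot.liftAlgHom F ⟨FreeAlgebra.lift F ![rx ξ, ry σ η],
      rel_model n ζ σ ξ η hξn hηn hζ hσξ hση hσ⟩
  have hx : ρ (x n ζ) = rx ξ := by
    simp only [ρ, x, mk]
    rw [RingQuot.liftAlgHom_mkAlgHom_apply, FreeAlgebra.lift_ι_apply, Matrix.cons_val_zero]
  have hy : ρ (y n ζ) = ry σ η := by
    simp only [ρ, y, mk]
    rw [RingQuot.liftAlgHom_mkAlgHom_apply, FreeAlgebra.lift_ι_apply, Matrix.cons_val_one,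
      Matrix.cons_val_fin_one]
  refine ⟨ρ, ?_, ?_, ?_⟩
  · intro f; rw [hx]; rfl
  · intro f; rw [hy]; rfl
  · intro a ha f hf
    obtain ⟨c, hc⟩ := exists_coeffs n ζ hn hζ a
    have hc0 : c ≠ 0 := by
      rintro rfl
      apply ha
      rw [← hc]
      simp
    have h1 := hval c hc0 f hf
    rw [← hc, map_sum, LinearMap.sum_apply]
    convert h1 using 2
    unfold mon
    rw [map_smul, map_mul, map_pow, map_pow, hx, hy, LinearMap.smul_apply,
      Module.End.mul_apply, ry_pow_apply σ η hση, rx_pow_apply, Algebra.smul_def]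

end model

open HahnSeries

theorem sum_ne_zero {ι : Type} (s : Finset ι) (f : ι → H) (h0 : ∃ i ∈ s, f i ≠ 0)
    (hd : ∀ i ∈ s, ∀ j ∈ s, f i ≠ 0 → f j ≠ 0 → (f i).order = (f j).order → i = j) :
    ∑ i ∈ s, f i ≠ 0 := by
  classical
  obtain ⟨i0, hi0, hf0⟩ := h0
  obtain ⟨i, hi, hmin⟩ := Finset.exists_min_image (s.filter fun i => f i ≠ 0)
    (fun i => (f i).order) ⟨i0, by simp [hi0, hf0]⟩
  rw [Finset.mem_filter] at hi
  intro h
  have h2 : (∑ k ∈ s, f k).coeff (f i).order = (f i).coeff (f i).order := by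
    rw [HahnSeries.coeff_sum]
    apply Finset.sum_eq_single_of_mem i hi.1
    intro k hk hki
    by_cases hfk : f k = 0
    · rw [hfk]; simp
    have h3 : (f i).order ≤ (f k).order := hmin k (by simp [hk, hfk])
    have h4 : (f i).order ≠ (f k).order := fun h => hki (hd i hi.1 k hk hi.2 hfk h).symm
    exact coeff_eq_zero_of_lt_order (lt_of_le_of_ne h3 h4)
  rw [h, HahnSeries.coeff_zero] at h2
  exact hi.2 (coeff_order_eq_zero.1 h2.symm)

theorem sg_single (ζ : ℂ) (hζ : ζ ≠ 0) (k : ℤ) (c : ℂ) :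
    sg ζ hζ (single (g 0 k) c) = single (g 0 k) c := by
  ext a
  rw [sg_coeff]
  by_cases h : a = g 0 k
  · subst h
    simp [g]
  · rw [coeff_single_of_ne h, mul_zero]

theorem sg_xi (ζ : ℂ) (hζ : ζ ≠ 0) :
    sg ζ hζ (single (g 1 0) 1) = algebraMap ℂ H ζ⁻¹ * single (g 1 0) 1 := by
  have h : algebraMap ℂ H ζ⁻¹ = single 0 ζ⁻¹ := rfl
  rw [h, single_mul_single, zero_add, mul_one]
  ext a
  rw [sg_coeff]
  by_cases h : a = g 1 0
  · subst h
    simp [g]
  · rw [coeff_single_of_ne h, coeff_single_of_ne h, mul_zero]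

theorem sg_iter_coeff (ζ : ℂ) (hζ : ζ ≠ 0) (m : ℕ) (f : H) (a : Γ) :
    ((sg ζ hζ)^[m] f).coeff a = (ζ ^ m) ^ (-(ofLex a).1) * f.coeff a := by
  induction m with
  | zero => simp
  | succ m ih =>
    rw [Function.iterate_succ', Function.comp_apply, sg_coeff, ih, ← mul_assoc, pow_succ',
      mul_zpow]

theorem sg_iter (n : ℕ) (ζ : ℂ) (hζ : ζ ≠ 0) (h1 : ζ ^ n = 1) (f : H) : (sg ζ hζ)^[n] f = f := by
  ext a
  rw [sg_iter_coeff, h1, one_zpow, one_mul]

theorem order_eq_of_orderTop {f f' : H} (hf : f ≠ 0) (hf' : f' ≠ 0)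
    (h : f.orderTop = f'.orderTop) : f.order = f'.order := by
  rw [← WithTop.coe_inj, order_eq_orderTop_of_ne_zero hf, order_eq_orderTop_of_ne_zero hf', h]

theorem sg_order (ζ : ℂ) (hζ : ζ ≠ 0) (f : H) (hf : f ≠ 0) : (sg ζ hζ f).order = f.order :=
  order_eq_of_orderTop ((map_ne_zero _).2 hf) hf (sg_orderTop ζ hζ f)

theorem sg_iter_ne (ζ : ℂ) (hζ : ζ ≠ 0) (m : ℕ) (f : H) (hf : f ≠ 0) :
    (sg ζ hζ)^[m] f ≠ 0 := by
  induction m with
  | zero => simpa
  | succ m ih =>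
    rw [Function.iterate_succ', Function.comp_apply]
    exact (map_ne_zero _).2 ih

theorem sg_iter_order (ζ : ℂ) (hζ : ζ ≠ 0) (m : ℕ) (f : H) (hf : f ≠ 0) :
    ((sg ζ hζ)^[m] f).order = f.order := by
  induction m with
  | zero => simp
  | succ m ih =>
    rw [Function.iterate_succ', Function.comp_apply, sg_order ζ hζ _ (sg_iter_ne ζ hζ m f hf), ih]

theorem iota_order (n : ℕ) (hn : 0 < n) (c : F) (hc : c ≠ 0) :
    ∃ i k, (iota n hn c).order = g (n * i) (n * k) := by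
  apply iota_coeff n hn c
  rw [ne_eq, coeff_order_eq_zero]
  exact (map_ne_zero _).2 hc

theorem ord_eq (n : ℕ) (a b : ℤ) (i k : ℕ) (hi : i < n) (hk : k < n) (h : n * a + i = n * b + k) :
    i = k := by
  have h1 : ((n : ℤ) * a + i) % n = i := by
    rw [Int.mul_add_emod_self_left]
    exact Int.emod_eq_of_lt (by positivity) (by exact_mod_cast hi)
  have h2 : ((n : ℤ) * b + k) % n = k := by
    rw [Int.mul_add_emod_self_left]
    exact Int.emod_eq_of_lt (by positivity) (by exact_mod_cast hk)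
  have : (i : ℤ) = k := by rw [← h1, ← h2, h]
  exact_mod_cast this

theorem hval (n : ℕ) (hn : 0 < n) (ζ : ℂ) (hζ : ζ ≠ 0) (c : Fin n × Fin n → F) (hc : c ≠ 0)
    (f : H) (hf : f ≠ 0) :
    ∑ p, iota n hn (c p) * ((single (g 1 0) (1 : ℂ)) ^ (p.1 : ℕ) *
      ((single (g 0 1) (1 : ℂ)) ^ (p.2 : ℕ) * (sg ζ hζ)^[(p.2 : ℕ)] f)) ≠ 0 := by
  have key : ∀ p : Fin n × Fin n, c p ≠ 0 → ∃ a b : ℤ,
      (iota n hn (c p) * ((single (g 1 0) (1 : ℂ)) ^ (p.1 : ℕ) *
      ((single (g 0 1) (1 : ℂ)) ^ (p.2 : ℕ) * (sg ζ hζ)^[(p.2 : ℕ)] f)) : H).order =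
        g (n * a + p.1) (n * b + p.2) + f.order := by
    intro p hp
    obtain ⟨a, b, hab⟩ := iota_order n hn (c p) hp
    refine ⟨a, b, ?_⟩
    rw [single_pow, single_pow, one_pow, one_pow, nsmul_g, nsmul_g]
    have e0 : iota n hn (c p) ≠ 0 := (map_ne_zero _).2 hp
    have e1 : (single (g ((p.1 : ℕ) * 1) ((p.1 : ℕ) * 0)) (1 : ℂ) : H) ≠ 0 :=
      single_ne_zero one_ne_zero
    have e2 : (single (g ((p.2 : ℕ) * 0) ((p.2 : ℕ) * 1)) (1 : ℂ) : H) ≠ 0 :=
      single_ne_zero one_ne_zero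
    have e3 : (sg ζ hζ)^[(p.2 : ℕ)] f ≠ 0 := sg_iter_ne ζ hζ _ f hf
    rw [order_mul e0 (mul_ne_zero e1 (mul_ne_zero e2 e3)), order_mul e1 (mul_ne_zero e2 e3),
      order_mul e2 e3, sg_iter_order ζ hζ _ f hf, hab, order_single one_ne_zero,
      order_single one_ne_zero, ← add_assoc, ← add_assoc, g_add, g_add]
    congr 2 <;> ring
  apply sum_ne_zero
  · obtain ⟨p, hp⟩ := Function.ne_iff.1 hc
    refine ⟨p, Finset.mem_univ _, ?_⟩
    refine mul_ne_zero ((map_ne_zero _).2 hp) (mul_ne_zero (pow_ne_zero _ (single_ne_zero one_ne_zero))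
      (mul_ne_zero (pow_ne_zero _ (single_ne_zero one_ne_zero)) (sg_iter_ne ζ hζ _ f hf)))
  · intro p _ q _ hp hq h
    have hp' : c p ≠ 0 := by
      rintro h0
      apply hp
      rw [h0, map_zero, zero_mul]
    have hq' : c q ≠ 0 := by
      rintro h0
      apply hq
      rw [h0, map_zero, zero_mul]
    obtain ⟨a, b, h1⟩ := key p hp'
    obtain ⟨a', b', h2⟩ := key q hq'
    rw [h1, h2, add_left_inj, g_inj] at h
    refine Prod.ext (Fin.ext ?_) (Fin.ext ?_)
    · exact ord_eq n a a' _ _ p.1.2 q.1.2 h.1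
    · exact ord_eq n b b' _ _ p.2.2 q.2.2 h.2

/-- The cyclic algebra has no zero divisors, and `x ^ i * y ^ j` are independent over `ℂ`. -/
theorem exists_phi (n : ℕ) (hn : 0 < n) (ζ : ℂ) (hζ : ζ ≠ 0) (h1 : ζ ^ n = 1) :
    (∀ a b : A n ζ, a * b = 0 → a = 0 ∨ b = 0) ∧ (1 : A n ζ) ≠ 0 ∧
      ∃ φ : A n ζ →ₗ[ℂ] H, ∀ i j : ℕ, φ (x n ζ ^ i * y n ζ ^ j) = single (g i j) 1 := by
  let _ : Algebra F H := (iota n hn).toAlgebra
  let σ : H →ₐ[F] H := { sg ζ hζ with commutes' := fun c => sg_iota n hn ζ hζ h1 c }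
  have hη : σ (single (g 0 1) 1) = single (g 0 1) 1 := sg_single ζ hζ 1 1
  obtain ⟨ρ, h2, h3, h4⟩ := model_domain n ζ σ (single (g 1 0) 1) (single (g 0 1) 1) hn
    (by
      change _ = iota n hn _
      rw [iota_X0, single_pow, nsmul_g, one_pow]; simp)
    (by
      change _ = iota n hn _
      rw [iota_X1, single_pow, nsmul_g, one_pow]; simp) hζ
    (by
      change sg ζ hζ _ = iota n hn _ * _
      rw [sg_xi, iota_C])
    hη (sg_iter n ζ hζ h1) (hval n hn ζ hζ)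
  have hx : ρ (x n ζ) = rx (single (g 1 0) 1) := LinearMap.ext fun f => h2 f
  have hy : ρ (y n ζ) = ry σ (single (g 0 1) 1) := LinearMap.ext fun f => h3 f
  refine ⟨?_, ?_, ⟨⟨⟨fun a => ρ a 1, ?_⟩, ?_⟩, ?_⟩⟩
  · intro a b hab
    by_contra hc
    rw [not_or] at hc
    have h5 := h4 a hc.1 (ρ b 1) (h4 b hc.2 1 one_ne_zero)
    apply h5
    rw [← Module.End.mul_apply, ← map_mul, hab, map_zero, LinearMap.zero_apply]
  · intro h
    have h5 : (ρ (1 : A n ζ)) (1 : H) = 0 := by rw [h, map_zero, LinearMap.zero_apply]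
    rw [map_one ρ, Module.End.one_apply] at h5
    exact one_ne_zero h5
  · intro a b
    rw [map_add, LinearMap.add_apply]
  · intro c a
    simp only [RingHom.id_apply]
    have h5 : c • (ρ a) 1 = algebraMap ℂ H c * (ρ a) 1 :=
      (HahnSeries.C_mul_eq_smul (r := c) (x := (ρ a) 1)).symm
    rw [h5, Algebra.smul_def, IsScalarTower.algebraMap_apply ℂ F (A n ζ), ← Algebra.smul_def,
      map_smul, LinearMap.smul_apply, Algebra.smul_def]
    congr 1
    exact iota_C n hn c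
  · intro i k
    change ρ _ 1 = _
    rw [map_mul, map_pow, map_pow, hx, hy, Module.End.mul_apply, ry_pow_apply σ _ hη,
      rx_pow_apply]
    have h6 : σ^[k] 1 = 1 := Function.iterate_fixed (map_one σ) k
    rw [h6, mul_one, single_pow, single_pow, single_mul_single, nsmul_g, nsmul_g, g_add]
    simp

end

end Pool.Agent.Helper48.QT
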