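import Mathlib

set_option autoImplicit false

namespace Pool.Agent.Helper48.QT

noncomputable section

section group

variable {G : Type} [Group G] (P X Y : G)

theorem comm_zpow (hP : ∀ g : G, Commute P g) (h : X * Y = P ^ 2 * (Y * X)) (b c : ℤ) :
    Y ^ b * X ^ c = P ^ (-(2 * b * c)) * (X ^ c * Y ^ b) := by
  have h1 : Y * X * Y⁻¹ = P ^ (-2 : ℤ) * X := by
    have : Y * X = P ^ (-2 : ℤ) * (X * Y) := by
      rw [h, ← mul_assoc, zpow_neg, zpow_ofNat, inv_mul_cancel, one_mul]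
    rw [this]; group
  have h2 : Y * X ^ c * Y⁻¹ = P ^ (-(2 * c)) * X ^ c := by
    rw [← conj_zpow, h1, ((hP X).zpow_left (-2)).mul_zpow, ← zpow_mul]
    congr 2; ring
  have h3 : X ^ c * Y * (X ^ c)⁻¹ = P ^ (2 * c) * Y := by
    have e1 : Y * X ^ c = P ^ (-(2 * c)) * X ^ c * Y := by
      rw [← h2]; group
    have e2 : X ^ c * Y = P ^ (2 * c) * (Y * X ^ c) := by
      rw [e1]; group
    rw [e2]; group
  have h4 : X ^ c * Y ^ b * (X ^ c)⁻¹ = P ^ (2 * c * b) * Y ^ b := by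
    rw [← conj_zpow, h3, ((hP Y).zpow_left (2 * c)).mul_zpow, ← zpow_mul]
  have e3 : X ^ c * Y ^ b = P ^ (2 * c * b) * (Y ^ b * X ^ c) := by
    rw [← mul_assoc, ← h4]; group
  rw [e3, ← mul_assoc, ← zpow_add]
  have : -(2 * b * c) + 2 * c * b = 0 := by ring
  rw [this, zpow_zero, one_mul]

def E (a b : ℤ) : G := P ^ (-(a * b)) * (X ^ a * Y ^ b)

theorem E_mul (hP : ∀ g : G, Commute P g) (h : X * Y = P ^ 2 * (Y * X)) (a b c d : ℤ) :
    E P X Y a b * E P X Y c d = P ^ (a * d - b * c) * E P X Y (a + c) (b + d) := by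
  unfold E
  have e1 : P ^ (-(a * b)) * (X ^ a * Y ^ b) * (P ^ (-(c * d)) * (X ^ c * Y ^ d)) =
      P ^ (-(a * b)) * P ^ (-(c * d)) * (X ^ a * (Y ^ b * X ^ c) * Y ^ d) := by
    have : Commute (P ^ (-(c * d))) (X ^ a * Y ^ b) := (hP _).zpow_left _
    calc _ = P ^ (-(a * b)) * ((X ^ a * Y ^ b) * P ^ (-(c * d))) * (X ^ c * Y ^ d) := by group
      _ = _ := by rw [← this.eq]; group
  have e2 : X ^ a * (P ^ (-(2 * b * c)) * (X ^ c * Y ^ b)) * Y ^ d =
      P ^ (-(2 * b * c)) * (X ^ (a + c) * Y ^ (b + d)) := by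
    have : Commute (P ^ (-(2 * b * c))) (X ^ a) := (hP _).zpow_left _
    rw [← mul_assoc, ← this.eq]
    group
  have e3 : P ^ (a * d - b * c) * (P ^ (-((a + c) * (b + d))) * (X ^ (a + c) * Y ^ (b + d))) =
      P ^ ((a * d - b * c) + (-((a + c) * (b + d)))) * (X ^ (a + c) * Y ^ (b + d)) := by
    rw [zpow_add P (a * d - b * c), mul_assoc (P ^ (a * d - b * c))]
  have e4 : P ^ (-(a * b)) * P ^ (-(c * d)) * (P ^ (-(2 * b * c)) * (X ^ (a + c) * Y ^ (b + d))) =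
      P ^ (-(a * b) + -(c * d) + -(2 * b * c)) * (X ^ (a + c) * Y ^ (b + d)) := by
    rw [zpow_add P (-(a * b) + -(c * d)), zpow_add P (-(a * b)),
      mul_assoc (P ^ (-(a * b)) * P ^ (-(c * d)))]
  rw [e1, comm_zpow P X Y hP h, e2, e3, e4]
  congr 2
  ring

end group

section ident

variable {R : Type} [Ring R] [Algebra ℂ R] (e : ℤ → ℤ → R) (p : ℂ)

def LL : R := e 2 0 + e 0 2 + e (-2) (-2) + (p ^ 3 + p⁻¹ ^ 3) • e 1 1
  + (p + p⁻¹) • (e (-1) 0 + e 0 (-1))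

def MM : R := e 3 0 + e 0 3 + e (-3) (-3) + (1 + p ^ 4 + p⁻¹ ^ 4) • (e 2 1 + e 1 2)
  + (1 + p ^ 2 + p⁻¹ ^ 2) • (e (-1) 1 + e (-2) (-1) + e 1 (-1) + e (-1) (-2))

variable (hp : p ≠ 0) (he : ∀ a b c d, e a b * e c d = p ^ (a * d - b * c) • e (a + c) (b + d))

include hp he in
theorem comm_LM : LL e p * MM e p = MM e p * LL e p := by
  simp only [LL, MM, mul_add, add_mul, smul_mul_assoc, mul_smul_comm, smul_add, he, smul_smul]
  norm_num
  match_scalars <;> field_simp <;> ring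

def kap : ℂ := 3 * (p ^ 3 + p + p⁻¹ + p⁻¹ ^ 3)

set_option maxHeartbeats 4000000 in
include hp he in
theorem relation (h1 : e 0 0 = 1) : MM e p * MM e p + kap p • MM e p =
    LL e p * LL e p * LL e p +
      ((1 / 4) * (p - p⁻¹) ^ 6 - (1 / 4) * kap p ^ 2) • (1 : R) := by
  rw [← h1]
  simp only [kap, LL, MM, mul_add, add_mul, smul_mul_assoc, mul_smul_comm, smul_add, he, smul_smul]
  norm_num
  match_scalars <;> field_simp <;> ring

end ident

end

end Pool.Agent.Helper48.QT
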