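import Pool.Agent.Helper48.QT3
import Pool.Agent.Helper48.QT4

set_option autoImplicit false

namespace Pool.Agent.Helper48.QT

open MvPolynomial

noncomputable section

theorem isUnit_x (n : ℕ) (hn : 0 < n) (ζ : ℂ) : IsUnit (x n ζ) := by
  rw [← isUnit_pow_iff hn.ne', x_pow]
  apply IsUnit.map
  rw [isUnit_iff_ne_zero]
  exact fun h => X_ne_zero (R := ℂ) (0 : Fin 2) ((IsFractionRing.injective Pol F) (by rw [h, map_zero]))

theorem isUnit_y (n : ℕ) (hn : 0 < n) (ζ : ℂ) : IsUnit (y n ζ) := by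
  rw [← isUnit_pow_iff hn.ne', y_pow]
  apply IsUnit.map
  rw [isUnit_iff_ne_zero]
  exact fun h => X_ne_zero (R := ℂ) (1 : Fin 2) ((IsFractionRing.injective Pol F) (by rw [h, map_zero]))

theorem exists_LM (n : ℕ) (hn : 2 ≤ n) (ζ : ℂ) (hζ : IsPrimitiveRoot ζ n) :
    ∃ L M : A n ζ, L * M = M * L ∧ (∃ κ c : ℂ, c ≠ 0 ∧
      M * M + κ • M = L * L * L + (c - (1 / 4) * κ ^ 2) • (1 : A n ζ)) ∧
      ∀ l : ℂ, L ≠ algebraMap ℂ (A n ζ) l := by
  have hn0 : 0 < n := by omega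
  have hζ0 : ζ ≠ 0 := hζ.ne_zero hn0.ne'
  obtain ⟨p, hp⟩ := IsAlgClosed.exists_pow_nat_eq ζ (n := 2) (by norm_num)
  have hp0 : p ≠ 0 := by
    rintro rfl
    apply hζ0
    rw [← hp]; simp
  let P : (A n ζ)ˣ := Units.map (algebraMap ℂ (A n ζ)).toMonoidHom (Units.mk0 p hp0)
  let X : (A n ζ)ˣ := (isUnit_x n hn0 ζ).unit
  let Y : (A n ζ)ˣ := (isUnit_y n hn0 ζ).unit
  have hX : (X : A n ζ) = x n ζ := (isUnit_x n hn0 ζ).unit_spec
  have hY : (Y : A n ζ) = y n ζ := (isUnit_y n hn0 ζ).unit_spec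
  have hPk : ∀ k : ℤ, ((P ^ k : (A n ζ)ˣ) : A n ζ) = algebraMap ℂ (A n ζ) (p ^ k) := by
    intro k
    change ((Units.map (algebraMap ℂ (A n ζ)).toMonoidHom (Units.mk0 p hp0)) ^ k : (A n ζ)ˣ).val = _
    rw [← map_zpow, Units.coe_map, Units.val_zpow_eq_zpow_val, Units.val_mk0]
    rfl
  have hPc : ∀ g : (A n ζ)ˣ, Commute P g := by
    intro g
    apply Units.ext
    exact Algebra.commutes p (g : A n ζ)
  have hXY : X * Y = P ^ 2 * (Y * X) := by
    apply Units.ext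
    have h2 : ((P ^ 2 : (A n ζ)ˣ) : A n ζ) = algebraMap ℂ (A n ζ) ζ := by
      have := hPk 2
      rw [zpow_ofNat, zpow_ofNat, hp] at this
      exact this
    rw [Units.val_mul, Units.val_mul, Units.val_mul, h2, hX, hY, xy]
  let e : ℤ → ℤ → A n ζ := fun a b => (E P X Y a b : (A n ζ)ˣ)
  have he : ∀ a b c d, e a b * e c d = p ^ (a * d - b * c) • e (a + c) (b + d) := by
    intro a b c d
    simp only [e]
    rw [← Units.val_mul, E_mul P X Y hPc hXY, Units.val_mul, hPk, Algebra.smul_def]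
  have he0 : e 0 0 = 1 := by simp [e, E]
  refine ⟨LL e p, MM e p, comm_LM e p hp0 he, ⟨kap p, (1 / 4) * (p - p⁻¹) ^ 6, ?_, ?_⟩, ?_⟩
  · have : p - p⁻¹ ≠ 0 := by
      intro h
      have h1 : p ^ 2 = 1 := by
        rw [sub_eq_zero] at h
        field_simp at h
        exact h
      rw [hp] at h1
      exact hζ.ne_one (by omega) h1
    exact mul_ne_zero (by norm_num) (pow_ne_zero _ this)
  · exact relation e p hp0 he he0
  · intro l h
    obtain ⟨_, _, φ, hφ⟩ := exists_phi n hn0 ζ hζ0 hζ.pow_eq_one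
    have key : ∀ i k : ℕ, x n ζ ^ 2 * e ((i : ℤ) - 2) ((k : ℤ) - 2) * y n ζ ^ 2 =
        p ^ (-(((i : ℤ) - 2) * ((k : ℤ) - 2))) • (x n ζ ^ i * y n ζ ^ k) := by
      intro i k
      have h1 : X ^ 2 * E P X Y ((i : ℤ) - 2) ((k : ℤ) - 2) * Y ^ 2 =
          P ^ (-(((i : ℤ) - 2) * ((k : ℤ) - 2))) * (X ^ i * Y ^ k) := by
        unfold E
        rw [← mul_assoc, ((hPc (X ^ 2)).zpow_left _).eq.symm]
        group
      have h2 := congrArg (fun u : (A n ζ)ˣ => (u : A n ζ)) h1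
      simp only [Units.val_mul, Units.val_pow_eq_pow_val, hX, hY, hPk] at h2
      rw [Algebra.smul_def, ← h2]
    have h3 := congrArg (fun a => φ (x n ζ ^ 2 * a * y n ζ ^ 2)) h
    have k1 := key 4 2
    have k2 := key 2 4
    have k3 := key 0 0
    have k4 := key 3 3
    have k5 := key 1 2
    have k6 := key 2 1
    norm_num at k1 k2 k3 k4 k5 k6
    simp only [LL, mul_add, add_mul, mul_smul_comm, smul_mul_assoc, smul_add, k1, k2, k3, k4, k5,
      k6, map_add, map_smul] at h3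
    have e1 := hφ 4 2
    have e2 := hφ 2 4
    have e3 := hφ 0 0
    have e4 := hφ 3 3
    have e5 := hφ 1 2
    have e6 := hφ 2 1
    have e7 := hφ 2 2
    norm_num at e1 e2 e3 e4 e5 e6 e7
    rw [← Algebra.commutes l (x n ζ ^ 2), mul_assoc, ← Algebra.smul_def, map_smul, e7] at h3
    rw [e1, e2, e3, e4, e5, e6] at h3
    have h4 := congrArg (fun f : H => f.coeff (g 4 2)) h3
    simp only [HahnSeries.coeff_add, HahnSeries.coeff_smul, HahnSeries.coeff_single, g_inj] at h4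
    norm_num at h4

end

end Pool.Agent.Helper48.QT
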