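import Mathlib

set_option autoImplicit false

namespace Pool.Agent.Helper48.QT

open Polynomial

noncomputable section

/-- A commuting pair in a finite dimensional domain over a field lies in a subfield. -/
theorem field_part {F A : Type} [Field F] [Ring A] [IsDomain A] [Algebra F A] [Algebra ℂ F]
    [Algebra ℂ A] [IsScalarTower ℂ F A] [Module.Finite F A] (L M : A) (h : L * M = M * L) :
    ∃ (S : Type) (_ : Field S) (_ : Algebra ℂ S) (φ : S →ₐ[ℂ] A) (L' M' : S),
      Function.Injective φ ∧ φ L' = L ∧ φ M' = M := by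
  have hc : ∀ a ∈ ({L, M} : Set A), ∀ b ∈ ({L, M} : Set A), a * b = b * a := by
    rintro a (rfl | rfl) b (rfl | rfl)
    · rfl
    · exact h
    · exact h.symm
    · rfl
  have := Algebra.isMulCommutative_adjoin F hc
  let i1 : CommRing (Algebra.adjoin F ({L, M} : Set A)) := by
    open scoped IsMulCommutative in infer_instance
  let i2 : Field (Algebra.adjoin F ({L, M} : Set A)) :=
    fieldOfFiniteDimensional F (Algebra.adjoin F ({L, M} : Set A))
  refine ⟨Algebra.adjoin F ({L, M} : Set A), i2, inferInstance,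
    ((Algebra.adjoin F ({L, M} : Set A)).val.restrictScalars ℂ),
    ⟨L, Algebra.subset_adjoin (by simp)⟩, ⟨M, Algebra.subset_adjoin (by simp)⟩, ?_, rfl, rfl⟩
  exact Subtype.val_injective

theorem trdeg_part {S : Type} [Field S] [Algebra ℂ S] (L M : S) (κ c : ℂ)
    (hL : ∀ l : ℂ, L ≠ algebraMap ℂ S l)
    (hLM : M * M + κ • M = L * L * L + c • (1 : S)) :
    Algebra.trdeg ℂ (IntermediateField.adjoin ℂ ({L, M} : Set S)) = 1 := by
  set K := IntermediateField.adjoin ℂ ({L, M} : Set S) with hK
  let L' : K := ⟨L, IntermediateField.subset_adjoin _ _ (by simp)⟩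
  let M' : K := ⟨M, IntermediateField.subset_adjoin _ _ (by simp)⟩
  have htop : IntermediateField.adjoin ℂ ({L', M'} : Set K) = ⊤ := by
    apply IntermediateField.lift_injective K
    rw [IntermediateField.lift_adjoin, IntermediateField.lift_top, Set.image_pair]
  have hLM' : M' * M' + κ • M' = L' * L' * L' + c • (1 : K) := Subtype.ext hLM
  have hM : IsAlgebraic (Algebra.adjoin ℂ ({L'} : Set K)) M' := by
    let L0 : Algebra.adjoin ℂ ({L'} : Set K) := ⟨L', Algebra.subset_adjoin rfl⟩
    refine ⟨X ^ 2 + C (algebraMap ℂ _ κ) * X - C (L0 ^ 3 + algebraMap ℂ _ c), ?_, ?_⟩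
    · apply Monic.ne_zero
      monicity!
    · simp only [map_sub, map_add, map_mul, map_pow, aeval_X, aeval_C]
      have e1 : algebraMap (Algebra.adjoin ℂ ({L'} : Set K)) K L0 = L' := rfl
      have e2 : ∀ z : ℂ, algebraMap (Algebra.adjoin ℂ ({L'} : Set K)) K
        (algebraMap ℂ (Algebra.adjoin ℂ ({L'} : Set K)) z) = algebraMap ℂ K z := fun z => rfl
      rw [e1, e2, e2]
      rw [Algebra.smul_def, Algebra.smul_def] at hLM'
      linear_combination hLM'
  have halg : Algebra.IsAlgebraic (Algebra.adjoin ℂ ({L'} : Set K)) K := by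
    constructor
    intro a
    apply IsAlgebraic.adjoin_of_forall_isAlgebraic (s := {L', M'})
    · rintro z ⟨rfl | rfl, hz⟩
      · exact absurd rfl hz
      · exact hM
    · rw [← IntermediateField.isAlgebraic_adjoin_iff, htop]
      exact isAlgebraic_algebraMap (⟨a, trivial⟩ : (⊤ : IntermediateField ℂ K))
  have h1 : Algebra.trdeg ℂ K ≤ 1 := by
    have := Algebra.IsAlgebraic.trdeg_le_cardinalMk ℂ (A := K) {L'}
    simpa using this
  have h2 : Algebra.trdeg ℂ K ≠ 0 := by
    intro h0
    rw [trdeg_eq_zero_iff] at h0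
    obtain ⟨l, hl⟩ := (IsAlgClosed.algebraMap_bijective_of_isIntegral (k := ℂ) (K := K)).2 L'
    exact hL l (congrArg Subtype.val hl).symm
  exact le_antisymm h1 (Cardinal.one_le_iff_ne_zero.2 h2)

/-- A rational function which satisfies an equation of an elliptic curve is constant. -/
theorem ratfunc_const (r s : RatFunc ℂ) (c : ℂ) (hc : c ≠ 0)
    (h : s ^ 2 = r ^ 3 + algebraMap ℂ (RatFunc ℂ) c) : ∃ l : ℂ, r = algebraMap ℂ (RatFunc ℂ) l := by
  have inj := IsFractionRing.injective ℂ[X] (RatFunc ℂ)
  have he0 : algebraMap ℂ[X] (RatFunc ℂ) r.denom ≠ 0 :=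
    fun h => r.denom_ne_zero (inj (by rw [h, map_zero]))
  have hg0 : algebraMap ℂ[X] (RatFunc ℂ) s.denom ≠ 0 :=
    fun h => s.denom_ne_zero (inj (by rw [h, map_zero]))
  have key : s.num ^ 2 * r.denom ^ 3 = s.denom ^ 2 * (r.num ^ 3 + C c * r.denom ^ 3) := by
    apply inj
    simp only [map_mul, map_pow, map_add]
    have h1 := RatFunc.num_div_denom r
    have h2 := RatFunc.num_div_denom s
    have h3 : algebraMap ℂ[X] (RatFunc ℂ) (C c) = algebraMap ℂ (RatFunc ℂ) c := rfl
    rw [← h1, ← h2] at h
    rw [h3]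
    field_simp at h
    linear_combination h
  have hr := RatFunc.isCoprime_num_denom r
  have hs := RatFunc.isCoprime_num_denom s
  set a := r.num with ha
  set e := r.denom with he
  set b := s.num with hb
  set g := s.denom with hg
  have hem : e.Monic := RatFunc.monic_denom r
  have hgm : g.Monic := RatFunc.monic_denom s
  have d1 : e ^ 3 ∣ g ^ 2 := by
    have : IsCoprime (e ^ 3) (a ^ 3 + C c * e ^ 3) := by
      have h4 : IsCoprime (e ^ 3) (a ^ 3) := hr.symm.pow
      exact h4.add_mul_right_right (C c)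
    exact this.dvd_of_dvd_mul_right ⟨b ^ 2, by rw [← key]; ring⟩
  have d2 : g ^ 2 ∣ e ^ 3 := by
    have : IsCoprime (g ^ 2) (b ^ 2) := hs.symm.pow
    exact this.dvd_of_dvd_mul_left ⟨_, key⟩
  have hge : g ^ 2 = e ^ 3 :=
    Polynomial.eq_of_monic_of_associated (hgm.pow 2) (hem.pow 3) (associated_of_dvd_dvd d2 d1)
  have hdvd : e ∣ g := by
    refine (IsIntegrallyClosed.pow_dvd_pow_iff (n := 2) two_ne_zero).1 ?_
    rw [hge]
    exact ⟨e, by ring⟩
  obtain ⟨d, hd⟩ := hdvd
  have he_ne : e ≠ 0 := hem.ne_zero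
  have hd2 : d ^ 2 = e := by
    apply mul_left_cancel₀ (pow_ne_zero 2 he_ne)
    rw [← mul_pow, ← hd, hge]; ring
  have hd0 : d ≠ 0 := by
    rintro rfl
    apply he_ne
    rw [← hd2]; simp
  have hgd : g = d ^ 3 := by rw [hd, ← hd2]; ring
  have key2 : b ^ 2 = a ^ 3 + C c * d ^ 6 := by
    rw [hgd, ← hd2] at key
    apply mul_left_cancel₀ (pow_ne_zero 6 hd0)
    linear_combination key
  have had : IsCoprime a d := by
    have h4 : IsCoprime a (d * d) := by
      have : d * d = e := by rw [← hd2]; ring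
      rw [this]; exact hr
    exact h4.of_mul_right_left
  have hconst : a.natDegree = 0 ∧ d.natDegree = 0 := by
    by_cases ha0 : a = 0
    · have hu : IsUnit d := by
        rw [ha0] at had
        exact isCoprime_zero_left.1 had
      exact ⟨by rw [ha0]; simp, Polynomial.natDegree_eq_zero_of_isUnit hu⟩
    by_cases hb0 : b = 0
    · have hu : IsUnit d := by
        have h5 : IsCoprime (a ^ 3) d := had.pow_left
        have h6 : d ∣ a ^ 3 := ⟨-(C c * d ^ 5), by
          rw [hb0] at key2
          linear_combination -key2⟩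
        exact h5.symm.isUnit_of_dvd' dvd_rfl h6
      have hd00 := Polynomial.natDegree_eq_zero_of_isUnit hu
      refine ⟨?_, hd00⟩
      have h7 : a ^ 3 = C (-c) * d ^ 6 := by
        rw [hb0] at key2
        rw [map_neg]
        linear_combination -key2
      have h8 := congrArg Polynomial.natDegree h7
      rw [Polynomial.natDegree_pow, Polynomial.natDegree_C_mul (neg_ne_zero.2 hc),
        Polynomial.natDegree_pow, hd00] at h8
      omega
    · have hba : IsCoprime b a := by
        have h5 : IsCoprime (C c * d ^ 6) (a ^ 3) := by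
          rw [isCoprime_mul_unit_left_left (Polynomial.isUnit_C.2 hc.isUnit)]
          exact had.symm.pow
        have h6 : IsCoprime (b ^ 2) (a ^ 3) := by
          rw [key2]
          have := h5.add_mul_left_left 1
          rw [mul_one, add_comm] at this
          exact this
        exact (IsCoprime.pow_iff (by norm_num) (by norm_num)).1 h6
      have h9 := Polynomial.flt_catalan (k := ℂ) (p := 2) (q := 3) (r := 6) (by norm_num)
        (by norm_num) (by norm_num) (by norm_num) (by norm_num) (by norm_num) (by norm_num)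
        hb0 ha0 hd0 hba (u := 1) (v := -1) (w := -c) one_ne_zero (by norm_num)
        (neg_ne_zero.2 hc) (by
          rw [key2, map_one, map_neg, map_neg, map_one]; ring)
      exact ⟨h9.2.1, h9.2.2⟩
  rw [Polynomial.natDegree_eq_zero, Polynomial.natDegree_eq_zero] at hconst
  obtain ⟨⟨a0, ha0⟩, ⟨d0, hd0'⟩⟩ := hconst
  refine ⟨a0 / d0 ^ 2, ?_⟩
  rw [← RatFunc.num_div_denom r, ← ha, ← he, ← hd2, ← ha0, ← hd0', map_div₀, map_pow, map_pow]
  rfl

end

end Pool.Agent.Helper48.QT
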