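import Pool.Agent.Helper48.QT5
import Pool.Agent.Helper48.QT6

set_option autoImplicit false

namespace Pool.Agent.Helper48.QT

open MvPolynomial

noncomputable section

theorem main (n : ℕ) (hn : 2 ≤ n) (ζ : ℂ) (hζ : IsPrimitiveRoot ζ n) :
    ∃ (K : Type) (_ : Field K) (_ : Algebra ℂ K) (f : K →ₐ[ℂ] A n ζ),
      Function.Injective f ∧ Algebra.trdeg ℂ K = 1 ∧ IsEmpty (K ≃ₐ[ℂ] RatFunc ℂ) := by
  have hn0 : 0 < n := by omega
  have hζ0 : ζ ≠ 0 := hζ.ne_zero hn0.ne'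
  obtain ⟨L, M, hcomm, ⟨κ, c, hc, hrel⟩, hL⟩ := exists_LM n hn ζ hζ
  obtain ⟨hdom, h10, _⟩ := exists_phi n hn0 ζ hζ0 hζ.pow_eq_one
  have i1 : Nontrivial (A n ζ) := ⟨1, 0, h10⟩
  have i2 : NoZeroDivisors (A n ζ) := ⟨fun {a b} h => hdom a b h⟩
  have i3 : IsDomain (A n ζ) := NoZeroDivisors.to_isDomain (A n ζ)
  have i4 : Module.Finite F (A n ζ) := finite n ζ hn0 hζ0
  obtain ⟨S, iS, iA, φ, L', M', hφ, hL', hM'⟩ := field_part (F := F) L M hcomm
  have hL'0 : ∀ l : ℂ, L' ≠ algebraMap ℂ S l := by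
    intro l h
    apply hL l
    rw [← hL', h, AlgHom.commutes]
  have hrel' : M' * M' + κ • M' = L' * L' * L' + (c - (1 / 4) * κ ^ 2) • (1 : S) := by
    apply hφ
    simp only [map_add, map_mul, map_smul, hL', hM', map_one]
    exact hrel
  refine ⟨IntermediateField.adjoin ℂ ({L', M'} : Set S), inferInstance, inferInstance,
    φ.comp (IntermediateField.adjoin ℂ ({L', M'} : Set S)).val, ?_,
    trdeg_part L' M' κ _ hL'0 hrel', ⟨fun e => ?_⟩⟩
  · exact hφ.comp Subtype.val_injective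
  · let L1 : IntermediateField.adjoin ℂ ({L', M'} : Set S) :=
      ⟨L', IntermediateField.subset_adjoin _ _ (by simp)⟩
    let M1 : IntermediateField.adjoin ℂ ({L', M'} : Set S) :=
      ⟨M', IntermediateField.subset_adjoin _ _ (by simp)⟩
    have h1 : M1 * M1 + κ • M1 = L1 * L1 * L1 + (c - (1 / 4) * κ ^ 2) • 1 := Subtype.ext hrel'
    rw [Algebra.smul_def, Algebra.smul_def] at h1
    have h2 := congrArg e h1
    simp only [map_add, map_mul, map_one, AlgEquiv.commutes, mul_one] at h2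
    obtain ⟨l, hl⟩ := ratfunc_const (e L1) (e M1 + algebraMap ℂ (RatFunc ℂ) (κ / 2)) c hc (by
      have e1 : algebraMap ℂ (RatFunc ℂ) (c - 1 / 4 * κ ^ 2) = algebraMap ℂ (RatFunc ℂ) c -
          (algebraMap ℂ (RatFunc ℂ) (κ / 2)) ^ 2 := by
        rw [← map_pow, ← map_sub]; congr 1; ring
      have e2 : algebraMap ℂ (RatFunc ℂ) κ = 2 * algebraMap ℂ (RatFunc ℂ) (κ / 2) := by
        have : (2 : RatFunc ℂ) = algebraMap ℂ (RatFunc ℂ) 2 := (map_ofNat _ 2).symm
        rw [this, ← map_mul]; congr 1; ring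
      rw [e1, e2] at h2
      linear_combination h2)
    have h3 : L1 = algebraMap ℂ _ l := by
      apply e.injective
      rw [hl, AlgEquiv.commutes]
    exact hL'0 l (congrArg Subtype.val h3)

end

end Pool.Agent.Helper48.QT
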