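import Mathlib

open Set Metric Filter Topology NNReal

namespace Pool.Agent.Helper48.W

/-- `f` is Lipschitz in a neighbourhood of `p`. -/
def LL {X Y : Type*} [PseudoMetricSpace X] [PseudoMetricSpace Y] (f : X → Y) (p : X) : Prop :=
  ∃ (K : ℝ≥0) (N : Set X), N ∈ 𝓝 p ∧ LipschitzOnWith K f N

section
variable {X Y Z : Type*} [PseudoMetricSpace X] [PseudoMetricSpace Y] [PseudoMetricSpace Z]

theorem LL.continuousAt {f : X → Y} {p : X} (h : LL f p) : ContinuousAt f p := by
  obtain ⟨K, N, hN, hK⟩ := h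
  exact hK.continuousOn.continuousAt hN

theorem LL.congr {f g : X → Y} {p : X} (h : LL f p) (hfg : f =ᶠ[𝓝 p] g) : LL g p := by
  obtain ⟨K, N, hN, hK⟩ := h
  refine ⟨K, N ∩ {x | f x = g x}, inter_mem hN hfg, ?_⟩
  intro x hx y hy
  have hx2 : f x = g x := hx.2
  have hy2 : f y = g y := hy.2
  rw [← hx2, ← hy2]
  exact hK hx.1 hy.1

theorem LL.const (c : Y) (p : X) : LL (fun _ : X => c) p :=
  ⟨0, univ, univ_mem, (LipschitzWith.const c).lipschitzOnWith⟩

theorem LL.of_lipschitzWith {f : X → Y} {K : ℝ≥0} (h : LipschitzWith K f) (p : X) : LL f p :=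
  ⟨K, univ, univ_mem, h.lipschitzOnWith⟩

theorem LL.comp {f : X → Y} {g : Y → Z} {p : X} (hg : LL g (f p)) (hf : LL f p) :
    LL (fun x => g (f x)) p := by
  have hc := hf.continuousAt
  obtain ⟨K, N, hN, hK⟩ := hf
  obtain ⟨L, M, hM, hL⟩ := hg
  refine ⟨L * K, N ∩ f ⁻¹' M, inter_mem hN (hc hM), ?_⟩
  exact hL.comp (hK.mono inter_subset_left) (fun x hx => hx.2)

theorem LL.prodMk {f : X → Y} {g : X → Z} {p : X} (hf : LL f p) (hg : LL g p) :
    LL (fun x => (f x, g x)) p := by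
  obtain ⟨K, N, hN, hK⟩ := hf
  obtain ⟨L, M, hM, hL⟩ := hg
  exact ⟨max K L, N ∩ M, inter_mem hN hM,
    (hK.mono inter_subset_left).prodMk (hL.mono inter_subset_right)⟩

end

theorem LL.of_contDiffAt {E F : Type*} [NormedAddCommGroup E] [NormedSpace ℂ E]
    [NormedAddCommGroup F] [NormedSpace ℂ F] {f : E → F} {p : E} (h : ContDiffAt ℂ 1 f p) :
    LL f p := by
  obtain ⟨K, N, hN, hK⟩ := h.exists_lipschitzOnWith
  exact ⟨K, N, hN, hK⟩

theorem LL.of_contDiffAt_real {E F : Type*} [NormedAddCommGroup E] [NormedSpace ℝ E]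
    [NormedAddCommGroup F] [NormedSpace ℝ F] {f : E → F} {p : E} (h : ContDiffAt ℝ 1 f p) :
    LL f p := by
  obtain ⟨K, N, hN, hK⟩ := h.exists_lipschitzOnWith
  exact ⟨K, N, hN, hK⟩

section
variable {X : Type*} [PseudoMetricSpace X] {E : Type*} [NormedAddCommGroup E]

theorem LL.add {f g : X → E} {p : X} (hf : LL f p) (hg : LL g p) :
    LL (fun x => f x + g x) p := by
  obtain ⟨K, N, hN, hK⟩ := hf
  obtain ⟨L, M, hM, hL⟩ := hg
  exact ⟨K + L, N ∩ M, inter_mem hN hM,
    (hK.mono inter_subset_left).add (hL.mono inter_subset_right)⟩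

theorem LL.neg {f : X → E} {p : X} (hf : LL f p) : LL (fun x => - f x) p := by
  obtain ⟨K, N, hN, hK⟩ := hf
  refine ⟨K, N, hN, ?_⟩
  intro x hx y hy
  rw [edist_neg_neg]
  exact hK hx hy

theorem LL.sub {f g : X → E} {p : X} (hf : LL f p) (hg : LL g p) :
    LL (fun x => f x - g x) p := by
  simpa [sub_eq_add_neg] using hf.add hg.neg

theorem LL.sum {ι : Type*} (s : Finset ι) {f : ι → X → E} {p : X} (h : ∀ i ∈ s, LL (f i) p) :
    LL (fun x => ∑ i ∈ s, f i x) p := by
  classical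
  induction s using Finset.induction_on with
  | empty => simpa using LL.const (0 : E) p
  | insert a s ha ih =>
    simp only [Finset.sum_insert ha]
    exact (h a (by simp)).add (ih fun i hi => h i (by simp [hi]))

theorem LL.smul {𝕜 : Type*} [NormedField 𝕜] [NormedSpace 𝕜 E] {a : X → 𝕜} {f : X → E} {p : X}
    (ha : LL a p) (hf : LL f p) : LL (fun x => a x • f x) p := by
  have hca := ha.continuousAt
  have hcf := hf.continuousAt
  obtain ⟨K, N, hN, hK⟩ := ha
  obtain ⟨L, M, hM, hL⟩ := hf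
  have h1 : ∀ᶠ x in 𝓝 p, ‖a x‖ < ‖a p‖ + 1 :=
    hca.norm.eventually_lt continuousAt_const (by simp)
  have h2 : ∀ᶠ x in 𝓝 p, ‖f x‖ < ‖f p‖ + 1 :=
    hcf.norm.eventually_lt continuousAt_const (by simp)
  refine ⟨K * ⟨‖f p‖ + 1, by positivity⟩ + ⟨‖a p‖ + 1, by positivity⟩ * L,
    (N ∩ M) ∩ ({x | ‖a x‖ < ‖a p‖ + 1} ∩ {x | ‖f x‖ < ‖f p‖ + 1}),
    inter_mem (inter_mem hN hM) (inter_mem h1 h2), ?_⟩
  apply LipschitzOnWith.of_dist_le_mul
  rintro x ⟨⟨hx1, hx2⟩, hx3, hx4⟩ y ⟨⟨hy1, hy2⟩, hy3, hy4⟩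
  have e1 := hK.dist_le_mul x hx1 y hy1
  have e2 := hL.dist_le_mul x hx2 y hy2
  rw [dist_eq_norm] at e1 e2 ⊢
  have e3 : a x • f x - a y • f y = (a x - a y) • f x + a y • (f x - f y) := by
    rw [sub_smul, smul_sub]; abel
  rw [e3]
  have hx4' : ‖f x‖ < ‖f p‖ + 1 := hx4
  have hy3' : ‖a y‖ < ‖a p‖ + 1 := hy3
  calc ‖(a x - a y) • f x + a y • (f x - f y)‖
      ≤ ‖a x - a y‖ * ‖f x‖ + ‖a y‖ * ‖f x - f y‖ := by
        refine (norm_add_le _ _).trans ?_
        rw [norm_smul, norm_smul]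
    _ ≤ (K * dist x y) * (‖f p‖ + 1) + (‖a p‖ + 1) * (L * dist x y) := by
        gcongr
    _ = _ := by
        push_cast
        change _ = (↑K * (‖f p‖ + 1) + (‖a p‖ + 1) * ↑L) * dist x y
        ring

theorem LL.mul {𝕜 : Type*} [NormedField 𝕜] {a b : X → 𝕜} {p : X}
    (ha : LL a p) (hb : LL b p) : LL (fun x => a x * b x) p := by
  simpa [smul_eq_mul] using ha.smul hb

theorem LL.inv {𝕜 : Type*} [RCLike 𝕜] {a : X → 𝕜} {p : X}
    (ha : LL a p) (h0 : a p ≠ 0) : LL (fun x => (a x)⁻¹) p := by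
  have h : LL (fun z : 𝕜 => z⁻¹) (a p) := by
    obtain ⟨K, N, hN, hK⟩ := (contDiffAt_inv 𝕜 (n := 1) h0).exists_lipschitzOnWith
    exact ⟨K, N, hN, hK⟩
  exact h.comp ha

theorem LL.fst {X Y Z : Type*} [PseudoMetricSpace X] [PseudoMetricSpace Y]
    [PseudoMetricSpace Z] {f : X → Y × Z} {p : X} (h : LL f p) : LL (fun x => (f x).1) p :=
  LL.comp (LL.of_lipschitzWith LipschitzWith.prod_fst _) h

theorem LL.snd {X Y Z : Type*} [PseudoMetricSpace X] [PseudoMetricSpace Y]
    [PseudoMetricSpace Z] {f : X → Y × Z} {p : X} (h : LL f p) : LL (fun x => (f x).2) p :=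
  LL.comp (LL.of_lipschitzWith LipschitzWith.prod_snd _) h

end

/-- Gluing of locally Lipschitz selections of a convex-valued map over a compact set. -/
theorem exists_selection {X : Type*} [PseudoMetricSpace X] {E : Type*} [NormedAddCommGroup E]
    [NormedSpace ℝ E] {K : Set X} (hK : IsCompact K) (T : X → Set E) (hT : ∀ x, Convex ℝ (T x))
    (h : ∀ p ∈ K, ∃ W : X → E, LL W p ∧ ∀ᶠ q in 𝓝 p, W q ∈ T q) :
    ∃ W : X → E, ∀ p ∈ K, LL W p ∧ W p ∈ T p := by
  classical
  have h' : ∀ p : K, ∃ (W : X → E) (r : ℝ), 0 < r ∧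
      (∀ q ∈ ball (p : X) (2 * r), LL W q ∧ W q ∈ T q) := by
    intro p
    obtain ⟨W, ⟨L, N, hN, hL⟩, hW⟩ := h p p.2
    obtain ⟨r, hr, hr2⟩ := Metric.mem_nhds_iff.1 (inter_mem hN hW)
    refine ⟨W, r / 2, by positivity, ?_⟩
    intro q hq
    have hq' : q ∈ ball (p : X) r := by simpa [mul_div_cancel₀] using hq
    refine ⟨⟨L, ball (p : X) r, isOpen_ball.mem_nhds hq', hL.mono fun x hx => (hr2 hx).1⟩, ?_⟩
    exact (hr2 hq').2
  choose W r hr hWr using h'
  obtain ⟨t, ht⟩ := hK.elim_nhds_subcover' (fun p hp => ball p (r ⟨p, hp⟩))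
    (fun p hp => ball_mem_nhds p (hr ⟨p, hp⟩))
  let lam : K → X → ℝ := fun i q => max 0 (r i - dist q (i : X))
  have hlam0 : ∀ i q, 0 ≤ lam i q := fun i q => le_max_left _ _
  have hlamLL : ∀ (i : K) (q : X), LL (lam i) q := by
    intro i q
    apply LL.of_lipschitzWith (K := 1)
    apply LipschitzWith.const_max
    have : LipschitzWith 1 (fun q : X => dist q (i : X)) := LipschitzWith.dist_left (i : X)
    apply LipschitzWith.of_dist_le_mul
    intro x y
    have h3 := this.dist_le_mul x y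
    rw [Real.dist_eq] at h3 ⊢
    rw [abs_sub_comm] at h3
    convert h3 using 2
    ring
  have hmulLL : ∀ i q, LL (fun x => lam i x • W i x) q := by
    intro i q
    by_cases hq : q ∈ ball (i : X) (2 * r i)
    · exact (hlamLL i q).smul (hWr i q hq).1
    · refine (LL.const (0 : E) q).congr ?_
      have : ∀ᶠ x in 𝓝 q, r i < dist x (i : X) := by
        apply ContinuousAt.eventually_lt continuousAt_const (by fun_prop)
        have h3 := hr i
        have h4 : ¬ dist q (i : X) < 2 * r i := hq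
        linarith
      filter_upwards [this] with x hx
      have : lam i x = 0 := max_eq_left (by linarith)
      rw [this, zero_smul]
  have hpos : ∀ q ∈ K, 0 < ∑ i ∈ t, lam i q := by
    intro q hq
    obtain ⟨i, hi, hqi⟩ := mem_iUnion₂.1 (ht hq)
    apply Finset.sum_pos' (fun i _ => hlam0 i q)
    refine ⟨i, hi, lt_max_of_lt_right ?_⟩
    have : dist q (i : X) < r i := hqi
    linarith
  refine ⟨fun q => t.centerMass (fun i => lam i q) (fun i => W i q), fun q hq => ⟨?_, ?_⟩⟩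
  · unfold Finset.centerMass
    apply LL.smul
    · refine LL.inv (a := fun q => ∑ i ∈ t, lam i q) ?_ (hpos q hq).ne'
      exact LL.sum (f := fun (i : K) (x : X) => lam i x) t fun i _ => hlamLL i q
    · exact LL.sum (f := fun (i : K) (x : X) => lam i x • W i x) t fun i _ => hmulLL i q
  · have e : t.centerMass (fun i => lam i q) (fun i => W i q) =
        (t.filter fun i => lam i q ≠ 0).centerMass (fun i => lam i q) (fun i => W i q) :=
      (Finset.centerMass_filter_ne_zero (t := t) (w := fun i => lam i q) (fun i => W i q)).symm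
    change t.centerMass (fun i => lam i q) (fun i => W i q) ∈ T q
    rw [e]
    apply (hT q).centerMass_mem
    · intro i _; exact hlam0 i q
    · rw [Finset.sum_filter_ne_zero]
      exact hpos q hq
    · intro i hi
      rw [Finset.mem_filter] at hi
      have h1 : 0 < lam i q := lt_of_le_of_ne (hlam0 i q) (Ne.symm hi.2)
      have h2 : dist q (i : X) < r i := by
        by_contra hcon
        exact hi.2 (max_eq_left (by linarith))
      have h3 := hr i
      exact (hWr i q (by rw [mem_ball]; linarith)).2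

end Pool.Agent.Helper48.W
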