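import Mathlib

open Set Metric Filter Topology NNReal

namespace Pool.Agent.Helper48.W

variable {E : Type*} [NormedAddCommGroup E] [NormedSpace ℝ E]

/-- `α` solves the differential equation `α' = v t α` on `[0, 1]`. -/
def IsSol (v : ℝ → E → E) (α : ℝ → E) : Prop :=
  ∀ t ∈ Icc (0 : ℝ) 1, HasDerivWithinAt α (v t (α t)) (Icc 0 1) t

theorem IsSol.continuousOn {v : ℝ → E → E} {α : ℝ → E} (h : IsSol v α) :
    ContinuousOn α (Icc 0 1) := fun t ht => (h t ht).continuousWithinAt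

theorem IsSol.ici {v : ℝ → E → E} {α : ℝ → E} (h : IsSol v α) (t : ℝ) (ht : t ∈ Ico (0 : ℝ) 1) :
    HasDerivWithinAt α (v t (α t)) (Ici t) t :=
  (h t (Ico_subset_Icc_self ht)).mono_of_mem_nhdsWithin (Icc_mem_nhdsGE_of_mem ht)

theorem IsSol.dist_le {v : ℝ → E → E} {K : ℝ≥0}
    (hv : ∀ t ∈ Icc (0 : ℝ) 1, LipschitzWith K (v t)) {α β : ℝ → E}
    (hα : IsSol v α) (hβ : IsSol v β) :
    dist (α 1) (β 1) ≤ dist (α 0) (β 0) * Real.exp K := by
  have h := dist_le_of_trajectories_ODE_of_mem (v := v) (s := fun _ => univ) (K := K)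
    (f := α) (g := β) (a := 0) (b := 1) (δ := dist (α 0) (β 0))
    (fun t ht => (hv t (Ico_subset_Icc_self ht)).lipschitzOnWith)
    hα.continuousOn hα.ici (fun _ _ => trivial) hβ.continuousOn hβ.ici (fun _ _ => trivial)
    le_rfl 1 (by simp)
  simpa using h

theorem IsSol.eq_one {v : ℝ → E → E} {K : ℝ≥0}
    (hv : ∀ t ∈ Icc (0 : ℝ) 1, LipschitzWith K (v t)) {α β : ℝ → E}
    (hα : IsSol v α) (hβ : IsSol v β) (h0 : α 0 = β 0) : α 1 = β 1 := by
  have h := hα.dist_le hv hβ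
  rw [h0, dist_self, zero_mul] at h
  exact dist_le_zero.1 h

theorem IsSol.rev {v : ℝ → E → E} {α : ℝ → E} (h : IsSol v α) :
    IsSol (fun t x => - v (1 - t) x) (fun t => α (1 - t)) := by
  intro t ht
  have h1 : (1 - t) ∈ Icc (0 : ℝ) 1 := by constructor <;> linarith [ht.1, ht.2]
  have h2 := h (1 - t) h1
  have h3 : HasDerivWithinAt (fun s : ℝ => 1 - s) (-1) (Icc 0 1) t := by
    simpa using (hasDerivWithinAt_id t (Icc (0 : ℝ) 1)).const_sub 1
  have h4 : MapsTo (fun s : ℝ => 1 - s) (Icc 0 1) (Icc 0 1) := by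
    intro s hs; constructor <;> simp [hs.1, hs.2]
  have h5 := h2.scomp t h3 h4
  have h6 : HasDerivWithinAt (fun s => α (1 - s)) ((-1 : ℝ) • v (1 - t) (α (1 - t)))
      (Icc 0 1) t := h5
  rw [neg_one_smul] at h6
  exact h6

theorem exists_sol [CompleteSpace E] {v : ℝ → E → E} {K : ℝ≥0} (hK : 2 * (K : ℝ) ≤ 1)
    (hv : ∀ t ∈ Icc (0 : ℝ) 1, LipschitzWith K (v t))
    (hc : ∀ x, ContinuousOn (fun t => v t x) (Icc 0 1)) (h0 : ∀ t ∈ Icc (0 : ℝ) 1, v t 0 = 0)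
    (x : E) : ∃ α : ℝ → E, α 0 = x ∧ IsSol v α := by
  have hPL : IsPicardLindelof v (tmin := 0) (tmax := 1) ⟨0, by simp⟩ x ‖x‖₊ 0 ‖x‖₊ K := by
    constructor
    · intro t ht; exact (hv t ht).lipschitzOnWith
    · intro y _; exact hc y
    · intro t ht y hy
      have h1 := (hv t ht).dist_le_mul y 0
      rw [h0 t ht, dist_zero_right, dist_zero_right] at h1
      have h2 : ‖y‖ ≤ 2 * ‖x‖ := by
        have : dist y x ≤ ‖x‖ := by simpa using hy
        rw [dist_eq_norm] at this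
        calc ‖y‖ = ‖(y - x) + x‖ := by simp
          _ ≤ ‖y - x‖ + ‖x‖ := norm_add_le _ _
          _ ≤ 2 * ‖x‖ := by linarith
      calc ‖v t y‖ ≤ K * ‖y‖ := h1
        _ ≤ K * (2 * ‖x‖) := by gcongr
        _ = (2 * K) * ‖x‖ := by ring
        _ ≤ 1 * ‖x‖ := by gcongr
        _ = ‖x‖₊ := by simp
    · simp
  obtain ⟨α, hα0, hα⟩ := hPL.exists_eq_forall_mem_Icc_hasDerivWithinAt₀
  exact ⟨α, hα0, hα⟩

theorem exists_flow [CompleteSpace E] {v : ℝ → E → E} {K : ℝ≥0} (hK : 2 * (K : ℝ) ≤ 1)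
    (hv : ∀ t ∈ Icc (0 : ℝ) 1, LipschitzWith K (v t))
    (hc : ∀ x, ContinuousOn (fun t => v t x) (Icc 0 1)) (h0 : ∀ t ∈ Icc (0 : ℝ) 1, v t 0 = 0) :
    ∃ Φ : E ≃ₜ E, ∀ x, ∃ α : ℝ → E, IsSol v α ∧ α 0 = x ∧ α 1 = Φ x := by
  choose α hα0 hα using exists_sol hK hv hc h0
  let w : ℝ → E → E := fun t x => - v (1 - t) x
  have hmem : ∀ t ∈ Icc (0 : ℝ) 1, (1 - t) ∈ Icc (0 : ℝ) 1 := by
    intro t ht; constructor <;> linarith [ht.1, ht.2]
  have hw : ∀ t ∈ Icc (0 : ℝ) 1, LipschitzWith K (w t) := by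
    intro t ht x y
    simp only [w]
    rw [edist_neg_neg]
    exact hv (1 - t) (hmem t ht) x y
  have hwc : ∀ x, ContinuousOn (fun t => w t x) (Icc 0 1) := by
    intro x
    apply ContinuousOn.neg
    exact (hc x).comp (by fun_prop) hmem
  have hw0 : ∀ t ∈ Icc (0 : ℝ) 1, w t 0 = 0 := by
    intro t ht
    simp [w, h0 (1 - t) (hmem t ht)]
  choose β hβ0 hβ using exists_sol hK hw hwc hw0
  have hw2 : (fun (t : ℝ) (x : E) => - w (1 - t) x) = v := by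
    funext t x; simp [w]
  have hcont : ∀ (u : ℝ → E → E) (γ : E → ℝ → E), (∀ t ∈ Icc (0 : ℝ) 1, LipschitzWith K (u t)) →
      (∀ x, γ x 0 = x) → (∀ x, IsSol u (γ x)) → Continuous fun x => γ x 1 := by
    intro u γ hu hγ0 hγ
    have : LipschitzWith (⟨Real.exp K, (Real.exp_pos _).le⟩ : ℝ≥0) fun x => γ x 1 := by
      apply LipschitzWith.of_dist_le_mul
      intro x y
      have h := (hγ x).dist_le hu (hγ y)
      rw [hγ0, hγ0] at h
      rw [mul_comm] at h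
      exact h
    exact this.continuous
  refine ⟨⟨⟨fun x => α x 1, fun y => β y 1, ?_, ?_⟩, hcont v α hv hα0 hα, hcont w β hw hβ0 hβ⟩,
    fun x => ⟨α x, hα x, hα0 x, rfl⟩⟩
  · intro x
    have h1 := (hβ (α x 1)).eq_one hw ((hα x).rev) (by simp [hβ0])
    change β (α x 1) 1 = x
    rw [h1]; simp [hα0]
  · intro y
    have h1 : IsSol v fun t => β y (1 - t) := by
      have := (hβ y).rev
      rwa [hw2] at this
    have h2 := (hα (β y 1)).eq_one hv h1 (by simp [hα0])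
    change α (β y 1) 1 = y
    rw [h2]; simp [hβ0]

theorem flow_equivariant {v : ℝ → E → E} {K : ℝ≥0}
    (hv : ∀ t ∈ Icc (0 : ℝ) 1, LipschitzWith K (v t)) {Φ : E → E}
    (hΦ : ∀ x, ∃ α : ℝ → E, IsSol v α ∧ α 0 = x ∧ α 1 = Φ x) (L : E →L[ℝ] E)
    (hL : ∀ t ∈ Icc (0 : ℝ) 1, ∀ x, v t (L x) = L (v t x)) (x : E) : Φ (L x) = L (Φ x) := by
  obtain ⟨α, hα, hα0, hα1⟩ := hΦ x
  obtain ⟨β, hβ, hβ0, hβ1⟩ := hΦ (L x)
  have h : IsSol v fun t => L (α t) := by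
    intro t ht
    have h1 := (hα t ht)
    have h2 := L.hasFDerivAt.comp_hasDerivWithinAt t h1
    rw [hL t ht]
    exact h2
  have h3 := hβ.eq_one hv h (by rw [hβ0, hα0])
  rw [← hβ1, ← hα1, h3]

end Pool.Agent.Helper48.W
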