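import Mathlib
import Pool.Agent.Helper48.W1
import Pool.Agent.Helper48.W2

open Set Metric Filter Topology NNReal

namespace Pool.Agent.Helper48.W

variable {E : Type*} [NormedAddCommGroup E] [NormedSpace ℂ E]

/-- the vectors `v` such that `(1, v)` is in the kernel of `A p` -/
def Tan (A : ℂ × E → (ℂ × E →L[ℂ] ℂ)) (p : ℂ × E) : Set E := {v | A p (1, v) = 0}

theorem convex_Tan (A : ℂ × E → (ℂ × E →L[ℂ] ℂ)) (p : ℂ × E) : Convex ℝ (Tan A p) := by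
  intro v hv w hw a b _ _ hab
  have hv' : A p (1, v) = 0 := hv
  have hw' : A p (1, w) = 0 := hw
  change A p (1, a • v + b • w) = 0
  have : ((1 : ℂ), a • v + b • w) = (a : ℂ) • ((1 : ℂ), v) + (b : ℂ) • ((1 : ℂ), w) := by
    ext
    · simp only [Prod.fst_add, Prod.smul_fst, smul_eq_mul, mul_one]
      exact_mod_cast hab.symm
    · simp
  rw [this, map_add, map_smul, map_smul, hv', hw']
  simp

/-- the local hypothesis -/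
def LocSel (A : ℂ × E → (ℂ × E →L[ℂ] ℂ)) (p : ℂ × E) : Prop :=
  ∃ W : ℂ × E → E, LL W p ∧ ∀ᶠ q in 𝓝 p, W q ∈ Tan A q

theorem deriv_homog {f : ℂ × E → ℂ} {A : ℂ × E → (ℂ × E →L[ℂ] ℂ)}
    (hA : ∀ p, HasFDerivAt f (A p) p) {d : ℕ}
    (hom : ∀ (γ r : ℂ) (x : E), f (γ, r • x) = r ^ d * f (γ, x)) (γ r : ℂ) (x v : E) (s : ℂ) :
    A (γ, r • x) (s, r • v) = r ^ d * A (γ, x) (s, v) := by
  let L : ℂ × E →L[ℂ] ℂ × E :=
    (ContinuousLinearMap.fst ℂ ℂ E).prod (r • ContinuousLinearMap.snd ℂ ℂ E)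
  have hL : ∀ q : ℂ × E, L q = (q.1, r • q.2) := fun q => rfl
  have h1 : HasFDerivAt (fun q => f (L q)) ((A (L (γ, x))).comp L) (γ, x) :=
    (hA (L (γ, x))).comp (γ, x) L.hasFDerivAt
  have h2 : HasFDerivAt (fun q => f (L q)) (r ^ d • A (γ, x)) (γ, x) := by
    have h3 : (fun q => f (L q)) = fun q => r ^ d * f q := by
      funext q
      rw [hL, hom]
    rw [h3]
    exact (hA (γ, x)).const_mul (r ^ d)
  have h4 := h1.unique h2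
  have h5 := congrArg (fun B : ℂ × E →L[ℂ] ℂ => B (s, v)) h4
  simpa [hL] using h5

theorem tan_homog {f : ℂ × E → ℂ} {A : ℂ × E → (ℂ × E →L[ℂ] ℂ)}
    (hA : ∀ p, HasFDerivAt f (A p) p) {d : ℕ}
    (hom : ∀ (γ r : ℂ) (x : E), f (γ, r • x) = r ^ d * f (γ, x)) {γ r : ℂ} {x v : E}
    (h : v ∈ Tan A (γ, x)) : r • v ∈ Tan A (γ, r • x) := by
  change A (γ, r • x) (1, r • v) = 0
  rw [deriv_homog hA hom]
  have h' : A (γ, x) (1, v) = 0 := h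
  rw [h', mul_zero]

theorem zero_tan {f : ℂ × E → ℂ} {A : ℂ × E → (ℂ × E →L[ℂ] ℂ)}
    (hA : ∀ p, HasFDerivAt f (A p) p) {d : ℕ} (hd : d ≠ 0)
    (hom : ∀ (γ r : ℂ) (x : E), f (γ, r • x) = r ^ d * f (γ, x)) (γ : ℂ) :
    (0 : E) ∈ Tan A (γ, 0) := by
  have h := deriv_homog hA hom γ 0 0 0 1
  rw [zero_pow hd, zero_mul, smul_zero] at h
  exact h

/-- A global homogeneous Lipschitz field. -/
structure Field (A : ℂ × E → (ℂ × E →L[ℂ] ℂ)) (d : ℕ) (γ₀ : ℂ) (ρ : ℝ) (V : ℂ × E → E)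
    (C : ℝ≥0) : Prop where
  lip : ∀ γ ∈ closedBall γ₀ ρ, LipschitzWith C fun x => V (γ, x)
  lip' : ∀ γ ∈ closedBall γ₀ ρ, ∀ γ' ∈ closedBall γ₀ ρ, ∀ x,
    ‖V (γ, x) - V (γ', x)‖ ≤ C * ‖x‖ * ‖γ - γ'‖
  zero : ∀ γ ∈ closedBall γ₀ ρ, V (γ, 0) = 0
  tan : ∀ γ ∈ closedBall γ₀ ρ, ∀ x, V (γ, x) ∈ Tan A (γ, x)
  equiv : ∀ γ ∈ closedBall γ₀ ρ, ∀ (g : rootsOfUnity d ℂ) (x : E),
    V (γ, ((g : ℂˣ) : ℂ) • x) = ((g : ℂˣ) : ℂ) • V (γ, x)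

theorem exists_field_aux [FiniteDimensional ℂ E] {f : ℂ × E → ℂ}
    {A : ℂ × E → (ℂ × E →L[ℂ] ℂ)}
    (hA : ∀ p, HasFDerivAt f (A p) p) {d : ℕ} (hd : d ≠ 0)
    (hom : ∀ (γ r : ℂ) (x : E), f (γ, r • x) = r ^ d * f (γ, x)) (γ₀ : ℂ) (ρ : ℝ)
    (hloc : ∀ γ ∈ closedBall γ₀ ρ, ∀ x : E, x ≠ 0 → LocSel A (γ, x)) :
    ∃ (V : ℂ × E → E) (C : ℝ≥0),
      (∀ γ ∈ closedBall γ₀ ρ, LipschitzWith C fun x => V (γ, x)) ∧
      (∀ γ ∈ closedBall γ₀ ρ, ∀ γ' ∈ closedBall γ₀ ρ, ∀ x,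
        ‖V (γ, x) - V (γ', x)‖ ≤ C * ‖x‖ * ‖γ - γ'‖) ∧
      (∀ γ ∈ closedBall γ₀ ρ, V (γ, 0) = 0) ∧
      (∀ γ ∈ closedBall γ₀ ρ, ∀ x, V (γ, x) ∈ Tan A (γ, x)) := by
  have : ProperSpace E := FiniteDimensional.proper ℂ E
  let K : Set (ℂ × E) := closedBall γ₀ ρ ×ˢ sphere (0 : E) 1
  have hK : IsCompact K := (isCompact_closedBall γ₀ ρ).prod (isCompact_sphere 0 1)
  have hne : ∀ x ∈ sphere (0 : E) 1, x ≠ 0 := by
    intro x hx h0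
    rw [h0] at hx
    simp at hx
  obtain ⟨W, hW⟩ := exists_selection hK (Tan A) (convex_Tan A) (by
    rintro ⟨γ, x⟩ ⟨hγ, hx⟩
    exact hloc γ hγ x (hne x hx))
  have hWlip : LocallyLipschitzOn K W := by
    intro p hp
    obtain ⟨C, N, hN, hC⟩ := (hW p hp).1
    exact ⟨C, N, mem_nhdsWithin_of_mem_nhds hN, hC⟩
  obtain ⟨C₀, hC₀⟩ := hWlip.exists_lipschitzOnWith_of_compact hK
  obtain ⟨B, hB⟩ := hK.exists_bound_of_continuousOn hC₀.continuousOn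
  have hB' : ∀ p ∈ K, ‖W p‖ ≤ max B 0 := fun p hp => (hB p hp).trans (le_max_left _ _)
  let V : ℂ × E → E := fun p => ((‖p.2‖ : ℝ) : ℂ) • W (p.1, (((‖p.2‖ : ℝ) : ℂ))⁻¹ • p.2)
  have hVdef : ∀ γ x, V (γ, x) = ((‖x‖ : ℝ) : ℂ) • W (γ, (((‖x‖ : ℝ) : ℂ))⁻¹ • x) :=
    fun γ x => rfl
  have hnorm : ∀ x : E, x ≠ 0 → (((‖x‖ : ℝ) : ℂ))⁻¹ • x ∈ sphere (0 : E) 1 := by
    intro x hx
    rw [mem_sphere_zero_iff_norm, norm_smul, norm_inv, Complex.norm_real, norm_norm,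
      inv_mul_cancel₀ (norm_ne_zero_iff.2 hx)]
  have hmem : ∀ γ ∈ closedBall γ₀ ρ, ∀ x : E, x ≠ 0 → (γ, (((‖x‖ : ℝ) : ℂ))⁻¹ • x) ∈ K :=
    fun γ hγ x hx => ⟨hγ, hnorm x hx⟩
  have hV0 : ∀ γ, V (γ, 0) = 0 := by intro γ; simp [hVdef]
  have hVn : ∀ γ ∈ closedBall γ₀ ρ, ∀ x : E, ‖V (γ, x)‖ ≤ max B 0 * ‖x‖ := by
    intro γ hγ x
    by_cases hx : x = 0
    · rw [hx, hV0]; simp
    · rw [hVdef, norm_smul, Complex.norm_real, norm_norm, mul_comm]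
      exact mul_le_mul_of_nonneg_right (hB' _ (hmem γ hγ x hx)) (norm_nonneg _)
  refine ⟨V, NNReal.mk (max B 0) (le_max_right _ _) + 2 * C₀, ?_, ?_, fun γ _ => hV0 γ, ?_⟩
  · intro γ hγ
    apply LipschitzWith.of_dist_le_mul
    intro x y
    rw [dist_eq_norm, dist_eq_norm]
    change _ ≤ (max B 0 + 2 * (C₀ : ℝ)) * ‖x - y‖
    by_cases hx : x = 0
    · rw [hx, hV0, zero_sub, zero_sub, norm_neg, norm_neg]
      refine (hVn γ hγ y).trans ?_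
      have : 0 ≤ (C₀ : ℝ) * ‖y‖ := by positivity
      nlinarith
    by_cases hy : y = 0
    · rw [hy, hV0, sub_zero, sub_zero]
      refine (hVn γ hγ x).trans ?_
      have : 0 ≤ (C₀ : ℝ) * ‖x‖ := by positivity
      nlinarith
    rw [hVdef, hVdef]
    set ξ : E := (((‖x‖ : ℝ) : ℂ))⁻¹ • x with hξ
    set η : E := (((‖y‖ : ℝ) : ℂ))⁻¹ • y with hη
    have e1 : ((‖x‖ : ℝ) : ℂ) • W (γ, ξ) - ((‖y‖ : ℝ) : ℂ) • W (γ, η) =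
        (((‖x‖ : ℝ) : ℂ) - ((‖y‖ : ℝ) : ℂ)) • W (γ, ξ) +
          ((‖y‖ : ℝ) : ℂ) • (W (γ, ξ) - W (γ, η)) := by
      rw [sub_smul, smul_sub]; abel
    have e2 : ‖W (γ, ξ) - W (γ, η)‖ ≤ C₀ * ‖ξ - η‖ := by
      have := hC₀.dist_le_mul (γ, ξ) (hmem γ hγ x hx) (γ, η) (hmem γ hγ y hy)
      rw [dist_eq_norm] at this
      refine this.trans (le_of_eq ?_)
      rw [Prod.dist_eq, dist_self, dist_eq_norm]
      simp
    have e3 : ‖y‖ * ‖ξ - η‖ ≤ 2 * ‖x - y‖ := by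
      have hx' : ((‖x‖ : ℝ) : ℂ) ≠ 0 := by
        exact_mod_cast (norm_ne_zero_iff.2 hx)
      have hy' : ((‖y‖ : ℝ) : ℂ) ≠ 0 := by
        exact_mod_cast (norm_ne_zero_iff.2 hy)
      have e4 : ((‖y‖ : ℝ) : ℂ) • (ξ - η) =
          (((‖y‖ : ℝ) : ℂ) - ((‖x‖ : ℝ) : ℂ)) • ξ + (x - y) := by
        rw [smul_sub, sub_smul, hξ, hη, smul_smul, smul_smul, smul_smul,
          mul_inv_cancel₀ hx', mul_inv_cancel₀ hy', one_smul, one_smul]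
        abel
      have e5 : ‖((‖y‖ : ℝ) : ℂ) • (ξ - η)‖ = ‖y‖ * ‖ξ - η‖ := by
        rw [norm_smul, Complex.norm_real, norm_norm]
      rw [← e5, e4]
      refine (norm_add_le _ _).trans ?_
      have e6 : ‖(((‖y‖ : ℝ) : ℂ) - ((‖x‖ : ℝ) : ℂ)) • ξ‖ ≤ ‖x - y‖ := by
        rw [norm_smul]
        have : ‖ξ‖ = 1 := by simpa using hnorm x hx
        rw [this, mul_one, ← Complex.ofReal_sub, Complex.norm_real, Real.norm_eq_abs]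
        rw [abs_sub_comm]
        exact abs_norm_sub_norm_le x y
      linarith
    have e7 : ‖(((‖x‖ : ℝ) : ℂ) - ((‖y‖ : ℝ) : ℂ)) • W (γ, ξ)‖ ≤ ‖x - y‖ * max B 0 := by
      rw [norm_smul, ← Complex.ofReal_sub, Complex.norm_real, Real.norm_eq_abs]
      exact mul_le_mul (abs_norm_sub_norm_le x y) (hB' _ (hmem γ hγ x hx)) (norm_nonneg _)
        (norm_nonneg _)
    rw [e1]
    refine (norm_add_le _ _).trans ?_
    rw [norm_smul ((‖y‖ : ℝ) : ℂ), Complex.norm_real, norm_norm]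
    have e8 : ‖y‖ * ‖W (γ, ξ) - W (γ, η)‖ ≤ C₀ * (2 * ‖x - y‖) := by
      calc ‖y‖ * ‖W (γ, ξ) - W (γ, η)‖ ≤ ‖y‖ * (C₀ * ‖ξ - η‖) := by gcongr
        _ = C₀ * (‖y‖ * ‖ξ - η‖) := by ring
        _ ≤ _ := by gcongr
    calc _ ≤ ‖x - y‖ * max B 0 + C₀ * (2 * ‖x - y‖) := add_le_add e7 e8
      _ = _ := by ring
  · intro γ hγ γ' hγ' x
    change _ ≤ (max B 0 + 2 * (C₀ : ℝ)) * ‖x‖ * ‖γ - γ'‖
    by_cases hx : x = 0
    · rw [hx, hV0, hV0]; simp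
    rw [hVdef, hVdef, ← smul_sub, norm_smul, Complex.norm_real, norm_norm]
    have e2 := hC₀.dist_le_mul _ (hmem γ hγ x hx) _ (hmem γ' hγ' x hx)
    rw [dist_eq_norm, Prod.dist_eq, dist_self, dist_eq_norm] at e2
    simp only [norm_nonneg, sup_of_le_left] at e2
    have h0 : (0 : ℝ) ≤ max B 0 := le_max_right _ _
    have h1 : (0 : ℝ) ≤ C₀ := C₀.2
    calc ‖x‖ * ‖W (γ, (((‖x‖ : ℝ) : ℂ))⁻¹ • x) - W (γ', (((‖x‖ : ℝ) : ℂ))⁻¹ • x)‖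
        ≤ ‖x‖ * (C₀ * ‖γ - γ'‖) := by gcongr
      _ = C₀ * ‖x‖ * ‖γ - γ'‖ := by ring
      _ ≤ _ := by gcongr; linarith
  · intro γ hγ x
    by_cases hx : x = 0
    · rw [hx, hV0]; exact zero_tan hA hd hom γ
    · have h1 := (hW _ (hmem γ hγ x hx)).2
      have h2 := tan_homog hA hom (r := ((‖x‖ : ℝ) : ℂ)) h1
      rw [smul_smul, mul_inv_cancel₀ (by exact_mod_cast (norm_ne_zero_iff.2 hx)), one_smul] at h2
      rw [hVdef]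
      exact h2

end Pool.Agent.Helper48.W
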