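import Mathlib
import Pool.Agent.Helper48.W3

open Set Metric Filter Topology NNReal

namespace Pool.Agent.Helper48.W

variable {E : Type*} [NormedAddCommGroup E] [NormedSpace ℂ E]

theorem norm_root {d : ℕ} [NeZero d] (g : rootsOfUnity d ℂ) : ‖((g : ℂˣ) : ℂ)‖ = 1 :=
  Complex.norm_eq_one_of_mem_rootsOfUnity g.2

theorem pow_root {d : ℕ} (g : rootsOfUnity d ℂ) : ((g : ℂˣ) : ℂ) ^ d = 1 := by
  have := g.2
  rw [mem_rootsOfUnity] at this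
  rw [← Units.val_pow_eq_pow_val, this, Units.val_one]

theorem exists_field [FiniteDimensional ℂ E] {f : ℂ × E → ℂ}
    {A : ℂ × E → (ℂ × E →L[ℂ] ℂ)}
    (hA : ∀ p, HasFDerivAt f (A p) p) {d : ℕ} (hd : d ≠ 0)
    (hom : ∀ (γ r : ℂ) (x : E), f (γ, r • x) = r ^ d * f (γ, x)) (γ₀ : ℂ) (ρ : ℝ)
    (hloc : ∀ γ ∈ closedBall γ₀ ρ, ∀ x : E, x ≠ 0 → LocSel A (γ, x)) :
    ∃ (V : ℂ × E → E) (C : ℝ≥0), Field A d γ₀ ρ V C := by
  have : NeZero d := ⟨hd⟩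
  obtain ⟨V, C, h1, h2, h3, h4⟩ := exists_field_aux hA hd hom γ₀ ρ hloc
  let _ : Fintype (rootsOfUnity d ℂ) := Fintype.ofFinite _
  let N : ℝ := Fintype.card (rootsOfUnity d ℂ)
  have hN : 0 < N := by
    have : 0 < Fintype.card (rootsOfUnity d ℂ) := Fintype.card_pos
    simp only [N]
    exact_mod_cast this
  let U : ℂ × E → E := fun p =>
    (N : ℂ)⁻¹ • ∑ g : rootsOfUnity d ℂ, (((g : ℂˣ) : ℂ))⁻¹ • V (p.1, ((g : ℂˣ) : ℂ) • p.2)
  have hU : ∀ γ x, U (γ, x) =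
    (N : ℂ)⁻¹ • ∑ g : rootsOfUnity d ℂ, (((g : ℂˣ) : ℂ))⁻¹ • V (γ, ((g : ℂˣ) : ℂ) • x) := fun _ _ => rfl
  have hg0 : ∀ g : rootsOfUnity d ℂ, ((g : ℂˣ) : ℂ) ≠ 0 := fun g => (g : ℂˣ).ne_zero
  refine ⟨U, C, ⟨?_, ?_, ?_, ?_, ?_⟩⟩
  · intro γ hγ
    apply LipschitzWith.of_dist_le_mul
    intro x y
    rw [dist_eq_norm, dist_eq_norm, hU, hU, ← smul_sub, ← Finset.sum_sub_distrib, norm_smul]
    have e1 : ‖∑ g : rootsOfUnity d ℂ, ((((g : ℂˣ) : ℂ))⁻¹ • V (γ, ((g : ℂˣ) : ℂ) • x) -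
        (((g : ℂˣ) : ℂ))⁻¹ • V (γ, ((g : ℂˣ) : ℂ) • y))‖ ≤ ∑ _g : rootsOfUnity d ℂ, C * ‖x - y‖ := by
      refine (norm_sum_le _ _).trans (Finset.sum_le_sum fun g _ => ?_)
      rw [← smul_sub, norm_smul, norm_inv, norm_root, inv_one, one_mul, ← dist_eq_norm]
      refine ((h1 γ hγ).dist_le_mul _ _).trans (le_of_eq ?_)
      rw [dist_eq_norm, ← smul_sub, norm_smul, norm_root, one_mul]
    rw [Finset.sum_const, Finset.card_univ, nsmul_eq_mul] at e1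
    have e2 : ‖((N : ℂ))⁻¹‖ = N⁻¹ := by
      rw [norm_inv, Complex.norm_real, Real.norm_eq_abs, abs_of_pos hN]
    rw [e2]
    calc N⁻¹ * _ ≤ N⁻¹ * (N * (C * ‖x - y‖)) := by gcongr
      _ = _ := by field_simp
  · intro γ hγ γ' hγ' x
    rw [hU, hU, ← smul_sub, ← Finset.sum_sub_distrib, norm_smul]
    have e1 : ‖∑ g : rootsOfUnity d ℂ, ((((g : ℂˣ) : ℂ))⁻¹ • V (γ, ((g : ℂˣ) : ℂ) • x) -
        (((g : ℂˣ) : ℂ))⁻¹ • V (γ', ((g : ℂˣ) : ℂ) • x))‖ ≤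
          ∑ _g : rootsOfUnity d ℂ, C * ‖x‖ * ‖γ - γ'‖ := by
      refine (norm_sum_le _ _).trans (Finset.sum_le_sum fun g _ => ?_)
      rw [← smul_sub, norm_smul, norm_inv, norm_root, inv_one, one_mul]
      refine (h2 γ hγ γ' hγ' _).trans (le_of_eq ?_)
      rw [norm_smul, norm_root, one_mul]
    rw [Finset.sum_const, Finset.card_univ, nsmul_eq_mul] at e1
    have e2 : ‖((N : ℂ))⁻¹‖ = N⁻¹ := by
      rw [norm_inv, Complex.norm_real, Real.norm_eq_abs, abs_of_pos hN]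
    rw [e2]
    calc N⁻¹ * _ ≤ N⁻¹ * (N * (C * ‖x‖ * ‖γ - γ'‖)) := by gcongr
      _ = _ := by field_simp
  · intro γ hγ
    rw [hU]
    simp [h3 γ hγ]
  · intro γ hγ x
    have e1 : ∀ g : rootsOfUnity d ℂ, A (γ, x) (1, (((g : ℂˣ) : ℂ))⁻¹ • V (γ, ((g : ℂˣ) : ℂ) • x)) = 0 := by
      intro g
      have e2 := deriv_homog hA hom γ ((g : ℂˣ) : ℂ) x
        ((((g : ℂˣ) : ℂ))⁻¹ • V (γ, ((g : ℂˣ) : ℂ) • x)) 1
      rw [smul_smul, mul_inv_cancel₀ (hg0 g), one_smul, pow_root, one_mul] at e2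
      rw [← e2]
      exact h4 γ hγ _
    change A (γ, x) (1, U (γ, x)) = 0
    have e3 : ((1 : ℂ), U (γ, x)) =
        (N : ℂ)⁻¹ • ∑ g : rootsOfUnity d ℂ, ((1 : ℂ), (((g : ℂˣ) : ℂ))⁻¹ • V (γ, ((g : ℂˣ) : ℂ) • x)) := by
      rw [Prod.ext_iff]
      constructor
      · rw [Prod.smul_fst, Prod.fst_sum]
        simp only [Finset.sum_const, Finset.card_univ, nsmul_eq_mul, mul_one, smul_eq_mul]
        have : (N : ℂ) = (Fintype.card (rootsOfUnity d ℂ) : ℂ) := by simp [N]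
        rw [this, inv_mul_cancel₀]
        rw [← this]
        exact_mod_cast hN.ne'
      · rw [Prod.smul_snd, Prod.snd_sum]
    rw [e3, map_smul, map_sum, Finset.sum_eq_zero fun g _ => e1 g, smul_zero]
  · intro γ hγ h x
    rw [hU, hU]
    rw [smul_comm ((h : ℂˣ) : ℂ)]
    congr 1
    rw [Finset.smul_sum]
    have hbij := Equiv.sum_comp (Equiv.mulRight h)
      (fun g : rootsOfUnity d ℂ => ((h : ℂˣ) : ℂ) • (((g : ℂˣ) : ℂ))⁻¹ • V (γ, ((g : ℂˣ) : ℂ) • x))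
    rw [← hbij]
    refine Finset.sum_congr rfl fun g _ => ?_
    have e1 : (((Equiv.mulRight h g : rootsOfUnity d ℂ) : ℂˣ) : ℂ) = ((g : ℂˣ) : ℂ) * ((h : ℂˣ) : ℂ) := by
      simp
    rw [e1, smul_smul, smul_smul]
    congr 1
    rw [mul_inv]
    have := hg0 h
    field_simp

/-- `a` and `b` are related if there is a homeomorphism of `E` which carries `f a` to `f b` and
commutes with the multiplication by the `d`-th roots of unity. -/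
def Rel (f : ℂ × E → ℂ) (d : ℕ) (a b : ℂ) : Prop :=
  ∃ Φ : E ≃ₜ E, (∀ x, f (b, Φ x) = f (a, x)) ∧
    ∀ (g : rootsOfUnity d ℂ) (x : E), Φ (((g : ℂˣ) : ℂ) • x) = ((g : ℂˣ) : ℂ) • Φ x

theorem Rel.symm {f : ℂ × E → ℂ} {d : ℕ} {a b : ℂ} (h : Rel f d a b) : Rel f d b a := by
  obtain ⟨Φ, h1, h2⟩ := h
  refine ⟨Φ.symm, fun x => ?_, fun g x => ?_⟩
  · have := h1 (Φ.symm x)
    rw [Φ.apply_symm_apply] at this
    exact this.symm
  · rw [Homeomorph.symm_apply_eq, h2, Φ.apply_symm_apply]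

theorem Rel.trans {f : ℂ × E → ℂ} {d : ℕ} {a b c : ℂ} (h : Rel f d a b) (h' : Rel f d b c) :
    Rel f d a c := by
  obtain ⟨Φ, h1, h2⟩ := h
  obtain ⟨Ψ, h3, h4⟩ := h'
  refine ⟨Φ.trans Ψ, fun x => ?_, fun g x => ?_⟩
  · rw [Homeomorph.trans_apply, h3, h1]
  · rw [Homeomorph.trans_apply, h2, h4, Homeomorph.trans_apply]

theorem rel_of_field [FiniteDimensional ℂ E] {f : ℂ × E → ℂ}
    {A : ℂ × E → (ℂ × E →L[ℂ] ℂ)}
    (hA : ∀ p, HasFDerivAt f (A p) p) {d : ℕ} {γ₀ : ℂ} {ρ : ℝ}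
    {V : ℂ × E → E} {C : ℝ≥0} (hV : Field A d γ₀ ρ V C) (γ₁ : ℂ)
    (h1 : ‖γ₁ - γ₀‖ ≤ ρ) (h2 : 2 * (‖γ₁ - γ₀‖ * C) ≤ 1) : Rel f d γ₀ γ₁ := by
  have : CompleteSpace E := FiniteDimensional.complete ℂ E
  set δ : ℂ := γ₁ - γ₀ with hδ
  let v : ℝ → E → E := fun t x => δ • V (γ₀ + t * δ, x)
  have hmem : ∀ t ∈ Icc (0 : ℝ) 1, γ₀ + t * δ ∈ closedBall γ₀ ρ := by
    intro t ht
    rw [mem_closedBall, dist_eq_norm, add_sub_cancel_left, norm_mul, Complex.norm_real,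
      Real.norm_eq_abs, abs_of_nonneg ht.1]
    calc t * ‖δ‖ ≤ 1 * ‖δ‖ := by gcongr; exact ht.2
      _ ≤ ρ := by rw [one_mul]; exact h1
  have hlip : ∀ t ∈ Icc (0 : ℝ) 1, LipschitzWith (‖δ‖₊ * C) (v t) := by
    intro t ht
    apply LipschitzWith.of_dist_le_mul
    intro x y
    have h3 := (hV.lip _ (hmem t ht)).dist_le_mul x y
    change dist (δ • V (γ₀ + t * δ, x)) (δ • V (γ₀ + t * δ, y)) ≤ _
    rw [dist_eq_norm, ← smul_sub, norm_smul]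
    rw [dist_eq_norm] at h3
    push_cast
    rw [mul_assoc]
    exact mul_le_mul_of_nonneg_left h3 (norm_nonneg δ)
  have hK : 2 * ((‖δ‖₊ * C : ℝ≥0) : ℝ) ≤ 1 := by
    push_cast
    exact h2
  have hc : ∀ x, ContinuousOn (fun t => v t x) (Icc 0 1) := by
    intro x
    apply ContinuousOn.const_smul
    have h3 : ContinuousOn (fun γ => V (γ, x)) (closedBall γ₀ ρ) := by
      have : LipschitzOnWith (C * ‖x‖₊) (fun γ => V (γ, x)) (closedBall γ₀ ρ) := by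
        apply LipschitzOnWith.of_dist_le_mul
        intro a ha b hb
        rw [dist_eq_norm, dist_eq_norm]
        push_cast
        exact hV.lip' a ha b hb x
      exact this.continuousOn
    exact h3.comp (by fun_prop) hmem
  have h0 : ∀ t ∈ Icc (0 : ℝ) 1, v t 0 = 0 := by
    intro t ht
    simp only [v]
    rw [hV.zero _ (hmem t ht), smul_zero]
  obtain ⟨Φ, hΦ⟩ := exists_flow hK hlip hc h0
  refine ⟨Φ, fun x => ?_, fun g x => ?_⟩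
  · obtain ⟨α, hα, hα0, hα1⟩ := hΦ x
    let u : ℝ → ℂ := fun t => f (γ₀ + t * δ, α t)
    have hu : ∀ t ∈ Icc (0 : ℝ) 1, HasDerivWithinAt u 0 (Icc 0 1) t := by
      intro t ht
      have e1 : HasDerivWithinAt (fun t : ℝ => (γ₀ + (t : ℂ) * δ, α t))
          (δ, v t (α t)) (Icc 0 1) t := by
        apply HasDerivWithinAt.prodMk
        · have : HasDerivWithinAt (fun t : ℝ => (t : ℂ) * δ) (1 * δ) (Icc 0 1) t :=
            (Complex.ofRealCLM.hasDerivWithinAt (s := Icc 0 1) (x := t)).mul_const δ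
          rw [one_mul] at this
          exact this.const_add γ₀
        · exact hα t ht
      have e2 := ((hA (γ₀ + (t : ℂ) * δ, α t)).restrictScalars ℝ).comp_hasDerivWithinAt t e1
      have e3 : (A (γ₀ + (t : ℂ) * δ, α t)) (δ, v t (α t)) = 0 := by
        have e4 : (δ, v t (α t)) = δ • ((1 : ℂ), V (γ₀ + (t : ℂ) * δ, α t)) := by
          ext <;> simp [v]
        rw [e4, map_smul]
        have e5 : A (γ₀ + (t : ℂ) * δ, α t) (1, V (γ₀ + (t : ℂ) * δ, α t)) = 0 :=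
          hV.tan _ (hmem t ht) _
        rw [e5, smul_zero]
      have e6 : ((A (γ₀ + (t : ℂ) * δ, α t)).restrictScalars ℝ) (δ, v t (α t)) = 0 := e3
      rw [e6] at e2
      exact e2
    have h3 := constant_of_has_deriv_right_zero (f := u) (a := 0) (b := 1)
      (fun t ht => (hu t ht).continuousWithinAt)
      (fun t ht => (hu t (Ico_subset_Icc_self ht)).mono_of_mem_nhdsWithin
        (Icc_mem_nhdsGE_of_mem ht)) 1 (by simp)
    simp only [u] at h3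
    rw [hα1, hα0] at h3
    simpa [hδ] using h3
  · let L : E →L[ℝ] E := (((g : ℂˣ) : ℂ) • ContinuousLinearMap.id ℂ E).restrictScalars ℝ
    have hL : ∀ x, L x = ((g : ℂˣ) : ℂ) • x := fun x => rfl
    have := flow_equivariant hlip hΦ L (fun t ht x => by
      simp only [v, hL]
      rw [hV.equiv _ (hmem t ht), smul_comm]) x
    rwa [hL, hL] at this

/-- **Isotopy theorem.** -/
theorem rel_of_locSel [FiniteDimensional ℂ E] {f : ℂ × E → ℂ}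
    {A : ℂ × E → (ℂ × E →L[ℂ] ℂ)}
    (hA : ∀ p, HasFDerivAt f (A p) p) {d : ℕ} (hd : d ≠ 0)
    (hom : ∀ (γ r : ℂ) (x : E), f (γ, r • x) = r ^ d * f (γ, x)) {Γ : Set ℂ} (hΓ : IsOpen Γ)
    (hΓ' : IsPreconnected Γ) (hloc : ∀ γ ∈ Γ, ∀ x : E, x ≠ 0 → LocSel A (γ, x))
    {a b : ℂ} (ha : a ∈ Γ) (hb : b ∈ Γ) : Rel f d a b := by
  apply hΓ'.induction₂ (Rel f d) _ (fun _ _ _ _ _ _ h h' => h.trans h')
    (fun _ _ _ _ h => h.symm) ha hb
  intro γ₀ hγ₀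
  apply nhdsWithin_le_nhds
  obtain ⟨ρ, hρ, hρ2⟩ := Metric.nhds_basis_closedBall.mem_iff.1 (hΓ.mem_nhds hγ₀)
  obtain ⟨V, C, hV⟩ := exists_field hA hd hom γ₀ ρ (fun γ hγ => hloc γ (hρ2 hγ))
  have hε : 0 < min ρ (1 / (2 * (C + 1 : ℝ))) := lt_min hρ (by positivity)
  filter_upwards [Metric.ball_mem_nhds γ₀ hε] with γ₁ hγ₁
  rw [mem_ball, dist_eq_norm] at hγ₁
  refine rel_of_field hA hV γ₁ (hγ₁.le.trans (min_le_left _ _)) ?_
  have h1 : ‖γ₁ - γ₀‖ ≤ 1 / (2 * (C + 1 : ℝ)) := hγ₁.le.trans (min_le_right _ _)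
  have h2 : (0 : ℝ) ≤ C := C.2
  calc 2 * (‖γ₁ - γ₀‖ * C) ≤ 2 * ((1 / (2 * (C + 1 : ℝ))) * C) := by gcongr
    _ = C / (C + 1) := by field_simp
    _ ≤ 1 := by rw [div_le_one (by positivity)]; linarith

end Pool.Agent.Helper48.W
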