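import Mathlib
import Pool.Agent.Helper48.W3b

open Set Metric Filter Topology NNReal

namespace Pool.Agent.Helper48.W

section
variable {E : Type*} [NormedAddCommGroup E] [NormedSpace ℂ E]

/-- `F'` is the total derivative of `F`. -/
def TD (F : ℂ × E → ℂ) (F' : ℂ × E → ℂ × E → ℂ) : Prop :=
  ∀ p, ∃ A : ℂ × E →L[ℂ] ℂ, HasFDerivAt F A p ∧ ∀ q, A q = F' p q

theorem TD.hasFDerivAt {F : ℂ × E → ℂ} {F' : ℂ × E → ℂ × E → ℂ} (h : TD F F') (p : ℂ × E) :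
    HasFDerivAt F (fderiv ℂ F p) p := by
  obtain ⟨A, hA, _⟩ := h p
  exact hA.differentiableAt.hasFDerivAt

theorem TD.fderiv_apply {F : ℂ × E → ℂ} {F' : ℂ × E → ℂ × E → ℂ} (h : TD F F') (p q : ℂ × E) :
    fderiv ℂ F p q = F' p q := by
  obtain ⟨A, hA, hA'⟩ := h p
  rw [hA.fderiv, hA']

theorem TD.fst : TD (fun p : ℂ × E => p.1) (fun _ q => q.1) := fun _ =>
  ⟨ContinuousLinearMap.fst ℂ ℂ E, hasFDerivAt_fst, fun _ => rfl⟩

theorem TD.lin (l : E →L[ℂ] ℂ) : TD (fun p : ℂ × E => l p.2) (fun _ q => l q.2) := fun _ =>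
  ⟨l.comp (ContinuousLinearMap.snd ℂ ℂ E),
    (l.comp (ContinuousLinearMap.snd ℂ ℂ E)).hasFDerivAt, fun _ => rfl⟩

theorem TD.const (c : ℂ) : TD (fun _ : ℂ × E => c) (fun _ _ => 0) := fun p =>
  ⟨0, hasFDerivAt_const c p, fun _ => rfl⟩

theorem TD.add {F G : ℂ × E → ℂ} {F' G' : ℂ × E → ℂ × E → ℂ} (hF : TD F F') (hG : TD G G') :
    TD (fun p => F p + G p) (fun p q => F' p q + G' p q) := fun p => by
  obtain ⟨A, hA, hA'⟩ := hF p
  obtain ⟨B, hB, hB'⟩ := hG p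
  exact ⟨A + B, hA.add hB, fun q => by simp [hA', hB']⟩

theorem TD.mul {F G : ℂ × E → ℂ} {F' G' : ℂ × E → ℂ × E → ℂ} (hF : TD F F') (hG : TD G G') :
    TD (fun p => F p * G p) (fun p q => F' p q * G p + F p * G' p q) := fun p => by
  obtain ⟨A, hA, hA'⟩ := hF p
  obtain ⟨B, hB, hB'⟩ := hG p
  refine ⟨F p • B + G p • A, hA.mul hB, fun q => ?_⟩
  simp [hA', hB']
  ring

theorem TD.neg {F : ℂ × E → ℂ} {F' : ℂ × E → ℂ × E → ℂ} (hF : TD F F') :
    TD (fun p => - F p) (fun p q => - F' p q) := fun p => by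
  obtain ⟨A, hA, hA'⟩ := hF p
  exact ⟨-A, hA.neg, fun q => by simp [hA']⟩

theorem TD.sub {F G : ℂ × E → ℂ} {F' G' : ℂ × E → ℂ × E → ℂ} (hF : TD F F') (hG : TD G G') :
    TD (fun p => F p - G p) (fun p q => F' p q - G' p q) := fun p => by
  obtain ⟨A, hA, hA'⟩ := hF p
  obtain ⟨B, hB, hB'⟩ := hG p
  exact ⟨A - B, hA.sub hB, fun q => by simp [hA', hB']⟩

theorem TD.congr {F : ℂ × E → ℂ} {F' F'' : ℂ × E → ℂ × E → ℂ} (hF : TD F F')
    (h : ∀ p q, F' p q = F'' p q) : TD F F'' := fun p => by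
  obtain ⟨A, hA, hA'⟩ := hF p
  exact ⟨A, hA, fun q => by rw [hA', h]⟩

theorem euler {f : ℂ × E → ℂ} {A : ℂ × E → (ℂ × E →L[ℂ] ℂ)}
    (hA : ∀ p, HasFDerivAt f (A p) p) {d : ℕ}
    (hom : ∀ (γ r : ℂ) (x : E), f (γ, r • x) = r ^ d * f (γ, x)) (γ : ℂ) (x : E) :
    A (γ, x) (0, x) = d * f (γ, x) := by
  have h1 : HasDerivAt (fun r : ℂ => f (γ, r • x)) (A (γ, x) (0, x)) 1 := by
    have h2 : HasDerivAt (fun r : ℂ => (γ, r • x)) ((0 : ℂ), (1 : ℂ) • x) 1 :=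
      (hasDerivAt_const (1 : ℂ) γ).prodMk ((hasDerivAt_id (1 : ℂ)).smul_const x)
    have h3 : HasFDerivAt f (A (γ, x)) ((fun r : ℂ => (γ, r • x)) 1) := by
      simpa using hA (γ, x)
    have h4 := h3.comp_hasDerivAt (1 : ℂ) h2
    rw [one_smul] at h4
    exact h4
  have h2 : HasDerivAt (fun r : ℂ => f (γ, r • x)) (d * f (γ, x)) 1 := by
    have h3 : (fun r : ℂ => f (γ, r • x)) = fun r => r ^ d * f (γ, x) := by
      funext r; rw [hom]
    rw [h3]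
    have := (hasDerivAt_pow d (1 : ℂ)).mul_const (f (γ, x))
    simpa using this
  exact h1.unique h2

/-- Local selection from a factorization `F = h U`, `U p ≠ 0`. -/
theorem caseHU {F h U : ℂ × E → ℂ} {d : ℕ} (hd : d ≠ 0) (hh : Differentiable ℂ h)
    (hU : ContDiff ℂ 2 U) (hF : ∀ q, F q = h q * U q)
    (hom : ∀ (γ r : ℂ) (x : E), F (γ, r • x) = r ^ d * F (γ, x)) {p : ℂ × E}
    (W₀ : ℂ × E → E) (hW₀ : ContDiffAt ℂ 1 W₀ p)
    (hz : ∀ᶠ q in 𝓝 p, fderiv ℂ h q (1, W₀ q) = 0) (hUp : U p ≠ 0) :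
    LocSel (fderiv ℂ F) p := by
  have hFF : F = fun q => h q * U q := funext hF
  have hUd : Differentiable ℂ U := hU.differentiable (by norm_num)
  have hFd : ∀ q, HasFDerivAt F (fderiv ℂ F q) q := by
    intro q
    rw [hFF]
    exact ((hh q).mul (hUd q)).hasFDerivAt
  have hdC : (d : ℂ) ≠ 0 := by exact_mod_cast hd
  refine ⟨fun q => W₀ q - ((fderiv ℂ U q (1, W₀ q)) / (d * U q)) • q.2, ?_, ?_⟩
  · apply LL.of_contDiffAt
    have h1 : ContDiffAt ℂ 1 (fun q => fderiv ℂ U q (1, W₀ q)) p := by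
      have h2 : ContDiffAt ℂ 1 (fun q => fderiv ℂ U q) p :=
        (hU.fderiv_right (m := 1) (by norm_num)).contDiffAt
      exact h2.clm_apply (contDiffAt_const.prodMk hW₀)
    have h3 : ContDiffAt ℂ 1 (fun q => (d : ℂ) * U q) p :=
      contDiffAt_const.mul (hU.contDiffAt.of_le (by norm_num))
    exact hW₀.sub ((h1.div h3 (mul_ne_zero hdC hUp)).smul contDiffAt_snd)
  · have hUn : ∀ᶠ q in 𝓝 p, U q ≠ 0 := hUd.continuous.continuousAt.eventually_ne hUp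
    filter_upwards [hz, hUn] with q hq hUq
    change fderiv ℂ F q (1, _) = 0
    have e1 : ((1 : ℂ), W₀ q - ((fderiv ℂ U q (1, W₀ q)) / (d * U q)) • q.2) =
        (1, W₀ q) - ((fderiv ℂ U q (1, W₀ q)) / (d * U q)) • ((0 : ℂ), q.2) := by
      ext <;> simp
    rw [e1, map_sub, map_smul]
    have e2 : fderiv ℂ F q (0, q.2) = d * F q := by
      obtain ⟨γ, x⟩ := q
      exact euler hFd hom γ x
    have e3 : fderiv ℂ F q (1, W₀ q) = h q * fderiv ℂ U q (1, W₀ q) := by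
      have : HasFDerivAt F (h q • fderiv ℂ U q + U q • fderiv ℂ h q) q := by
        rw [hFF]
        exact (hh q).hasFDerivAt.mul (hUd q).hasFDerivAt
      rw [this.fderiv]
      simp [hq]
    rw [e2, e3, hF q, smul_eq_mul]
    field_simp
    ring

theorem LL_of_field {A : ℂ × E → (ℂ × E →L[ℂ] ℂ)} {d : ℕ} {γ₀ : ℂ} {ρ : ℝ} (hρ : 0 < ρ)
    {V : ℂ × E → E} {C : ℝ≥0} (hV : Field A d γ₀ ρ V C) : LL V (γ₀, 0) := by
  refine ⟨C + C, closedBall γ₀ ρ ×ˢ closedBall (0 : E) 1,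
    prod_mem_nhds (closedBall_mem_nhds _ hρ) (closedBall_mem_nhds _ one_pos), ?_⟩
  apply LipschitzOnWith.of_dist_le_mul
  rintro ⟨a, x⟩ ⟨ha, hx⟩ ⟨b, y⟩ ⟨hb, hy⟩
  have h1 := (hV.lip a ha).dist_le_mul x y
  have h2 := hV.lip' a ha b hb y
  have h3 : dist (V (a, x)) (V (b, y)) ≤ dist (V (a, x)) (V (a, y)) + dist (V (a, y)) (V (b, y)) :=
    dist_triangle _ _ _
  rw [dist_eq_norm (V (a, y))] at h3
  have h4 : ‖y‖ ≤ 1 := by simpa using hy
  have h5 : dist x y ≤ dist (a, x) (b, y) := le_max_right _ _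
  have h6 : ‖a - b‖ ≤ dist (a, x) (b, y) := by rw [← dist_eq_norm]; exact le_max_left _ _
  have h7 : (0 : ℝ) ≤ C := C.2
  push_cast
  calc dist (V (a, x)) (V (b, y)) ≤ C * dist x y + C * ‖y‖ * ‖a - b‖ := by
        refine h3.trans (add_le_add h1 h2)
    _ ≤ C * dist (a, x) (b, y) + C * 1 * dist (a, x) (b, y) := by gcongr
    _ = _ := by ring

theorem alg0 (a a' b b' r s : ℂ) (h : a * b' - a' * b ≠ 0) :
    (r * b' - s * a') * (a * b' - a' * b)⁻¹ * a + (a * s - b * r) * (a * b' - a' * b)⁻¹ * a' =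
      r := by
  have e : (r * b' - s * a') * (a * b' - a' * b)⁻¹ * a +
      (a * s - b * r) * (a * b' - a' * b)⁻¹ * a' =
      r * ((a * b' - a' * b) * (a * b' - a' * b)⁻¹) := by ring
  rw [e, mul_inv_cancel₀ h, mul_one]

theorem alg1 (a a' b b' r s : ℂ) (h : a * b' - a' * b ≠ 0) :
    (r * b' - s * a') * (a * b' - a' * b)⁻¹ * b + (a * s - b * r) * (a * b' - a' * b)⁻¹ * b' =
      s := by
  have e : (r * b' - s * a') * (a * b' - a' * b)⁻¹ * b +
      (a * s - b * r) * (a * b' - a' * b)⁻¹ * b' =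
      s * ((a * b' - a' * b) * (a * b' - a' * b)⁻¹) := by ring
  rw [e, mul_inv_cancel₀ h, mul_one]

/-- Local selection at the points where `F = P (D₁, D₂)`, `D₁ = D₂ = 0`, `rank = 2`. -/
theorem caseBase {F : ℂ × E → ℂ} {P : ℂ × (Fin 2 → ℂ) → ℂ} {D : Fin 2 → ℂ × E → ℂ} {d : ℕ}
    (hd : d ≠ 0) (hPd : Differentiable ℂ P)
    (hPhom : ∀ (γ r : ℂ) (x : Fin 2 → ℂ), P (γ, r • x) = r ^ d * P (γ, x))
    (hD : ∀ i, ContDiff ℂ 2 (D i)) (hF : ∀ q, F q = P (q.1, fun i => D i q)) {p : ℂ × E}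
    {ρ : ℝ} (hρ : 0 < ρ)
    (hloc : ∀ γ ∈ closedBall p.1 ρ, ∀ x : Fin 2 → ℂ, x ≠ 0 → LocSel (fderiv ℂ P) (γ, x))
    (h0 : ∀ i, D i p = 0) (e e' : E)
    (hrank : fderiv ℂ (D 0) p (0, e) * fderiv ℂ (D 1) p (0, e') -
      fderiv ℂ (D 0) p (0, e') * fderiv ℂ (D 1) p (0, e) ≠ 0) :
    LocSel (fderiv ℂ F) p := by
  obtain ⟨V, C, hV⟩ := exists_field (fun q => (hPd q).hasFDerivAt) hd hPhom p.1 ρ hloc
  have hDd : ∀ i, Differentiable ℂ (D i) := fun i => (hD i).differentiable (by norm_num)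
  have hDfd : ∀ i, ContDiff ℂ 1 fun q => fderiv ℂ (D i) q := fun i =>
    (hD i).fderiv_right (m := 1) (by norm_num)
  let w : ℂ × E → (Fin 2 → ℂ) := fun q => V (q.1, fun i => D i q)
  have hD' : LL (fun q : ℂ × E => (q.1, fun i => D i q)) p := by
    apply LL.of_contDiffAt
    apply ContDiffAt.prodMk contDiffAt_fst
    rw [contDiffAt_pi]
    intro i
    exact (hD i).contDiffAt.of_le (by norm_num)
  have hp : (p.1, fun i => D i p) = (p.1, (0 : Fin 2 → ℂ)) := by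
    simp only [Prod.mk.injEq, true_and]
    funext i; exact h0 i
  have hw : LL w p := by
    apply LL.comp _ hD'
    rw [hp]
    exact LL_of_field hρ hV
  have hwi : ∀ i, LL (fun q => w q i) p := by
    intro i
    exact LL.comp (LL.of_lipschitzWith (LipschitzWith.eval i) _) hw
  have hdc : ∀ (i : Fin 2) (v : ℂ × E), LL (fun q => fderiv ℂ (D i) q v) p := by
    intro i v
    apply LL.of_contDiffAt
    exact (hDfd i).contDiffAt.clm_apply contDiffAt_const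
  have hr : ∀ i, LL (fun q => w q i - fderiv ℂ (D i) q (1, 0)) p := fun i =>
    (hwi i).sub (hdc i _)
  let Δ : ℂ × E → ℂ := fun q => fderiv ℂ (D 0) q (0, e) * fderiv ℂ (D 1) q (0, e') -
      fderiv ℂ (D 0) q (0, e') * fderiv ℂ (D 1) q (0, e)
  have hΔ : LL Δ p := ((hdc 0 _).mul (hdc 1 _)).sub ((hdc 0 _).mul (hdc 1 _))
  let r : Fin 2 → ℂ × E → ℂ := fun i q => w q i - fderiv ℂ (D i) q (1, 0)
  let W : ℂ × E → E := fun q =>
    ((r 0 q * fderiv ℂ (D 1) q (0, e') - r 1 q * fderiv ℂ (D 0) q (0, e')) * (Δ q)⁻¹) • e +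
    ((fderiv ℂ (D 0) q (0, e) * r 1 q - fderiv ℂ (D 1) q (0, e) * r 0 q) * (Δ q)⁻¹) • e'
  refine ⟨W, ?_, ?_⟩
  · apply LL.add
    · exact ((((hr 0).mul (hdc 1 _)).sub ((hr 1).mul (hdc 0 _))).mul (hΔ.inv hrank)).smul
        (LL.const e p)
    · exact ((((hdc 0 _).mul (hr 1)).sub ((hdc 1 _).mul (hr 0))).mul (hΔ.inv hrank)).smul
        (LL.const e' p)
  · have h1 : ∀ᶠ q in 𝓝 p, Δ q ≠ 0 := hΔ.continuousAt.eventually_ne hrank
    have h2 : ∀ᶠ q : ℂ × E in 𝓝 p, q.1 ∈ closedBall p.1 ρ :=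
      continuousAt_fst.eventually (closedBall_mem_nhds _ hρ)
    filter_upwards [h1, h2] with q hq1 hq2
    change fderiv ℂ F q (1, W q) = 0
    have hDq : ∀ i, fderiv ℂ (D i) q (1, W q) = w q i := by
      intro i
      have e1 : ((1 : ℂ), W q) = (1, 0) + (((r 0 q * fderiv ℂ (D 1) q (0, e') -
          r 1 q * fderiv ℂ (D 0) q (0, e')) * (Δ q)⁻¹) • ((0 : ℂ), e) +
          ((fderiv ℂ (D 0) q (0, e) * r 1 q - fderiv ℂ (D 1) q (0, e) * r 0 q) * (Δ q)⁻¹) •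
            ((0 : ℂ), e')) := by
        ext <;> simp [W]
      rw [e1, map_add, map_add, map_smul, map_smul, smul_eq_mul, smul_eq_mul]
      have hq1' : fderiv ℂ (D 0) q (0, e) * fderiv ℂ (D 1) q (0, e') -
        fderiv ℂ (D 0) q (0, e') * fderiv ℂ (D 1) q (0, e) ≠ 0 := hq1
      fin_cases i
      · simp only [Fin.zero_eta, Fin.mk_one]
        rw [alg0 _ _ _ _ _ _ hq1']
        simp [r]
      · simp only [Fin.zero_eta, Fin.mk_one]
        rw [alg1 _ _ _ _ _ _ hq1']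
        simp [r]
    have e2 : HasFDerivAt F ((fderiv ℂ P (q.1, fun i => D i q)).comp
        ((ContinuousLinearMap.fst ℂ ℂ E).prod
          (ContinuousLinearMap.pi fun i => fderiv ℂ (D i) q))) q := by
      have e3 : F = fun q => P (q.1, fun i => D i q) := funext hF
      rw [e3]
      apply (hPd _).hasFDerivAt.comp
      apply HasFDerivAt.prodMk hasFDerivAt_fst
      rw [hasFDerivAt_pi]
      intro i
      exact (hDd i q).hasFDerivAt
    rw [e2.fderiv]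
    have e4 : ((ContinuousLinearMap.fst ℂ ℂ E).prod
          (ContinuousLinearMap.pi fun i => fderiv ℂ (D i) q)) (1, W q) = (1, w q) := by
      ext i
      · rfl
      · exact hDq i
    rw [ContinuousLinearMap.comp_apply, e4]
    exact hV.tan q.1 hq2 _

end

end Pool.Agent.Helper48.W
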