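import Mathlib
import Pool.Agent.Helper48.W4

open Set Metric Filter Topology NNReal Complex

namespace Pool.Agent.Helper48.W

/-- a conic through the vertices of the triangle `l1 l2 l3 = 0`, tangent to `l0 = 0`,
`l0 + l1 + l2 + l3 = 0` -/
noncomputable def con (α β l0 l1 l2 : ℂ) : ℂ :=
  -((β * l1 - α * l2) * (β * l1 - α * l2) + l0 * (β * β * l1 + α * α * l2))

theorem con_eq (α β l0 l1 l2 : ℂ) : con α β l0 l1 l2 =
    α ^ 2 * (l2 * -(l0 + l1 + l2)) + β ^ 2 * (l1 * -(l0 + l1 + l2)) +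
      (α + β) ^ 2 * (l1 * l2) := by
  unfold con; ring

section
variable {E : Type*} [NormedAddCommGroup E] [NormedSpace ℂ E]

/-- the line and the conic, with coefficients which depend on the parameter -/
noncomputable def hh (a₀ a₁ b₀ b₁ : ℂ) (l0 l1 l2 : E →L[ℂ] ℂ) (p : ℂ × E) : ℂ :=
  l0 p.2 * con (a₀ + a₁ * p.1) (b₀ + b₁ * p.1) (l0 p.2) (l1 p.2) (l2 p.2)

theorem contDiff_hh (a₀ a₁ b₀ b₁ : ℂ) (l0 l1 l2 : E →L[ℂ] ℂ) :
    ContDiff ℂ 2 (hh a₀ a₁ b₀ b₁ l0 l1 l2) := by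
  unfold hh con
  fun_prop

theorem hh_smul (a₀ a₁ b₀ b₁ : ℂ) (l0 l1 l2 : E →L[ℂ] ℂ) (γ r : ℂ) (x : E) :
    hh a₀ a₁ b₀ b₁ l0 l1 l2 (γ, r • x) = r ^ 3 * hh a₀ a₁ b₀ b₁ l0 l1 l2 (γ, x) := by
  unfold hh con
  simp only [map_smul, smul_eq_mul]
  ring

theorem fderiv_hh (a₀ a₁ b₀ b₁ : ℂ) (l0 l1 l2 : E →L[ℂ] ℂ) (p q : ℂ × E) :
    fderiv ℂ (hh a₀ a₁ b₀ b₁ l0 l1 l2) p q =
      l0 q.2 * con (a₀ + a₁ * p.1) (b₀ + b₁ * p.1) (l0 p.2) (l1 p.2) (l2 p.2) -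
      l0 p.2 * (2 * ((b₀ + b₁ * p.1) * l1 p.2 - (a₀ + a₁ * p.1) * l2 p.2) *
        ((b₀ + b₁ * p.1) * l1 q.2 + b₁ * q.1 * l1 p.2 -
          ((a₀ + a₁ * p.1) * l2 q.2 + a₁ * q.1 * l2 p.2)) +
        l0 q.2 * ((b₀ + b₁ * p.1) * (b₀ + b₁ * p.1) * l1 p.2 +
          (a₀ + a₁ * p.1) * (a₀ + a₁ * p.1) * l2 p.2) +
        l0 p.2 * ((b₀ + b₁ * p.1) * (b₀ + b₁ * p.1) * l1 q.2 +
          (a₀ + a₁ * p.1) * (a₀ + a₁ * p.1) * l2 q.2 +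
          2 * (b₀ + b₁ * p.1) * (b₁ * q.1) * l1 p.2 +
          2 * (a₀ + a₁ * p.1) * (a₁ * q.1) * l2 p.2)) := by
  have hα : TD (fun p : ℂ × E => a₀ + a₁ * p.1) _ :=
    (TD.const a₀).add ((TD.const a₁).mul TD.fst)
  have hβ : TD (fun p : ℂ × E => b₀ + b₁ * p.1) _ :=
    (TD.const b₀).add ((TD.const b₁).mul TD.fst)
  have hm := (hβ.mul (TD.lin l1)).sub (hα.mul (TD.lin l2))
  have hm2 := ((hβ.mul hβ).mul (TD.lin l1)).add ((hα.mul hα).mul (TD.lin l2))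
  have h := (TD.lin l0).mul ((hm.mul hm).add ((TD.lin l0).mul hm2)).neg
  have h' := h.fderiv_apply p q
  have e : (fun p : ℂ × E => l0 p.2 * -(((b₀ + b₁ * p.1) * l1 p.2 - (a₀ + a₁ * p.1) * l2 p.2) *
      ((b₀ + b₁ * p.1) * l1 p.2 - (a₀ + a₁ * p.1) * l2 p.2) +
      l0 p.2 * ((b₀ + b₁ * p.1) * (b₀ + b₁ * p.1) * l1 p.2 +
        (a₀ + a₁ * p.1) * (a₀ + a₁ * p.1) * l2 p.2))) = hh a₀ a₁ b₀ b₁ l0 l1 l2 := by
    funext p; rfl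
  rw [e] at h'
  rw [h']
  unfold con
  ring

/-- Local selections away from the other components. -/
theorem caseCon {F U : ℂ × E → ℂ} (a₀ a₁ b₀ b₁ : ℂ) (l0 l1 l2 : E →L[ℂ] ℂ) (e1 e2 : E)
    (h01 : l0 e1 = 0) (h02 : l0 e2 = 0) (h11 : l1 e1 = 1) (h12 : l1 e2 = 0) (h21 : l2 e1 = 0)
    (h22 : l2 e2 = 1) (hU : ContDiff ℂ 2 U) (hF : ∀ q, F q = hh a₀ a₁ b₀ b₁ l0 l1 l2 q * U q)
    (hom : ∀ (γ r : ℂ) (x : E), F (γ, r • x) = r ^ 12 * F (γ, x)) {p : ℂ × E}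
    (hα : a₀ + a₁ * p.1 ≠ 0) (hβ : b₀ + b₁ * p.1 ≠ 0)
    (hαβ : (a₀ + a₁ * p.1) + (b₀ + b₁ * p.1) ≠ 0) (hUp : U p ≠ 0) :
    LocSel (fderiv ℂ F) p := by
  let W : ℂ × E → E := fun q =>
    (-((a₀ + a₁ * q.1 + 2 * (b₀ + b₁ * q.1)) * b₁ * l1 q.2 +
        (a₀ + a₁ * q.1) * a₁ * l2 q.2) /
      ((b₀ + b₁ * q.1) * ((a₀ + a₁ * q.1) + (b₀ + b₁ * q.1)))) • e1 +
    (-((b₀ + b₁ * q.1) * b₁ * l1 q.2 +
        (2 * (a₀ + a₁ * q.1) + (b₀ + b₁ * q.1)) * a₁ * l2 q.2) /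
      ((a₀ + a₁ * q.1) * ((a₀ + a₁ * q.1) + (b₀ + b₁ * q.1)))) • e2
  have hcα : Continuous fun q : ℂ × E => a₀ + a₁ * q.1 := by fun_prop
  have hcβ : Continuous fun q : ℂ × E => b₀ + b₁ * q.1 := by fun_prop
  refine caseHU (by norm_num) ((contDiff_hh a₀ a₁ b₀ b₁ l0 l1 l2).differentiable (by norm_num))
    hU hF hom W ?_ ?_ hUp
  · apply ContDiffAt.add
    · apply ContDiffAt.smul _ contDiffAt_const
      apply ContDiffAt.div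
      · fun_prop
      · fun_prop
      · exact mul_ne_zero hβ hαβ
    · apply ContDiffAt.smul _ contDiffAt_const
      apply ContDiffAt.div
      · fun_prop
      · fun_prop
      · exact mul_ne_zero hα hαβ
  · filter_upwards [hcα.continuousAt.eventually_ne hα, hcβ.continuousAt.eventually_ne hβ,
      (hcα.add hcβ).continuousAt.eventually_ne hαβ] with q h1 h2 h3
    rw [fderiv_hh]
    have w0 : l0 (W q) = 0 := by simp [W, h01, h02]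
    have w1 : l1 (W q) = -((a₀ + a₁ * q.1 + 2 * (b₀ + b₁ * q.1)) * b₁ * l1 q.2 +
        (a₀ + a₁ * q.1) * a₁ * l2 q.2) /
      ((b₀ + b₁ * q.1) * ((a₀ + a₁ * q.1) + (b₀ + b₁ * q.1))) := by
      simp only [W, map_add, map_smul, h11, h12, smul_eq_mul, mul_one, mul_zero, add_zero]
    have w2 : l2 (W q) = -((b₀ + b₁ * q.1) * b₁ * l1 q.2 +
        (2 * (a₀ + a₁ * q.1) + (b₀ + b₁ * q.1)) * a₁ * l2 q.2) /
      ((a₀ + a₁ * q.1) * ((a₀ + a₁ * q.1) + (b₀ + b₁ * q.1))) := by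
      simp only [W, map_add, map_smul, h21, h22, smul_eq_mul, mul_one, mul_zero, zero_add]
    have h3' : a₀ + a₁ * q.1 + (b₀ + b₁ * q.1) ≠ 0 := h3
    clear h3
    simp only
    rw [w0, w1, w2]
    generalize a₀ + a₁ * q.1 = α at *
    generalize b₀ + b₁ * q.1 = β at *
    generalize l0 q.2 = x at *
    generalize l1 q.2 = y at *
    generalize l2 q.2 = z at *
    have k1 : β * (-((α + 2 * β) * b₁ * y + α * a₁ * z) / (β * (α + β))) + b₁ * 1 * y -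
        (α * (-(β * b₁ * y + (2 * α + β) * a₁ * z) / (α * (α + β))) + a₁ * 1 * z) = 0 := by
      field_simp
      ring
    have k2 : β * β * (-((α + 2 * β) * b₁ * y + α * a₁ * z) / (β * (α + β))) +
        α * α * (-(β * b₁ * y + (2 * α + β) * a₁ * z) / (α * (α + β))) +
        2 * β * (b₁ * 1) * y + 2 * α * (a₁ * 1) * z = 0 := by
      field_simp
      ring
    rw [k1, k2]
    ring

end

end Pool.Agent.Helper48.W
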