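import Mathlib
import Pool.Agent.Helper48.W5

open Set Metric Filter Topology NNReal Complex

namespace Pool.Agent.Helper48.W

abbrev E3 := Fin 3 → ℂ

noncomputable def cx : E3 →L[ℂ] ℂ := ContinuousLinearMap.proj 0
noncomputable def cy : E3 →L[ℂ] ℂ := ContinuousLinearMap.proj 1
noncomputable def cz : E3 →L[ℂ] ℂ := ContinuousLinearMap.proj 2
noncomputable def cw : E3 →L[ℂ] ℂ := -(cx + cy + cz)

theorem cx_apply (x : E3) : cx x = x 0 := rfl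
theorem cy_apply (x : E3) : cy x = x 1 := rfl
theorem cz_apply (x : E3) : cz x = x 2 := rfl
theorem cw_apply (x : E3) : cw x = -(x 0 + x 1 + x 2) := rfl

noncomputable def D1 : ℂ × E3 → ℂ := hh 1 0 (-1) (-1) cx cy cz
noncomputable def D2 : ℂ × E3 → ℂ := hh I 0 (-1 - I) (-I) cy cx cz
noncomputable def D3 : ℂ × E3 → ℂ := hh I I (1 - I) 1 cz cx cy
noncomputable def D4 : ℂ × E3 → ℂ := hh 0 I I (-1) cw cx cy

/-- the family of curves -/
noncomputable def FF (p : ℂ × E3) : ℂ := D1 p * D2 p * D3 p * D4 p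

/-- the parameters of the nondegenerate members -/
def Gam : Set ℂ :=
  {g | g ≠ 0 ∧ 1 + g ≠ 0 ∧ 1 + I + I * g ≠ 0 ∧ 1 + I * g ≠ 0 ∧ 1 + (1 + I) * g ≠ 0}

/-- the binary quartic -/
noncomputable def PP (p : ℂ × (Fin 2 → ℂ)) : ℂ :=
  p.2 0 * p.2 1 * ((1 + p.1) ^ 2 * p.2 1 - (1 + I + I * p.1) ^ 2 * p.2 0) *
    (p.1 ^ 2 * p.2 1 - (1 + I * p.1) ^ 2 * p.2 0)

theorem D1_eq (p : ℂ × E3) : D1 p = p.2 0 * (p.2 2 * -(p.2 0 + p.2 1 + p.2 2) +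
    (1 + p.1) ^ 2 * (p.2 1 * -(p.2 0 + p.2 1 + p.2 2)) + p.1 ^ 2 * (p.2 1 * p.2 2)) := by
  unfold D1 hh con
  simp only [cx_apply, cy_apply, cz_apply]
  ring

theorem D2_eq (p : ℂ × E3) : D2 p = p.2 1 * (-(p.2 2 * -(p.2 0 + p.2 1 + p.2 2)) +
    (1 + I + I * p.1) ^ 2 * (p.2 0 * -(p.2 0 + p.2 1 + p.2 2)) +
    (1 + I * p.1) ^ 2 * (p.2 0 * p.2 2)) := by
  unfold D2 hh con
  simp only [cx_apply, cy_apply, cz_apply]
  linear_combination (-p.2 1 * (p.2 2 ^ 2 + p.2 1 * p.2 2)) * I_sq +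
    (-p.2 1 * p.2 0 * p.2 2) * I_sq

theorem D3_eq (p : ℂ × E3) : D3 p = (1 + p.1) ^ 2 * D2 p - (1 + I + I * p.1) ^ 2 * D1 p := by
  unfold D3 D2 D1 hh con
  simp only [cx_apply, cy_apply, cz_apply]
  linear_combination ((-2)*p.1*p.2 0*p.2 1*p.2 2 + (-2)*p.1*p.2 0*p.2 2^2 +
    (-2)*p.1*p.2 0^2*p.2 2 + (-1)*p.1^2*p.2 0*p.2 2^2 + (-1)*p.1^2*p.2 0^2*p.2 2 +
    (-2)*p.2 0*p.2 1*p.2 2 + (-2)*p.2 0*p.2 2^2 + (-2)*p.2 0^2*p.2 2) * I_sq

theorem D4_eq (p : ℂ × E3) : D4 p = p.1 ^ 2 * D2 p - (1 + I * p.1) ^ 2 * D1 p := by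
  unfold D4 D2 D1 hh con
  simp only [cx_apply, cy_apply, cz_apply, cw_apply]
  linear_combination ((-2)*p.1*p.2 0*p.2 1*p.2 2 + (-2)*p.1*p.2 0*p.2 1^2 +
    (-2)*p.1*p.2 0^2*p.2 1 + (-2)*p.1^2*p.2 0*p.2 1*p.2 2 + (-1)*p.1^2*p.2 0*p.2 1^2 +
    (-1)*p.1^2*p.2 0*p.2 2^2 + (-1)*p.1^2*p.2 0^2*p.2 1 + (-1)*p.1^2*p.2 0^2*p.2 2 +
    (-2)*p.2 0*p.2 1*p.2 2 + (-1)*p.2 0*p.2 1^2 + (-1)*p.2 0*p.2 2^2 + (-1)*p.2 0^2*p.2 1 +
    (-1)*p.2 0^2*p.2 2) * I_sq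

theorem plucker (g : ℂ) : (1 + g) ^ 2 * (1 + I * g) ^ 2 - g ^ 2 * (1 + I + I * g) ^ 2 =
    (1 + (1 + I) * g) ^ 2 := by
  linear_combination (-g ^ 2) * I_sq

/-- the two cubics `D1`, `D2` -/
noncomputable def DD (i : Fin 2) : ℂ × E3 → ℂ := if i = 0 then D1 else D2

theorem DD_zero : DD 0 = D1 := rfl
theorem DD_one : DD 1 = D2 := rfl

theorem FF_eq (p : ℂ × E3) : FF p = PP (p.1, fun i => DD i p) := by
  unfold FF PP
  rw [D3_eq, D4_eq]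
  simp only [DD_zero, DD_one]

theorem FF_hom (γ r : ℂ) (x : E3) : FF (γ, r • x) = r ^ 12 * FF (γ, x) := by
  unfold FF D1 D2 D3 D4
  rw [hh_smul, hh_smul, hh_smul, hh_smul]
  ring

theorem PP_hom (γ r : ℂ) (x : Fin 2 → ℂ) : PP (γ, r • x) = r ^ 4 * PP (γ, x) := by
  unfold PP
  simp only [Pi.smul_apply, smul_eq_mul]
  ring

theorem contDiff_D1 : ContDiff ℂ 2 D1 := contDiff_hh _ _ _ _ _ _ _
theorem contDiff_D2 : ContDiff ℂ 2 D2 := contDiff_hh _ _ _ _ _ _ _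
theorem contDiff_D3 : ContDiff ℂ 2 D3 := contDiff_hh _ _ _ _ _ _ _
theorem contDiff_D4 : ContDiff ℂ 2 D4 := contDiff_hh _ _ _ _ _ _ _

theorem contDiff_FF : ContDiff ℂ 2 FF := by
  unfold FF
  exact ((contDiff_D1.mul contDiff_D2).mul contDiff_D3).mul contDiff_D4

theorem contDiff_PP : ContDiff ℂ 2 PP := by
  unfold PP
  fun_prop

theorem isOpen_Gam : IsOpen Gam := by
  unfold Gam
  simp only [ne_eq, ofPred_and]
  refine (isOpen_ne_fun ?_ ?_).inter ((isOpen_ne_fun ?_ ?_).inter ((isOpen_ne_fun ?_ ?_).inter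
    ((isOpen_ne_fun ?_ ?_).inter (isOpen_ne_fun ?_ ?_)))) <;> fun_prop

theorem isPreconnected_Gam : IsPreconnected Gam := by
  have h : Gam = ({0, -1, I - 1, I, (I - 1) / 2} : Set ℂ)ᶜ := by
    ext g
    simp only [Gam, mem_ofPred_eq, mem_compl_iff, mem_insert_iff, mem_singleton_iff, not_or]
    have h2 : 1 + g = 0 ↔ g = -1 := by
      constructor
      · intro h; linear_combination h
      · intro h; rw [h]; ring
    have h3 : 1 + I + I * g = 0 ↔ g = I - 1 := by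
      constructor
      · intro h; linear_combination (-I) * h + (g + 1) * I_sq
      · intro h; rw [h]; linear_combination I_sq
    have h4 : 1 + I * g = 0 ↔ g = I := by
      constructor
      · intro h; linear_combination (-I) * h + g * I_sq
      · intro h; rw [h]; linear_combination I_sq
    have h5 : 1 + (1 + I) * g = 0 ↔ g = (I - 1) / 2 := by
      constructor
      · intro h; linear_combination ((1 - I) / 2) * h + (g / 2) * I_sq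
      · intro h; rw [h]; linear_combination (1 / 2) * I_sq
    simp only [ne_eq, h2, h3, h4, h5]
  rw [h]
  have hc : ({0, -1, I - 1, I, (I - 1) / 2} : Set ℂ).Countable := by
    apply Set.Finite.countable
    simp
  exact (hc.isPathConnected_compl_of_one_lt_rank (by
    rw [Complex.rank_real_complex]; norm_num)).isConnected.isPreconnected

/-- Local selections for the binary quartic: quadratic factors. -/
theorem casePP {U : ℂ × (Fin 2 → ℂ) → ℂ} (s₀ s₁ t₀ t₁ : ℂ) (hU : ContDiff ℂ 2 U)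
    (hF : ∀ q, PP q = ((s₀ + s₁ * q.1) ^ 2 * q.2 1 - (t₀ + t₁ * q.1) ^ 2 * q.2 0) * U q)
    {p : ℂ × (Fin 2 → ℂ)} (hs : s₀ + s₁ * p.1 ≠ 0) (hUp : U p ≠ 0) :
    LocSel (fderiv ℂ PP) p := by
  let W : ℂ × (Fin 2 → ℂ) → (Fin 2 → ℂ) := fun q =>
    (-(2 * (s₀ + s₁ * q.1) * s₁ * q.2 1 - 2 * (t₀ + t₁ * q.1) * t₁ * q.2 0) /
      (s₀ + s₁ * q.1) ^ 2) • (Pi.single 1 1 : Fin 2 → ℂ)
  refine caseHU (h := fun q : ℂ × (Fin 2 → ℂ) => (s₀ + s₁ * q.1) ^ 2 * q.2 1 - (t₀ + t₁ * q.1) ^ 2 * q.2 0)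
    (by norm_num) (by fun_prop) hU hF PP_hom W ?_ ?_ hUp
  · have hd : ContDiffAt ℂ 1 (fun q : ℂ × (Fin 2 → ℂ) =>
        (-(2 * (s₀ + s₁ * q.1) * s₁ * q.2 1 - 2 * (t₀ + t₁ * q.1) * t₁ * q.2 0) /
          (s₀ + s₁ * q.1) ^ 2)) p := by
      apply ContDiffAt.div
      · fun_prop
      · fun_prop
      · exact pow_ne_zero 2 hs
    exact hd.smul contDiffAt_const
  · have hc : Continuous fun q : ℂ × (Fin 2 → ℂ) => s₀ + s₁ * q.1 := by fun_prop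
    filter_upwards [hc.continuousAt.eventually_ne hs] with q h1
    have hα : TD (fun p : ℂ × (Fin 2 → ℂ) => s₀ + s₁ * p.1) _ :=
      (TD.const s₀).add ((TD.const s₁).mul TD.fst)
    have hβ : TD (fun p : ℂ × (Fin 2 → ℂ) => t₀ + t₁ * p.1) _ :=
      (TD.const t₀).add ((TD.const t₁).mul TD.fst)
    have h := ((hα.mul hα).mul (TD.lin (ContinuousLinearMap.proj (R := ℂ)
      (φ := fun _ : Fin 2 => ℂ) 1))).sub ((hβ.mul hβ).mul (TD.lin (ContinuousLinearMap.proj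
      (R := ℂ) (φ := fun _ : Fin 2 => ℂ) 0)))
    have h' := h.fderiv_apply q (1, W q)
    have e : (fun p : ℂ × (Fin 2 → ℂ) => (s₀ + s₁ * p.1) * (s₀ + s₁ * p.1) *
        (ContinuousLinearMap.proj (R := ℂ) (φ := fun _ : Fin 2 => ℂ) 1) p.2 -
        (t₀ + t₁ * p.1) * (t₀ + t₁ * p.1) *
        (ContinuousLinearMap.proj (R := ℂ) (φ := fun _ : Fin 2 => ℂ) 0) p.2) =
        fun q => (s₀ + s₁ * q.1) ^ 2 * q.2 1 - (t₀ + t₁ * q.1) ^ 2 * q.2 0 := by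
      funext p
      simp only [ContinuousLinearMap.proj_apply]
      ring
    rw [e] at h'
    rw [h']
    have w0 : W q 0 = 0 := by simp [W]
    have w1 : W q 1 = -(2 * (s₀ + s₁ * q.1) * s₁ * q.2 1 - 2 * (t₀ + t₁ * q.1) * t₁ * q.2 0) /
      (s₀ + s₁ * q.1) ^ 2 := by simp [W]
    simp only [ContinuousLinearMap.proj_apply, w0, w1]
    generalize s₀ + s₁ * q.1 = σ at *
    field_simp
    ring

theorem casePP0 {U : ℂ × (Fin 2 → ℂ) → ℂ} (i : Fin 2) (hU : ContDiff ℂ 2 U)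
    (hF : ∀ q, PP q = q.2 i * U q)
    {p : ℂ × (Fin 2 → ℂ)} (hUp : U p ≠ 0) :
    LocSel (fderiv ℂ PP) p := by
  refine caseHU (h := fun q : ℂ × (Fin 2 → ℂ) => q.2 i)
    (by norm_num) (by fun_prop) hU hF PP_hom (fun _ => 0) contDiffAt_const ?_ hUp
  filter_upwards with q
  have h := (TD.lin (ContinuousLinearMap.proj (R := ℂ) (φ := fun _ : Fin 2 => ℂ) i)).fderiv_apply
    q (1, 0)
  exact h

theorem locSel_PP {g : ℂ} (hg : g ∈ Gam) (u : Fin 2 → ℂ) (hu : u ≠ 0) :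
    LocSel (fderiv ℂ PP) (g, u) := by
  obtain ⟨g1, g2, g3, g4, g5⟩ := hg
  by_cases h0 : u 0 = 0
  · have h1 : u 1 ≠ 0 := by
      intro h1; apply hu; funext i; fin_cases i <;> simpa
    refine casePP0 (U := fun q => q.2 1 * ((1 + q.1) ^ 2 * q.2 1 -
      (1 + I + I * q.1) ^ 2 * q.2 0) * (q.1 ^ 2 * q.2 1 - (1 + I * q.1) ^ 2 * q.2 0)) 0
      (by fun_prop) (fun q => by unfold PP; ring) ?_
    simp only [h0]
    simp [h1, g1, g2]
  by_cases h1 : u 1 = 0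
  · refine casePP0 (U := fun q => q.2 0 * ((1 + q.1) ^ 2 * q.2 1 -
      (1 + I + I * q.1) ^ 2 * q.2 0) * (q.1 ^ 2 * q.2 1 - (1 + I * q.1) ^ 2 * q.2 0)) 1
      (by fun_prop) (fun q => by unfold PP; ring) ?_
    simp only [h1]
    simp [h0, g3, g4]
  by_cases h2 : (1 + g) ^ 2 * u 1 - (1 + I + I * g) ^ 2 * u 0 = 0
  · have h3 : g ^ 2 * u 1 - (1 + I * g) ^ 2 * u 0 ≠ 0 := by
      intro h3
      have h4 : (1 + (1 + I) * g) ^ 2 * u 1 = 0 := by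
        rw [← plucker]
        linear_combination (1 + I * g) ^ 2 * h2 - (1 + I + I * g) ^ 2 * h3
      exact mul_ne_zero (pow_ne_zero 2 g5) h1 h4
    refine casePP (U := fun q => q.2 0 * q.2 1 * (q.1 ^ 2 * q.2 1 - (1 + I * q.1) ^ 2 * q.2 0))
      1 1 (1 + I) I (by fun_prop) (fun q => by unfold PP; ring) ?_ ?_
    · simpa using g2
    · exact mul_ne_zero (mul_ne_zero h0 h1) h3
  · refine casePP (U := fun q => q.2 0 * q.2 1 * ((1 + q.1) ^ 2 * q.2 1 -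
      (1 + I + I * q.1) ^ 2 * q.2 0))
      0 1 1 I (by fun_prop) (fun q => by unfold PP; ring) ?_ ?_
    · simpa using g1
    · exact mul_ne_zero (mul_ne_zero h0 h1) h2

end Pool.Agent.Helper48.W
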