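import Mathlib
import Pool.Agent.Helper48.W6

open Complex

namespace Pool.Agent.Helper48.W

/-- the cubic of the three free base points splits -/
theorem cubic_split (g z w : ℂ) :
    z * w * ((1 + g) ^ 2 * w + g ^ 2 * z) - z * w * ((1 + I + I * g) ^ 2 * w + (1 + I * g) ^ 2 * z) +
      (z + w) * ((1 + g) ^ 2 * w + g ^ 2 * z) * ((1 + I + I * g) ^ 2 * w + (1 + I * g) ^ 2 * z) =
    (g * (1 + I * g) * z + (1 + g) * (1 + I + I * g) * w) * ((1 + I * g) * z + I * (1 + g) * w) *
      (g * z - I * (1 + I + I * g) * w) := by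
  linear_combination (6*g*I*w^2*z + 6*g*I*w^3 + g*I^2*w^2*z + 4*g*I^2*w^3 + g*w*z^2 + 6*g*w^2*z +
    2*g*w^3 + 2*g^2*I*w*z^2 + 10*g^2*I*w^2*z + 6*g^2*I*w^3 + 4*g^2*I^2*w^2*z + 6*g^2*I^2*w^3 +
    3*g^2*w*z^2 + 4*g^2*w^2*z + g^2*w^3 + 3*g^3*I*w*z^2 + 5*g^3*I*w^2*z + 2*g^3*I*w^3 +
    g^3*I^2*w*z^2 + 5*g^3*I^2*w^2*z + 4*g^3*I^2*w^3 + g^4*I^2*w*z^2 + 2*g^4*I^2*w^2*z +
    g^4*I^2*w^3 + I*w^2*z + 2*I*w^3 + I^2*w^3 + 2*w^2*z + w^3) * I_sq

/-- The three free base points are simple: the expression `E1` does not vanish. -/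
theorem E1_ne {g x y z w : ℂ} (hg : g ∈ Gam) (hw : w ≠ 0)
    (hs : x + y + z + w = 0)
    (h1 : z * w + (1 + g) ^ 2 * (y * w) + g ^ 2 * (y * z) = 0)
    (h2 : -(z * w) + (1 + I + I * g) ^ 2 * (x * w) + (1 + I * g) ^ 2 * (x * z) = 0) :
    (1 + (1 + I) * g) ^ 2 * y ^ 2 - (1 + I * g) ^ 2 * z ^ 2 + (1 + I + I * g) ^ 2 * w ^ 2 ≠ 0 := by
  obtain ⟨g1, g2, g3, g4, g5⟩ := hg
  have hc : (g * (1 + I * g) * z + (1 + g) * (1 + I + I * g) * w) *
      ((1 + I * g) * z + I * (1 + g) * w) * (g * z - I * (1 + I + I * g) * w) = 0 := by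
    rw [← cubic_split]
    linear_combination ((1 + g) ^ 2 * w + g ^ 2 * z) * ((1 + I + I * g) ^ 2 * w +
      (1 + I * g) ^ 2 * z) * hs - ((1 + I + I * g) ^ 2 * w + (1 + I * g) ^ 2 * z) * h1 -
      ((1 + g) ^ 2 * w + g ^ 2 * z) * h2
  have hI : I ≠ 0 := I_ne_zero
  rcases mul_eq_zero.1 hc with h | hC
  · rcases mul_eq_zero.1 h with hA | hB
    · -- γ ε z + β δ w = 0
      have k1 : (1 + g) * y = -((1 + I * g) * z) := by
        have : w * ((1 + g) * y + (1 + I * g) * z) = 0 := by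
          linear_combination (1 + I * g) * h1 - g * y * hA
        rcases mul_eq_zero.1 this with h | h
        · exact absurd h hw
        · linear_combination h
      have k2 : g * y = (1 + I + I * g) * w := by
        have : (1 + g) * (g * y - (1 + I + I * g) * w) = 0 := by
          linear_combination g * k1 - hA
        rcases mul_eq_zero.1 this with h | h
        · exact absurd h g2
        · linear_combination h
      intro hE
      have k3 : (1 + I + I * g) ^ 2 * w ^ 2 * (2 * I * g * (1 + g)) = 0 := by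
        linear_combination g ^ 2 * hE - (1 + (1 + I) * g) ^ 2 * (g * y + (1 + I + I * g) * w) * k2 +
          (g * (1 + I * g) * z - (1 + g) * (1 + I + I * g) * w) * hA -
          (1 + I + I * g) ^ 2 * w ^ 2 * g ^ 2 * I_sq
      simp [g3, hw, hI, g1, g2] at k3
    · -- ε z + i β w = 0
      have k1 : (1 + (1 + I) * g) * y = I * w := by
        have : (1 + g) * w * ((1 + (1 + I) * g) * y - I * w) = 0 := by
          linear_combination (1 + I * g) * h1 - (w + g ^ 2 * y) * hB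
        rcases mul_eq_zero.1 this with h | h
        · exact absurd h (mul_ne_zero g2 hw)
        · linear_combination h
      intro hE
      have k3 : 2 * I * (1 + g) * w ^ 2 = 0 := by
        linear_combination hE - ((1 + (1 + I) * g) * y + I * w) * k1 +
          ((1 + I * g) * z - I * (1 + g) * w) * hB - w ^ 2 * I_sq
      simp [hw, hI, g2] at k3
  · -- γ z = i δ w
    have k1 : (1 + (1 + I) * g) * y = -z := by
      have : w * ((1 + (1 + I) * g) * y + z) = 0 := by
        linear_combination h1 - g * y * hC - w * y * (g + g ^ 2) * I_sq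
      rcases mul_eq_zero.1 this with h | h
      · exact absurd h hw
      · linear_combination h
    intro hE
    have k3 : 2 * I * g * (1 + I + I * g) ^ 2 * w ^ 2 = 0 := by
      linear_combination g ^ 2 * hE - g ^ 2 * ((1 + (1 + I) * g) * y - z) * k1 -
        (1 - (1 + I * g) ^ 2) * (g * z + I * (1 + I + I * g) * w) * hC -
        (1 + I + I * g) ^ 2 * w ^ 2 * (1 - (1 + I * g) ^ 2 + g ^ 2) * I_sq
    simp [g3, hw, hI, g1] at k3

theorem fderiv_D1 (g : ℂ) (x v : E3) : fderiv ℂ D1 (g, x) (0, v) =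
    v 0 * (x 2 * -(x 0 + x 1 + x 2) + (1 + g) ^ 2 * (x 1 * -(x 0 + x 1 + x 2)) +
      g ^ 2 * (x 1 * x 2)) +
    x 0 * (v 2 * -(x 0 + x 1 + x 2) + x 2 * -(v 0 + v 1 + v 2) +
      (1 + g) ^ 2 * (v 1 * -(x 0 + x 1 + x 2) + x 1 * -(v 0 + v 1 + v 2)) +
      g ^ 2 * (v 1 * x 2 + x 1 * v 2)) := by
  unfold D1
  rw [fderiv_hh]
  unfold con
  simp only [cx_apply, cy_apply, cz_apply]
  ring

theorem fderiv_D2 (g : ℂ) (x v : E3) : fderiv ℂ D2 (g, x) (0, v) =
    v 1 * (-(x 2 * -(x 0 + x 1 + x 2)) + (1 + I + I * g) ^ 2 * (x 0 * -(x 0 + x 1 + x 2)) +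
      (1 + I * g) ^ 2 * (x 0 * x 2)) +
    x 1 * (-(v 2 * -(x 0 + x 1 + x 2) + x 2 * -(v 0 + v 1 + v 2)) +
      (1 + I + I * g) ^ 2 * (v 0 * -(x 0 + x 1 + x 2) + x 0 * -(v 0 + v 1 + v 2)) +
      (1 + I * g) ^ 2 * (v 0 * x 2 + x 0 * v 2)) := by
  unfold D2
  rw [fderiv_hh]
  unfold con
  simp only [cx_apply, cy_apply, cz_apply]
  have h : I ^ 2 = -1 := I_sq
  linear_combination ((-1)*v 2*x 0*x 1 + (-2)*v 2*x 1*x 2 + (-1)*v 2*x 1^2 +
    (-1)*v 0*x 1*x 2 + (-1)*v 1*x 0*x 2 + (-2)*v 1*x 1*x 2 + (-1)*v 1*x 2^2) * h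

/-- the minor of the Jacobian matrix of `D1`, `D2` -/
noncomputable def mnr (g : ℂ) (x e e' : E3) : ℂ :=
  fderiv ℂ D1 (g, x) (0, e) * fderiv ℂ D2 (g, x) (0, e') -
    fderiv ℂ D1 (g, x) (0, e') * fderiv ℂ D2 (g, x) (0, e)

theorem mnr_xy (g : ℂ) (x : E3) (h0 : x 0 = 0) (h1 : x 1 = 0) :
    mnr g x ![1, 0, 0] ![0, 1, 0] = -(x 2) ^ 4 := by
  unfold mnr
  rw [fderiv_D1, fderiv_D1, fderiv_D2, fderiv_D2]
  simp [h0, h1]
  ring

theorem mnr_xz (g : ℂ) (x : E3) (h0 : x 0 = 0) :
    mnr g x ![1, 0, 0] ![0, 0, 1] = (x 2 * -(x 1 + x 2) + (1 + g) ^ 2 * (x 1 * -(x 1 + x 2)) +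
      g ^ 2 * (x 1 * x 2)) * (x 1 * (x 1 + 2 * x 2)) := by
  unfold mnr
  rw [fderiv_D1, fderiv_D1, fderiv_D2, fderiv_D2]
  simp [h0, -mul_eq_mul_left_iff, -mul_eq_mul_right_iff]
  ring

theorem mnr_yz (g : ℂ) (x : E3) :
    mnr g x ![0, 1, 0] ![0, 0, 1] =
    x 0 * (-x 2 + (1 + g) ^ 2 * (-(x 0 + x 1 + x 2) - x 1) + g ^ 2 * x 2) *
      (x 1 * (-(-(x 0 + x 1 + x 2) - x 2) - (1 + I + I * g) ^ 2 * x 0 +
        (1 + I * g) ^ 2 * x 0)) -
    x 0 * (-(x 0 + x 1 + x 2) - x 2 - (1 + g) ^ 2 * x 1 + g ^ 2 * x 1) *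
      ((-(x 2 * -(x 0 + x 1 + x 2)) + (1 + I + I * g) ^ 2 * (x 0 * -(x 0 + x 1 + x 2)) +
        (1 + I * g) ^ 2 * (x 0 * x 2)) + x 1 * (x 2 - (1 + I + I * g) ^ 2 * x 0)) := by
  unfold mnr
  rw [fderiv_D1, fderiv_D1, fderiv_D2, fderiv_D2]
  simp
  ring

theorem exists_mnr {g : ℂ} (hg : g ∈ Gam) (x : E3) (hx : x ≠ 0) (h1 : D1 (g, x) = 0)
    (h2 : D2 (g, x) = 0) : ∃ e e' : E3, mnr g x e e' ≠ 0 := by
  have hgg := hg
  obtain ⟨g1, g2, g3, g4, g5⟩ := hg
  rw [D1_eq] at h1
  rw [D2_eq] at h2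
  simp only at h1 h2
  by_cases hX : x 0 = 0
  · by_cases hY : x 1 = 0
    · refine ⟨_, _, (mnr_xy g x hX hY).trans_ne ?_⟩
      have hZ : x 2 ≠ 0 := by
        intro hZ; apply hx; funext i; fin_cases i <;> simpa
      exact neg_ne_zero.2 (pow_ne_zero 4 hZ)
    · refine ⟨_, _, (mnr_xz g x hX).trans_ne ?_⟩
      rw [hX] at h2
      have h3 : x 1 * (x 2 * (x 1 + x 2)) = 0 := by linear_combination h2
      rcases mul_eq_zero.1 h3 with h | h
      · exact absurd h hY
      · rcases mul_eq_zero.1 h with h | h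
        · rw [h]
          have : (0 * -(x 1 + 0) + (1 + g) ^ 2 * (x 1 * -(x 1 + 0)) + g ^ 2 * (x 1 * 0)) *
              (x 1 * (x 1 + 2 * 0)) = -((1 + g) ^ 2 * x 1 ^ 4) := by ring
          rw [this]
          exact neg_ne_zero.2 (mul_ne_zero (pow_ne_zero 2 g2) (pow_ne_zero 4 hY))
        · have h4 : x 2 = - x 1 := by linear_combination h
          rw [h4]
          have : (-x 1 * -(x 1 + -x 1) + (1 + g) ^ 2 * (x 1 * -(x 1 + -x 1)) +
              g ^ 2 * (x 1 * -x 1)) * (x 1 * (x 1 + 2 * -x 1)) = g ^ 2 * x 1 ^ 4 := by ring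
          rw [this]
          exact mul_ne_zero (pow_ne_zero 2 g1) (pow_ne_zero 4 hY)
  · refine ⟨_, _, (mnr_yz g x).trans_ne ?_⟩
    by_cases hY : x 1 = 0
    · rw [hY] at h1 ⊢
      have h3 : x 0 * (x 2 * (x 0 + x 2)) = 0 := by linear_combination -h1
      rcases mul_eq_zero.1 h3 with h | h
      · exact absurd h hX
      · rcases mul_eq_zero.1 h with h | h
        · rw [h]
          have hne : -((1 + I + I * g) ^ 2 * x 0 ^ 4) ≠ 0 :=
            neg_ne_zero.2 (mul_ne_zero (pow_ne_zero 2 g3) (pow_ne_zero 4 hX))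
          intro h0
          apply hne
          linear_combination h0
        · have h4 : x 2 = - x 0 := by linear_combination h
          rw [h4]
          have hne : ((1 + I * g) ^ 2 * x 0 ^ 4) ≠ 0 :=
            mul_ne_zero (pow_ne_zero 2 g4) (pow_ne_zero 4 hX)
          intro h0
          apply hne
          linear_combination h0
    · have k1 := (mul_eq_zero.1 h1).resolve_left hX
      have k2 := (mul_eq_zero.1 h2).resolve_left hY
      by_cases hZ : x 2 = 0
      · rw [hZ] at k1 k2 ⊢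
        have h3 : (1 + g) ^ 2 * (x 1 * (x 0 + x 1)) = 0 := by linear_combination -k1
        have h4 : x 0 = - x 1 := by
          rcases mul_eq_zero.1 h3 with h | h
          · exact absurd h (pow_ne_zero 2 g2)
          · rcases mul_eq_zero.1 h with h | h
            · exact absurd h hY
            · linear_combination h
        rw [h4]
        have hne : ((1 + (1 + I) * g) ^ 2 * x 1 ^ 4) ≠ 0 :=
            mul_ne_zero (pow_ne_zero 2 g5) (pow_ne_zero 4 hY)
        intro h0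
        apply hne
        have hp := plucker g
        linear_combination -h0 - (x 1) ^ 4 * hp
      · have hW : -(x 0 + x 1 + x 2) ≠ 0 := by
          intro hW
          rw [hW] at k1
          have : g ^ 2 * (x 1 * x 2) = 0 := by linear_combination k1
          exact mul_ne_zero (pow_ne_zero 2 g1) (mul_ne_zero hY hZ) this
        have hE := E1_ne hgg (x := x 0) (y := x 1) (z := x 2) (w := -(x 0 + x 1 + x 2)) hW (by ring)
          (by linear_combination k1) (by linear_combination k2)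
        have hp := plucker g
        intro h0
        apply hE
        have h5 : x 2 * x 0 * x 0 * ((1 + (1 + I) * g) ^ 2 * x 1 ^ 2 - (1 + I * g) ^ 2 * x 2 ^ 2 +
            (1 + I + I * g) ^ 2 * (-(x 0 + x 1 + x 2)) ^ 2) = 0 := by
          linear_combination x 2 * h0 + (x 2 * x 0 * (-(x 0 + x 1 + x 2) - x 2 -
            (1 + g) ^ 2 * x 1 + g ^ 2 * x 1)) * k2 -
            x 0 * (2 * (1 + I + I * g) ^ 2 * x 0 ^ 2 + 4 * (1 + I + I * g) ^ 2 * x 0 * x 1 +
              ((1 + I + I * g) ^ 2 - (1 + I * g) ^ 2 - 1) * x 0 * x 2 - 2 * x 1 * x 2) * k1 -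
            x 0 * (-2 * (1 + g) ^ 2 * x 0 * x 1 - x 0 * x 2 - 4 * (1 + g) ^ 2 * x 1 ^ 2 +
              (2 * g ^ 2 - 2 * (1 + g) ^ 2 - 2) * x 1 * x 2) * k2 -
            x 2 * x 0 ^ 2 * x 1 ^ 2 * hp
        rcases mul_eq_zero.1 h5 with h | h
        · exact absurd h (mul_ne_zero (mul_ne_zero hZ hX) hX)
        · exact h

theorem locSel_FF {g : ℂ} (hg : g ∈ Gam) (x : E3) (hx : x ≠ 0) :
    LocSel (fderiv ℂ FF) (g, x) := by
  have hgg := hg
  obtain ⟨g1, g2, g3, g4, g5⟩ := hg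
  have hI : I ≠ 0 := I_ne_zero
  by_cases h1 : D1 (g, x) = 0
  · by_cases h2 : D2 (g, x) = 0
    · obtain ⟨ρ, hρ, hρ2⟩ := Metric.nhds_basis_closedBall.mem_iff.1 (isOpen_Gam.mem_nhds hgg)
      obtain ⟨e, e', hee⟩ := exists_mnr hgg x hx h1 h2
      refine caseBase (P := PP) (D := DD) (d := 4) (by norm_num)
        (contDiff_PP.differentiable (by norm_num)) PP_hom ?_ FF_eq hρ
        (fun γ hγ u hu => locSel_PP (hρ2 hγ) u hu) ?_ e e' hee
      · intro i
        fin_cases i
        · exact contDiff_D1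
        · exact contDiff_D2
      · intro i
        fin_cases i
        · exact h1
        · exact h2
    · refine caseCon (U := fun q => D2 q * D3 q * D4 q) 1 0 (-1) (-1) cx cy cz ![0, 1, 0]
        ![0, 0, 1] (by simp [cx_apply]) (by simp [cx_apply]) (by simp [cy_apply])
        (by simp [cy_apply]) (by simp [cz_apply]) (by simp [cz_apply])
        ((contDiff_D2.mul contDiff_D3).mul contDiff_D4) ?_ FF_hom ?_ ?_ ?_ ?_
      · intro q; change D1 q * D2 q * D3 q * D4 q = D1 q * (D2 q * D3 q * D4 q); ring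
      · simp
      · intro h; apply g2; simp only at h; linear_combination -h
      · intro h; apply g1; simp only at h; linear_combination -h
      · rw [D3_eq, D4_eq, h1]
        simp only [mul_zero, sub_zero]
        exact mul_ne_zero (mul_ne_zero h2 (mul_ne_zero (pow_ne_zero 2 g2) h2))
          (mul_ne_zero (pow_ne_zero 2 g1) h2)
  by_cases h2 : D2 (g, x) = 0
  · refine caseCon (U := fun q => D1 q * D3 q * D4 q) I 0 (-1 - I) (-I) cy cx cz ![1, 0, 0]
      ![0, 0, 1] (by simp [cy_apply]) (by simp [cy_apply]) (by simp [cx_apply])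
      (by simp [cx_apply]) (by simp [cz_apply]) (by simp [cz_apply])
      ((contDiff_D1.mul contDiff_D3).mul contDiff_D4) ?_ FF_hom ?_ ?_ ?_ ?_
    · intro q; change D1 q * D2 q * D3 q * D4 q = D2 q * (D1 q * D3 q * D4 q); ring
    · simp
    · intro h; apply g3; simp only at h; linear_combination -h
    · intro h; apply g4; simp only at h; linear_combination -h
    · rw [D3_eq, D4_eq, h2]
      simp only [mul_zero, zero_sub]
      exact mul_ne_zero (mul_ne_zero h1 (neg_ne_zero.2 (mul_ne_zero (pow_ne_zero 2 g3) h1)))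
        (neg_ne_zero.2 (mul_ne_zero (pow_ne_zero 2 g4) h1))
  by_cases h3 : D3 (g, x) = 0
  · refine caseCon (U := fun q => D1 q * D2 q * D4 q) I I (1 - I) 1 cz cx cy ![1, 0, 0]
      ![0, 1, 0] (by simp [cz_apply]) (by simp [cz_apply]) (by simp [cx_apply])
      (by simp [cx_apply]) (by simp [cy_apply]) (by simp [cy_apply])
      ((contDiff_D1.mul contDiff_D2).mul contDiff_D4) ?_ FF_hom ?_ ?_ ?_ ?_
    · intro q; change D1 q * D2 q * D3 q * D4 q = D3 q * (D1 q * D2 q * D4 q); ring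
    · intro h; apply g2; simp only at h; linear_combination -I * h + (1 + g) * I_sq
    · intro h; apply g3; simp only at h; linear_combination I * h + I_sq
    · intro h; apply g5; simp only at h; linear_combination h
    · have h4 : D4 (g, x) ≠ 0 := by
        intro h4
        rw [D3_eq] at h3
        rw [D4_eq] at h4
        have hp := plucker g
        have : (1 + (1 + I) * g) ^ 2 * D2 (g, x) = 0 := by
          rw [← hp]
          simp only at h3 h4
          linear_combination (1 + I * g) ^ 2 * h3 - (1 + I + I * g) ^ 2 * h4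
        exact mul_ne_zero (pow_ne_zero 2 g5) h2 this
      exact mul_ne_zero (mul_ne_zero h1 h2) h4
  · refine caseCon (U := fun q => D1 q * D2 q * D3 q) 0 I I (-1) cw cx cy ![1, 0, -1]
      ![0, 1, -1] (by simp [cw_apply]) (by simp [cw_apply]) (by simp [cx_apply])
      (by simp [cx_apply]) (by simp [cy_apply]) (by simp [cy_apply])
      ((contDiff_D1.mul contDiff_D2).mul contDiff_D3) ?_ FF_hom ?_ ?_ ?_ ?_
    · intro q; change D1 q * D2 q * D3 q * D4 q = D4 q * (D1 q * D2 q * D3 q); ring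
    · intro h; apply g1; simp only at h; linear_combination -I * h + g * I_sq
    · intro h; apply g4; simp only at h; linear_combination -I * h + I_sq
    · intro h; apply g5; simp only at h; linear_combination -I * h + (1 + g) * I_sq
    · exact mul_ne_zero (mul_ne_zero h1 h2) h3

/-- **All nondegenerate members of the family are topologically equivalent.** -/
theorem rel_FF {a b : ℂ} (ha : a ∈ Gam) (hb : b ∈ Gam) : Rel FF 12 a b :=
  rel_of_locSel (A := fderiv ℂ FF)
    (fun p => (contDiff_FF.differentiable (by norm_num) p).hasFDerivAt) (by norm_num) FF_hom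
    isOpen_Gam isPreconnected_Gam (fun _ hγ x hx => locSel_FF hγ x hx) ha hb

end Pool.Agent.Helper48.W
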