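import Mathlib
import Pool.Agent.Helper48.W7

open Complex Matrix

namespace Pool.Agent.Helper48.W

/-- three linear forms which are diagonal on three points have no common zero -/
theorem ker_zero {m1 m2 m3 r1 r2 r3 : E3} (h11 : m1 ⬝ᵥ r1 ≠ 0) (h12 : m1 ⬝ᵥ r2 = 0)
    (h13 : m1 ⬝ᵥ r3 = 0) (h21 : m2 ⬝ᵥ r1 = 0) (h22 : m2 ⬝ᵥ r2 ≠ 0) (h23 : m2 ⬝ᵥ r3 = 0)
    (h31 : m3 ⬝ᵥ r1 = 0) (h32 : m3 ⬝ᵥ r2 = 0) (h33 : m3 ⬝ᵥ r3 ≠ 0) {y : E3}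
    (y1 : m1 ⬝ᵥ y = 0) (y2 : m2 ⬝ᵥ y = 0) (y3 : m3 ⬝ᵥ y = 0) : y = 0 := by
  have hdet : (Matrix.of ![m1, m2, m3]).det ≠ 0 := by
    intro h
    have h2 : (Matrix.of ![m1, m2, m3] * (Matrix.of ![r1, r2, r3])ᵀ) =
        Matrix.diagonal ![m1 ⬝ᵥ r1, m2 ⬝ᵥ r2, m3 ⬝ᵥ r3] := by
      ext i j
      have e : (Matrix.of ![m1, m2, m3] * (Matrix.of ![r1, r2, r3])ᵀ) i j =
        ![m1, m2, m3] i ⬝ᵥ ![r1, r2, r3] j := rfl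
      rw [e]
      fin_cases i <;> fin_cases j
      · exact (Matrix.diagonal_apply_eq ![m1 ⬝ᵥ r1, m2 ⬝ᵥ r2, m3 ⬝ᵥ r3] 0).symm
      · exact h12.trans (Matrix.diagonal_apply_ne _ (by decide)).symm
      · exact h13.trans (Matrix.diagonal_apply_ne _ (by decide)).symm
      · exact h21.trans (Matrix.diagonal_apply_ne _ (by decide)).symm
      · exact (Matrix.diagonal_apply_eq ![m1 ⬝ᵥ r1, m2 ⬝ᵥ r2, m3 ⬝ᵥ r3] 1).symm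
      · exact h23.trans (Matrix.diagonal_apply_ne _ (by decide)).symm
      · exact h31.trans (Matrix.diagonal_apply_ne _ (by decide)).symm
      · exact h32.trans (Matrix.diagonal_apply_ne _ (by decide)).symm
      · exact (Matrix.diagonal_apply_eq ![m1 ⬝ᵥ r1, m2 ⬝ᵥ r2, m3 ⬝ᵥ r3] 2).symm
    have h3 := congrArg Matrix.det h2
    rw [Matrix.det_mul, h, zero_mul, Matrix.det_diagonal, Fin.prod_univ_three] at h3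
    exact mul_ne_zero (mul_ne_zero h11 h22) h33 h3.symm
  refine Matrix.eq_zero_of_mulVec_eq_zero hdet ?_
  funext i
  fin_cases i
  · exact y1
  · exact y2
  · exact y3

theorem expand {m1 m2 m3 r1 r2 r3 : E3} (h11 : m1 ⬝ᵥ r1 ≠ 0) (h12 : m1 ⬝ᵥ r2 = 0)
    (h13 : m1 ⬝ᵥ r3 = 0) (h21 : m2 ⬝ᵥ r1 = 0) (h22 : m2 ⬝ᵥ r2 ≠ 0) (h23 : m2 ⬝ᵥ r3 = 0)
    (h31 : m3 ⬝ᵥ r1 = 0) (h32 : m3 ⬝ᵥ r2 = 0) (h33 : m3 ⬝ᵥ r3 ≠ 0) (x : E3) :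
    x = (m1 ⬝ᵥ x / m1 ⬝ᵥ r1) • r1 + (m2 ⬝ᵥ x / m2 ⬝ᵥ r2) • r2 + (m3 ⬝ᵥ x / m3 ⬝ᵥ r3) • r3 := by
  rw [← sub_eq_zero]
  refine ker_zero h11 h12 h13 h21 h22 h23 h31 h32 h33 ?_ ?_ ?_
  · rw [dotProduct_sub, dotProduct_add, dotProduct_add, dotProduct_smul, dotProduct_smul,
      dotProduct_smul, h12, h13]
    simp only [smul_eq_mul]
    field_simp
    ring
  · rw [dotProduct_sub, dotProduct_add, dotProduct_add, dotProduct_smul, dotProduct_smul,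
      dotProduct_smul, h21, h23]
    simp only [smul_eq_mul]
    field_simp
    ring
  · rw [dotProduct_sub, dotProduct_add, dotProduct_add, dotProduct_smul, dotProduct_smul,
      dotProduct_smul, h31, h32]
    simp only [smul_eq_mul]
    field_simp
    ring

theorem bil_symm {A : Matrix (Fin 3) (Fin 3) ℂ} (hA : A.IsSymm) (x y : E3) :
    x ⬝ᵥ (A *ᵥ y) = y ⬝ᵥ (A *ᵥ x) := by
  rw [dotProduct_mulVec, ← mulVec_transpose, hA.eq, dotProduct_comm]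

/-- a quadratic form vanishing at the vertices of a triangle -/
theorem triangle {m1 m2 m3 r1 r2 r3 : E3} (h11 : m1 ⬝ᵥ r1 ≠ 0) (h12 : m1 ⬝ᵥ r2 = 0)
    (h13 : m1 ⬝ᵥ r3 = 0) (h21 : m2 ⬝ᵥ r1 = 0) (h22 : m2 ⬝ᵥ r2 ≠ 0) (h23 : m2 ⬝ᵥ r3 = 0)
    (h31 : m3 ⬝ᵥ r1 = 0) (h32 : m3 ⬝ᵥ r2 = 0) (h33 : m3 ⬝ᵥ r3 ≠ 0)
    {A : Matrix (Fin 3) (Fin 3) ℂ} (hA : A.IsSymm) (k1 : r1 ⬝ᵥ (A *ᵥ r1) = 0)
    (k2 : r2 ⬝ᵥ (A *ᵥ r2) = 0) (k3 : r3 ⬝ᵥ (A *ᵥ r3) = 0) :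
    ∃ a1 a2 a3 : ℂ, ∀ x y : E3, 2 * (x ⬝ᵥ (A *ᵥ y)) =
      a1 * ((m2 ⬝ᵥ x) * (m3 ⬝ᵥ y) + (m3 ⬝ᵥ x) * (m2 ⬝ᵥ y)) +
      a2 * ((m1 ⬝ᵥ x) * (m3 ⬝ᵥ y) + (m3 ⬝ᵥ x) * (m1 ⬝ᵥ y)) +
      a3 * ((m1 ⬝ᵥ x) * (m2 ⬝ᵥ y) + (m2 ⬝ᵥ x) * (m1 ⬝ᵥ y)) := by
  refine ⟨2 * (r2 ⬝ᵥ (A *ᵥ r3)) / ((m2 ⬝ᵥ r2) * (m3 ⬝ᵥ r3)),
    2 * (r1 ⬝ᵥ (A *ᵥ r3)) / ((m1 ⬝ᵥ r1) * (m3 ⬝ᵥ r3)),
    2 * (r1 ⬝ᵥ (A *ᵥ r2)) / ((m1 ⬝ᵥ r1) * (m2 ⬝ᵥ r2)), fun x y => ?_⟩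
  have ex := expand h11 h12 h13 h21 h22 h23 h31 h32 h33 x
  have ey := expand h11 h12 h13 h21 h22 h23 h31 h32 h33 y
  have e : x ⬝ᵥ (A *ᵥ y) = ((m1 ⬝ᵥ x / m1 ⬝ᵥ r1) • r1 + (m2 ⬝ᵥ x / m2 ⬝ᵥ r2) • r2 +
      (m3 ⬝ᵥ x / m3 ⬝ᵥ r3) • r3) ⬝ᵥ (A *ᵥ ((m1 ⬝ᵥ y / m1 ⬝ᵥ r1) • r1 +
      (m2 ⬝ᵥ y / m2 ⬝ᵥ r2) • r2 + (m3 ⬝ᵥ y / m3 ⬝ᵥ r3) • r3)) := by
    rw [← ex, ← ey]
  rw [e]
  simp only [mulVec_add, mulVec_smul, dotProduct_add, add_dotProduct, smul_dotProduct,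
    dotProduct_smul, smul_eq_mul, k1, k2, k3, bil_symm hA r2 r1, bil_symm hA r3 r1,
    bil_symm hA r3 r2]
  generalize m1 ⬝ᵥ r1 = n1 at *
  generalize m2 ⬝ᵥ r2 = n2 at *
  generalize m3 ⬝ᵥ r3 = n3 at *
  field_simp
  ring

/-- the discriminant -/
def Dd (a b c : ℂ) : ℂ := a ^ 2 + b ^ 2 + c ^ 2 - 2 * a * b - 2 * a * c - 2 * b * c

/-- One conic of the configuration. -/
theorem row {m0 m1 m2 m3 r1 r2 r3 : E3} (hs : m0 + m1 + m2 + m3 = 0)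
    (h11 : m1 ⬝ᵥ r1 ≠ 0) (h12 : m1 ⬝ᵥ r2 = 0)
    (h13 : m1 ⬝ᵥ r3 = 0) (h21 : m2 ⬝ᵥ r1 = 0) (h22 : m2 ⬝ᵥ r2 ≠ 0) (h23 : m2 ⬝ᵥ r3 = 0)
    (h31 : m3 ⬝ᵥ r1 = 0) (h32 : m3 ⬝ᵥ r2 = 0) (h33 : m3 ⬝ᵥ r3 ≠ 0)
    {A : Matrix (Fin 3) (Fin 3) ℂ} (hA : A.IsSymm) (k1 : r1 ⬝ᵥ (A *ᵥ r1) = 0)
    (k2 : r2 ⬝ᵥ (A *ᵥ r2) = 0) (k3 : r3 ⬝ᵥ (A *ᵥ r3) = 0)
    {s1 s2 s3 : E3} (z1 : m1 ⬝ᵥ s1 = 0) (z2 : m2 ⬝ᵥ s2 = 0) (z3 : m3 ⬝ᵥ s3 = 0)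
    (w1 : s1 ⬝ᵥ (A *ᵥ s1) ≠ 0) (w2 : s2 ⬝ᵥ (A *ᵥ s2) ≠ 0) (w3 : s3 ⬝ᵥ (A *ᵥ s3) ≠ 0)
    {t : E3} (t0 : t ≠ 0) (ht : m0 ⬝ᵥ t = 0) {c : ℂ} (hc : A *ᵥ t = c • m0)
    {p p' : E3} (hp : p ⬝ᵥ (A *ᵥ p) = 0) (hp' : p' ⬝ᵥ (A *ᵥ p') = 0)
    (p1 : m1 ⬝ᵥ p ≠ 0) (p2 : m2 ⬝ᵥ p ≠ 0) (p3 : m3 ⬝ᵥ p ≠ 0)
    (p1' : m1 ⬝ᵥ p' ≠ 0) (p2' : m2 ⬝ᵥ p' ≠ 0) (p3' : m3 ⬝ᵥ p' ≠ 0)
    (hpp : LinearIndependent ℂ ![p, p']) :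
    ∃ lam : ℂ, lam ≠ 0 ∧ (∀ x : E3, x ⬝ᵥ (A *ᵥ x) = lam *
      (((m2 ⬝ᵥ p)⁻¹ * (m3 ⬝ᵥ p')⁻¹ - (m3 ⬝ᵥ p)⁻¹ * (m2 ⬝ᵥ p')⁻¹) * ((m2 ⬝ᵥ x) * (m3 ⬝ᵥ x)) -
       ((m1 ⬝ᵥ p)⁻¹ * (m3 ⬝ᵥ p')⁻¹ - (m3 ⬝ᵥ p)⁻¹ * (m1 ⬝ᵥ p')⁻¹) * ((m1 ⬝ᵥ x) * (m3 ⬝ᵥ x)) +
       ((m1 ⬝ᵥ p)⁻¹ * (m2 ⬝ᵥ p')⁻¹ - (m2 ⬝ᵥ p)⁻¹ * (m1 ⬝ᵥ p')⁻¹) * ((m1 ⬝ᵥ x) * (m2 ⬝ᵥ x)))) ∧
      (m2 ⬝ᵥ p)⁻¹ * (m3 ⬝ᵥ p')⁻¹ - (m3 ⬝ᵥ p)⁻¹ * (m2 ⬝ᵥ p')⁻¹ ≠ 0 ∧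
      (m1 ⬝ᵥ p)⁻¹ * (m3 ⬝ᵥ p')⁻¹ - (m3 ⬝ᵥ p)⁻¹ * (m1 ⬝ᵥ p')⁻¹ ≠ 0 ∧
      (m1 ⬝ᵥ p)⁻¹ * (m2 ⬝ᵥ p')⁻¹ - (m2 ⬝ᵥ p)⁻¹ * (m1 ⬝ᵥ p')⁻¹ ≠ 0 ∧
      Dd ((m2 ⬝ᵥ p)⁻¹ * (m3 ⬝ᵥ p')⁻¹ - (m3 ⬝ᵥ p)⁻¹ * (m2 ⬝ᵥ p')⁻¹)
        (-((m1 ⬝ᵥ p)⁻¹ * (m3 ⬝ᵥ p')⁻¹ - (m3 ⬝ᵥ p)⁻¹ * (m1 ⬝ᵥ p')⁻¹))
        ((m1 ⬝ᵥ p)⁻¹ * (m2 ⬝ᵥ p')⁻¹ - (m2 ⬝ᵥ p)⁻¹ * (m1 ⬝ᵥ p')⁻¹) = 0 := by
  obtain ⟨a1, a2, a3, hB⟩ := triangle h11 h12 h13 h21 h22 h23 h31 h32 h33 hA k1 k2 k3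
  have hq : ∀ x : E3, x ⬝ᵥ (A *ᵥ x) = a1 * ((m2 ⬝ᵥ x) * (m3 ⬝ᵥ x)) +
      a2 * ((m1 ⬝ᵥ x) * (m3 ⬝ᵥ x)) + a3 * ((m1 ⬝ᵥ x) * (m2 ⬝ᵥ x)) := by
    intro x
    have := hB x x
    linear_combination (1 / 2) * this
  -- the coefficients are nonzero
  have a1n : a1 ≠ 0 := by
    rintro rfl
    apply w1
    rw [hq, z1]
    ring
  have a2n : a2 ≠ 0 := by
    rintro rfl
    apply w2
    rw [hq, z2]
    ring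
  have a3n : a3 ≠ 0 := by
    rintro rfl
    apply w3
    rw [hq, z3]
    ring
  -- the discriminant
  have hD : Dd a1 a2 a3 = 0 := by
    have key : ∀ y : E3, m0 ⬝ᵥ y = 0 → a1 * ((m2 ⬝ᵥ y) * (m3 ⬝ᵥ t) + (m3 ⬝ᵥ y) * (m2 ⬝ᵥ t)) +
      a2 * ((m1 ⬝ᵥ y) * (m3 ⬝ᵥ t) + (m3 ⬝ᵥ y) * (m1 ⬝ᵥ t)) +
      a3 * ((m1 ⬝ᵥ y) * (m2 ⬝ᵥ t) + (m2 ⬝ᵥ y) * (m1 ⬝ᵥ t)) = 0 := by
      intro y hy
      rw [← hB, hc, dotProduct_smul, dotProduct_comm, hy]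
      simp
    have e0 : ∀ y : E3, m0 ⬝ᵥ y = -(m1 ⬝ᵥ y + m2 ⬝ᵥ y + m3 ⬝ᵥ y) := by
      intro y
      have := congrArg (fun m => m ⬝ᵥ y) hs
      simp only [add_dotProduct, zero_dotProduct] at this
      linear_combination this
    have t3 : m3 ⬝ᵥ t = -(m1 ⬝ᵥ t + m2 ⬝ᵥ t) := by
      have := e0 t
      rw [ht] at this
      linear_combination this
    -- the two test vectors
    have u1 := key ((m1 ⬝ᵥ r1)⁻¹ • r1 - (m3 ⬝ᵥ r3)⁻¹ • r3) (by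
      rw [e0]
      simp only [dotProduct_sub, dotProduct_smul, h13, h21, h23, h31, smul_eq_mul]
      field_simp
      ring)
    have u2 := key ((m2 ⬝ᵥ r2)⁻¹ • r2 - (m3 ⬝ᵥ r3)⁻¹ • r3) (by
      rw [e0]
      simp only [dotProduct_sub, dotProduct_smul, h12, h13, h23, h32, smul_eq_mul]
      field_simp
      ring)
    simp only [dotProduct_sub, dotProduct_smul, h12, h13, h21, h23, h31, h32, smul_eq_mul,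
      mul_zero, sub_zero, zero_sub, inv_mul_cancel₀ h11, inv_mul_cancel₀ h22,
      inv_mul_cancel₀ h33, t3] at u1 u2
    have hne : m1 ⬝ᵥ t ≠ 0 ∨ m2 ⬝ᵥ t ≠ 0 := by
      by_contra hcon
      push Not at hcon
      apply t0
      refine ker_zero h11 h12 h13 h21 h22 h23 h31 h32 h33 hcon.1 hcon.2 ?_
      rw [t3, hcon.1, hcon.2]
      simp
    unfold Dd
    rcases hne with hn | hn
    · have : (a1 ^ 2 + a2 ^ 2 + a3 ^ 2 - 2 * a1 * a2 - 2 * a1 * a3 - 2 * a2 * a3) *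
          (m1 ⬝ᵥ t) = 0 := by
        linear_combination (2 * a1) * u1 - (a1 + a2 - a3) * u2
      exact (mul_eq_zero.1 this).resolve_right hn
    · have : (a1 ^ 2 + a2 ^ 2 + a3 ^ 2 - 2 * a1 * a2 - 2 * a1 * a3 - 2 * a2 * a3) *
          (m2 ⬝ᵥ t) = 0 := by
        linear_combination (2 * a2) * u2 - (a1 + a2 - a3) * u1
      exact (mul_eq_zero.1 this).resolve_right hn
  -- the two points
  have hv : a1 * (m1 ⬝ᵥ p)⁻¹ + a2 * (m2 ⬝ᵥ p)⁻¹ + a3 * (m3 ⬝ᵥ p)⁻¹ = 0 := by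
    have := hq p
    rw [hp] at this
    field_simp
    linear_combination -this
  have hv' : a1 * (m1 ⬝ᵥ p')⁻¹ + a2 * (m2 ⬝ᵥ p')⁻¹ + a3 * (m3 ⬝ᵥ p')⁻¹ = 0 := by
    have := hq p'
    rw [hp'] at this
    field_simp
    linear_combination -this
  have hne : ¬ (((m1 ⬝ᵥ p)⁻¹ * (m2 ⬝ᵥ p')⁻¹ - (m2 ⬝ᵥ p)⁻¹ * (m1 ⬝ᵥ p')⁻¹ = 0) ∧
      (m1 ⬝ᵥ p)⁻¹ * (m3 ⬝ᵥ p')⁻¹ - (m3 ⬝ᵥ p)⁻¹ * (m1 ⬝ᵥ p')⁻¹ = 0) := by
    rintro ⟨e2, e3⟩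
    have f2 : (m1 ⬝ᵥ p') * (m2 ⬝ᵥ p) - (m1 ⬝ᵥ p) * (m2 ⬝ᵥ p') = 0 := by
      field_simp at e2
      linear_combination e2
    have f3 : (m1 ⬝ᵥ p') * (m3 ⬝ᵥ p) - (m1 ⬝ᵥ p) * (m3 ⬝ᵥ p') = 0 := by
      field_simp at e3
      linear_combination e3
    have h0 : (m1 ⬝ᵥ p') • p - (m1 ⬝ᵥ p) • p' = 0 := by
      refine ker_zero h11 h12 h13 h21 h22 h23 h31 h32 h33 ?_ ?_ ?_
      · simp only [dotProduct_sub, dotProduct_smul, smul_eq_mul]; ring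
      · simp only [dotProduct_sub, dotProduct_smul, smul_eq_mul]; exact f2
      · simp only [dotProduct_sub, dotProduct_smul, smul_eq_mul]; exact f3
    rw [LinearIndependent.pair_iff] at hpp
    have := (hpp (m1 ⬝ᵥ p') (-(m1 ⬝ᵥ p)) (by rw [neg_smul, ← sub_eq_add_neg]; exact h0)).1
    exact p1' this
  generalize (m1 ⬝ᵥ p)⁻¹ = v1 at *
  generalize (m2 ⬝ᵥ p)⁻¹ = v2 at *
  generalize (m3 ⬝ᵥ p)⁻¹ = v3 at *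
  generalize (m1 ⬝ᵥ p')⁻¹ = v1' at *
  generalize (m2 ⬝ᵥ p')⁻¹ = v2' at *
  generalize (m3 ⬝ᵥ p')⁻¹ = v3' at *
  have c12 : a1 * -(v1 * v3' - v3 * v1') = a2 * (v2 * v3' - v3 * v2') := by
    linear_combination (-v3') * hv + v3 * hv'
  have c13 : a1 * (v1 * v2' - v2 * v1') = a3 * (v2 * v3' - v3 * v2') := by
    linear_combination v2' * hv - v2 * hv'
  have w23 : v2 * v3' - v3 * v2' ≠ 0 := by
    intro h0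
    rw [h0, mul_zero] at c12 c13
    apply hne
    refine ⟨(mul_eq_zero.1 c13).resolve_left a1n, ?_⟩
    have := (mul_eq_zero.1 c12).resolve_left a1n
    linear_combination -this
  have w13 : v1 * v3' - v3 * v1' ≠ 0 := by
    intro h0
    rw [h0, neg_zero, mul_zero] at c12
    exact mul_ne_zero a2n w23 c12.symm
  have w12 : v1 * v2' - v2 * v1' ≠ 0 := by
    intro h0
    rw [h0, mul_zero] at c13
    exact mul_ne_zero a3n w23 c13.symm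
  generalize hq23 : v2 * v3' - v3 * v2' = q23 at *
  generalize hq13 : v1 * v3' - v3 * v1' = q13 at *
  generalize hq12 : v1 * v2' - v2 * v1' = q12 at *
  refine ⟨a1 / q23, div_ne_zero a1n w23, fun x => ?_, w23, w13, w12, ?_⟩
  · rw [hq]
    field_simp
    linear_combination -(m1 ⬝ᵥ x) * (m3 ⬝ᵥ x) * c12 - (m1 ⬝ᵥ x) * (m2 ⬝ᵥ x) * c13
  · have e2 : a2 = a1 / q23 * (-q13) := by field_simp; linear_combination -c12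
    have e3 : a3 = a1 / q23 * q12 := by field_simp; linear_combination -c13
    have : (a1 / q23) ^ 2 * Dd q23 (-q13) q12 = 0 := by
      rw [← hD, e2, e3]
      unfold Dd
      field_simp
    exact (mul_eq_zero.1 this).resolve_left (pow_ne_zero 2 (div_ne_zero a1n w23))

theorem D3_form (g x y z : ℂ) : D3 (g, ![x, y, z]) = z * (-((1 + g) ^ 2 * (y * -(x + y + z))) -
    (1 + I + I * g) ^ 2 * (x * -(x + y + z)) + (1 + (1 + I) * g) ^ 2 * (x * y)) := by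
  rw [D3_eq, D2_eq, D1_eq]
  simp only [Matrix.cons_val_zero, Matrix.cons_val_one, Matrix.cons_val]
  linear_combination (x * y * z) * plucker g

theorem D4_form (g x y z : ℂ) : D4 (g, ![x, y, z]) = -(x + y + z) * (-(g ^ 2 * (y * z)) -
    (1 + I * g) ^ 2 * (x * z) - (1 + (1 + I) * g) ^ 2 * (x * y)) := by
  rw [D4_eq, D2_eq, D1_eq]
  simp only [Matrix.cons_val_zero, Matrix.cons_val_one, Matrix.cons_val]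
  linear_combination ((x + y + z) * x * y) * plucker g

theorem FF_form (g x y z w : ℂ) (hw : w = -(x + y + z)) : FF (g, ![x, y, z]) = x * y * z * w *
    ((z * w + (1 + g) ^ 2 * (y * w) + g ^ 2 * (y * z)) *
    (-(z * w) + (1 + I + I * g) ^ 2 * (x * w) + (1 + I * g) ^ 2 * (x * z)) *
    (-((1 + g) ^ 2 * (y * w)) - (1 + I + I * g) ^ 2 * (x * w) + (1 + (1 + I) * g) ^ 2 * (x * y)) *
    (-(g ^ 2 * (y * z)) - (1 + I * g) ^ 2 * (x * z) - (1 + (1 + I) * g) ^ 2 * (x * y))) := by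
  have e : ∀ a b c d A1 A2 A3 A4 : ℂ, a * A1 * (b * A2) * (c * A3) * (d * A4) =
      a * b * c * d * (A1 * A2 * A3 * A4) := by intros; ring
  unfold FF
  rw [D3_form, D4_form, D1_eq, D2_eq, hw]
  exact e _ _ _ _ _ _ _ _

/-- normal form of the Pluecker vector -/
theorem normal {p01 p02 p03 p12 p13 p23 : ℂ} (h01 : p01 ≠ 0) (h02 : p02 ≠ 0) (h03 : p03 ≠ 0)
    (h12 : p12 ≠ 0) (h13 : p13 ≠ 0) (h23 : p23 ≠ 0)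
    (hpl : p01 * p23 - p02 * p13 + p03 * p12 = 0)
    (d0 : Dd p01 p02 p03 = 0) (d1 : Dd (-p01) p12 p13 = 0) (d3 : Dd p03 p13 p23 = 0) :
    ∃ g ∈ Gam, (p02 = p01 * (1 + g) ^ 2 ∧ p03 = p01 * g ^ 2 ∧ p12 = p01 * (1 + I + I * g) ^ 2 ∧
      p13 = p01 * (1 + I * g) ^ 2 ∧ p23 = p01 * (1 + (1 + I) * g) ^ 2) ∨
      (p03 = p01 * (1 + g) ^ 2 ∧ p02 = p01 * g ^ 2 ∧ p13 = p01 * (1 + I + I * g) ^ 2 ∧
      p12 = p01 * (1 + I * g) ^ 2 ∧ -p23 = p01 * (1 + (1 + I) * g) ^ 2) := by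
  -- the first parameter
  obtain ⟨g, hg3, hg2⟩ : ∃ g : ℂ, p03 = p01 * g ^ 2 ∧ p02 = p01 * (1 + g) ^ 2 := by
    obtain ⟨g0, hg0⟩ := IsAlgClosed.exists_pow_nat_eq (p03 / p01) (n := 2) (by norm_num)
    have h3 : p03 = p01 * g0 ^ 2 := by rw [hg0]; field_simp
    have h : (p02 - p01 * (1 + g0) ^ 2) * (p02 - p01 * (1 - g0) ^ 2) = 0 := by
      have := d0
      unfold Dd at this
      rw [h3] at this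
      linear_combination this
    rcases mul_eq_zero.1 h with h | h
    · exact ⟨g0, h3, by linear_combination h⟩
    · exact ⟨-g0, by rw [h3]; ring, by linear_combination h⟩
  obtain ⟨e, he3, he2⟩ : ∃ e : ℂ, p13 = p01 * e ^ 2 ∧ p12 = p01 * (e + I) ^ 2 := by
    obtain ⟨e0, he0⟩ := IsAlgClosed.exists_pow_nat_eq (p13 / p01) (n := 2) (by norm_num)
    have h3 : p13 = p01 * e0 ^ 2 := by rw [he0]; field_simp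
    have h : (p12 - p01 * (e0 + I) ^ 2) * (p12 - p01 * (e0 - I) ^ 2) = 0 := by
      have := d1
      unfold Dd at this
      rw [h3] at this
      linear_combination this + (2 * p01 ^ 2 * e0 ^ 2 * (-1) * 1 - 2 * p01 * p12 - p01 ^ 2 + p01 ^ 2 * I ^ 2) * I_sq
    rcases mul_eq_zero.1 h with h | h
    · exact ⟨e0, h3, by linear_combination h⟩
    · exact ⟨-e0, by rw [h3]; ring, by linear_combination h⟩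
  have gn : g ≠ 0 := by rintro rfl; apply h03; rw [hg3]; ring
  have en : e ≠ 0 := by rintro rfl; apply h13; rw [he3]; ring
  have h : (p23 - p01 * (g + e) ^ 2) * (p23 - p01 * (g - e) ^ 2) = 0 := by
    have := d3
    unfold Dd at this
    rw [hg3, he3] at this
    linear_combination this
  have sqne : ∀ {a b : ℂ}, a ≠ 0 → a = p01 * b ^ 2 → b ≠ 0 := by
    intro a b ha hab hb
    apply ha
    rw [hab, hb]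
    ring
  rcases mul_eq_zero.1 h with h | h
  · have h' : p23 = p01 * (g + e) ^ 2 := by linear_combination h
    have : (2 * p01 ^ 2 * g * e) * (1 - e + I * g) = 0 := by
      have := hpl
      rw [h', hg3, hg2, he3, he2] at this
      linear_combination this - (p01 ^ 2 * g ^ 2) * I_sq
    have he : e = 1 + I * g := by
      have := (mul_eq_zero.1 this).resolve_left (by simp [h01, gn, en])
      linear_combination -this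
    subst he
    refine ⟨g, ⟨gn, sqne h02 hg2, ?_, en, ?_⟩, Or.inl ⟨hg2, hg3, ?_, he3, ?_⟩⟩
    · have := sqne h12 he2
      intro h0
      apply this
      linear_combination h0
    · have := sqne h23 h'
      intro h0
      apply this
      linear_combination h0
    · rw [he2]; ring
    · rw [h']; ring
  · have h' : p23 = p01 * (g - e) ^ 2 := by linear_combination h
    have : (2 * p01 ^ 2 * g * e) * (-1 - e + I * g) = 0 := by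
      have := hpl
      rw [h', hg3, hg2, he3, he2] at this
      linear_combination this - (p01 ^ 2 * g ^ 2) * I_sq
    have he : e = -1 + I * g := by
      have := (mul_eq_zero.1 this).resolve_left (by simp [h01, gn, en])
      linear_combination -this
    subst he
    refine ⟨-1 - g, ⟨?_, ?_, ?_, ?_, ?_⟩, Or.inr ⟨?_, ?_, ?_, ?_, ?_⟩⟩
    · have := sqne h02 hg2
      intro h0
      apply this
      linear_combination -h0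
    · intro h0
      apply gn
      linear_combination -h0
    · intro h0
      apply en
      linear_combination -h0
    · have := sqne h12 he2
      intro h0
      apply this
      linear_combination -h0
    · have := sqne h23 h'
      intro h0
      apply this
      linear_combination I * h0 + (g + 1) * I_sq
    · rw [hg3]; ring
    · rw [hg2]; ring
    · rw [he3]; ring
    · rw [he2]; ring
    · rw [h']; linear_combination (-p01 * ((1 + g) ^ 2 + g ^ 2)) * I_sq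

theorem exists_equiv {m1 m2 m3 : E3}
    (h : ∀ y : E3, m1 ⬝ᵥ y = 0 → m2 ⬝ᵥ y = 0 → m3 ⬝ᵥ y = 0 → y = 0) {κ : ℂ} (hκ : κ ≠ 0) :
    ∃ G : E3 ≃ₗ[ℂ] E3, ∀ x, G x = κ • ![m1 ⬝ᵥ x, m2 ⬝ᵥ x, m3 ⬝ᵥ x] := by
  let F : E3 →ₗ[ℂ] E3 :=
    { toFun := fun x => κ • ![m1 ⬝ᵥ x, m2 ⬝ᵥ x, m3 ⬝ᵥ x]
      map_add' := fun x y => by
        rw [← smul_add]
        congr 1
        funext i
        fin_cases i <;> simp [dotProduct_add]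
      map_smul' := fun c x => by
        rw [RingHom.id_apply, smul_comm]
        congr 1
        funext i
        fin_cases i <;> simp [dotProduct_smul] }
  have hF : Function.Injective F := by
    rw [← LinearMap.ker_eq_bot, LinearMap.ker_eq_bot']
    intro y hy
    have hy' : ![m1 ⬝ᵥ y, m2 ⬝ᵥ y, m3 ⬝ᵥ y] = 0 := (smul_eq_zero.1 hy).resolve_left hκ
    exact h y (congrFun hy' 0) (congrFun hy' 1) (congrFun hy' 2)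
  exact ⟨LinearEquiv.ofInjectiveEndo F hF, fun x => rfl⟩

/-- the lines through the nine quadruple points -/
def NN : Fin 9 → Finset (Fin 4) := ![{2, 3}, ∅, ∅, ∅, {0, 1}, {1, 2}, {1, 3}, {0, 2}, {0, 3}]

/-- classification, assuming the sum of the four linear forms vanishes -/
theorem classify0 {m : Fin 4 → E3} {A : Fin 4 → Matrix (Fin 3) (Fin 3) ℂ} {P : Fin 9 → E3}
    {T : Fin 4 → E3} (hm : m 0 + m 1 + m 2 + m 3 = 0)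
    (hl : ∀ j i, m i ⬝ᵥ P j = 0 ↔ i ∈ NN j)
    (hA : ∀ j i, P j ⬝ᵥ (A i *ᵥ P j) = 0 ↔ i ∉ NN j)
    (hs : ∀ i, (A i).IsSymm) (hT0 : ∀ i, T i ≠ 0) (hT : ∀ i, m i ⬝ᵥ T i = 0)
    (hTA : ∀ i, ∃ c : ℂ, A i *ᵥ T i = c • m i) (hP : LinearIndependent ℂ ![P 1, P 2])
    {μ : ℂ} (hμ : μ ≠ 0) :
    ∃ g ∈ Gam, ∃ G : E3 ≃ₗ[ℂ] E3, ∀ x : E3,
      μ * ((m 0 ⬝ᵥ x) * (m 1 ⬝ᵥ x) * (m 2 ⬝ᵥ x) * (m 3 ⬝ᵥ x)) * ((x ⬝ᵥ (A 0 *ᵥ x)) *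
        (x ⬝ᵥ (A 1 *ᵥ x)) * (x ⬝ᵥ (A 2 *ᵥ x)) * (x ⬝ᵥ (A 3 *ᵥ x))) = FF (g, G x) := by
  have z : ∀ {j i}, i ∈ NN j → m i ⬝ᵥ P j = 0 := fun {j i} h => (hl j i).2 h
  have nz : ∀ {j i}, i ∉ NN j → m i ⬝ᵥ P j ≠ 0 := fun {j i} h => (hl j i).not.2 h
  have k : ∀ {j i}, i ∉ NN j → P j ⬝ᵥ (A i *ᵥ P j) = 0 := fun {j i} h => (hA j i).2 h
  have nk : ∀ {j i}, i ∈ NN j → P j ⬝ᵥ (A i *ᵥ P j) ≠ 0 := fun {j i} h =>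
    (hA j i).not.2 (not_not.2 h)
  obtain ⟨c0, hc0⟩ := hTA 0
  obtain ⟨c1, hc1⟩ := hTA 1
  obtain ⟨c2, hc2⟩ := hTA 2
  obtain ⟨c3, hc3⟩ := hTA 3
  obtain ⟨l0, l0n, e0, q23n, q13n, q12n, D0⟩ := row (m0 := m 0) (m1 := m 1) (m2 := m 2)
    (m3 := m 3) (r1 := P 0) (r2 := P 6) (r3 := P 5) (s1 := P 4) (s2 := P 7) (s3 := P 8)
    (p := P 1) (p' := P 2) (t := T 0) hm (nz (by decide)) (z (by decide)) (z (by decide))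
    (z (by decide)) (nz (by decide)) (z (by decide)) (z (by decide)) (z (by decide))
    (nz (by decide)) (hs 0) (k (by decide)) (k (by decide)) (k (by decide)) (z (by decide))
    (z (by decide)) (z (by decide)) (nk (by decide)) (nk (by decide)) (nk (by decide)) (hT0 0)
    (hT 0) hc0 (k (by decide)) (k (by decide)) (nz (by decide)) (nz (by decide)) (nz (by decide))
    (nz (by decide)) (nz (by decide)) (nz (by decide)) hP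
  obtain ⟨l1, l1n, e1, -, q03n, q02n, D1'⟩ := row (m0 := m 1) (m1 := m 0) (m2 := m 2)
    (m3 := m 3) (r1 := P 0) (r2 := P 8) (r3 := P 7) (s1 := P 4) (s2 := P 5) (s3 := P 6)
    (p := P 1) (p' := P 2) (t := T 1) (by rw [← hm]; abel) (nz (by decide)) (z (by decide))
    (z (by decide))
    (z (by decide)) (nz (by decide)) (z (by decide)) (z (by decide)) (z (by decide))
    (nz (by decide)) (hs 1) (k (by decide)) (k (by decide)) (k (by decide)) (z (by decide))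
    (z (by decide)) (z (by decide)) (nk (by decide)) (nk (by decide)) (nk (by decide)) (hT0 1)
    (hT 1) hc1 (k (by decide)) (k (by decide)) (nz (by decide)) (nz (by decide)) (nz (by decide))
    (nz (by decide)) (nz (by decide)) (nz (by decide)) hP
  obtain ⟨l2, l2n, e2, -, -, q01n, -⟩ := row (m0 := m 2) (m1 := m 0) (m2 := m 1)
    (m3 := m 3) (r1 := P 6) (r2 := P 8) (r3 := P 4) (s1 := P 7) (s2 := P 5) (s3 := P 0)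
    (p := P 1) (p' := P 2) (t := T 2) (by rw [← hm]; abel) (nz (by decide)) (z (by decide))
    (z (by decide))
    (z (by decide)) (nz (by decide)) (z (by decide)) (z (by decide)) (z (by decide))
    (nz (by decide)) (hs 2) (k (by decide)) (k (by decide)) (k (by decide)) (z (by decide))
    (z (by decide)) (z (by decide)) (nk (by decide)) (nk (by decide)) (nk (by decide)) (hT0 2)
    (hT 2) hc2 (k (by decide)) (k (by decide)) (nz (by decide)) (nz (by decide)) (nz (by decide))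
    (nz (by decide)) (nz (by decide)) (nz (by decide)) hP
  obtain ⟨l3, l3n, e3, -, -, -, D3'⟩ := row (m0 := m 3) (m1 := m 0) (m2 := m 1)
    (m3 := m 2) (r1 := P 5) (r2 := P 7) (r3 := P 4) (s1 := P 8) (s2 := P 6) (s3 := P 0)
    (p := P 1) (p' := P 2) (t := T 3) (by rw [← hm]; abel) (nz (by decide)) (z (by decide))
    (z (by decide))
    (z (by decide)) (nz (by decide)) (z (by decide)) (z (by decide)) (z (by decide))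
    (nz (by decide)) (hs 3) (k (by decide)) (k (by decide)) (k (by decide)) (z (by decide))
    (z (by decide)) (z (by decide)) (nk (by decide)) (nk (by decide)) (nk (by decide)) (hT0 3)
    (hT 3) hc3 (k (by decide)) (k (by decide)) (nz (by decide)) (nz (by decide)) (nz (by decide))
    (nz (by decide)) (nz (by decide)) (nz (by decide)) hP
  have hpl : ((m 2 ⬝ᵥ P 1)⁻¹ * (m 3 ⬝ᵥ P 2)⁻¹ - (m 3 ⬝ᵥ P 1)⁻¹ * (m 2 ⬝ᵥ P 2)⁻¹) *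
      ((m 0 ⬝ᵥ P 1)⁻¹ * (m 1 ⬝ᵥ P 2)⁻¹ - (m 1 ⬝ᵥ P 1)⁻¹ * (m 0 ⬝ᵥ P 2)⁻¹) -
      (-((m 1 ⬝ᵥ P 1)⁻¹ * (m 3 ⬝ᵥ P 2)⁻¹ - (m 3 ⬝ᵥ P 1)⁻¹ * (m 1 ⬝ᵥ P 2)⁻¹)) *
      (-((m 0 ⬝ᵥ P 1)⁻¹ * (m 2 ⬝ᵥ P 2)⁻¹ - (m 2 ⬝ᵥ P 1)⁻¹ * (m 0 ⬝ᵥ P 2)⁻¹)) +
      ((m 1 ⬝ᵥ P 1)⁻¹ * (m 2 ⬝ᵥ P 2)⁻¹ - (m 2 ⬝ᵥ P 1)⁻¹ * (m 1 ⬝ᵥ P 2)⁻¹) *
      ((m 0 ⬝ᵥ P 1)⁻¹ * (m 3 ⬝ᵥ P 2)⁻¹ - (m 3 ⬝ᵥ P 1)⁻¹ * (m 0 ⬝ᵥ P 2)⁻¹) = 0 := by ring
  have w : ∀ x : E3, m 3 ⬝ᵥ x = -(m 0 ⬝ᵥ x + m 1 ⬝ᵥ x + m 2 ⬝ᵥ x) := by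
    intro x
    have := congrArg (fun m => m ⬝ᵥ x) hm
    simp only [add_dotProduct, zero_dotProduct] at this
    linear_combination this
  have hker : ∀ y : E3, m 0 ⬝ᵥ y = 0 → m 1 ⬝ᵥ y = 0 → m 2 ⬝ᵥ y = 0 → y = 0 := fun y =>
    ker_zero (r1 := P 5) (r2 := P 7) (r3 := P 4) (nz (by decide)) (z (by decide)) (z (by decide))
    (z (by decide)) (nz (by decide)) (z (by decide)) (z (by decide)) (z (by decide))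
    (nz (by decide))
  generalize (m 2 ⬝ᵥ P 1)⁻¹ * (m 3 ⬝ᵥ P 2)⁻¹ - (m 3 ⬝ᵥ P 1)⁻¹ * (m 2 ⬝ᵥ P 2)⁻¹ = q23 at *
  generalize (m 1 ⬝ᵥ P 1)⁻¹ * (m 3 ⬝ᵥ P 2)⁻¹ - (m 3 ⬝ᵥ P 1)⁻¹ * (m 1 ⬝ᵥ P 2)⁻¹ = q13 at *
  generalize (m 1 ⬝ᵥ P 1)⁻¹ * (m 2 ⬝ᵥ P 2)⁻¹ - (m 2 ⬝ᵥ P 1)⁻¹ * (m 1 ⬝ᵥ P 2)⁻¹ = q12 at *
  generalize (m 0 ⬝ᵥ P 1)⁻¹ * (m 1 ⬝ᵥ P 2)⁻¹ - (m 1 ⬝ᵥ P 1)⁻¹ * (m 0 ⬝ᵥ P 2)⁻¹ = q01 at *
  generalize (m 0 ⬝ᵥ P 1)⁻¹ * (m 2 ⬝ᵥ P 2)⁻¹ - (m 2 ⬝ᵥ P 1)⁻¹ * (m 0 ⬝ᵥ P 2)⁻¹ = q02 at *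
  generalize (m 0 ⬝ᵥ P 1)⁻¹ * (m 3 ⬝ᵥ P 2)⁻¹ - (m 3 ⬝ᵥ P 1)⁻¹ * (m 0 ⬝ᵥ P 2)⁻¹ = q03 at *
  obtain ⟨g, hg, h⟩ := normal (p01 := q23) (p02 := -q13) (p03 := q12) (p12 := q03) (p13 := -q02)
    (p23 := q01) q23n (neg_ne_zero.2 q13n) q12n q03n (neg_ne_zero.2 q02n) q01n hpl D0
    (by unfold Dd at D1' ⊢; linear_combination D1') (by unfold Dd at D3' ⊢; linear_combination D3')
  refine ⟨g, hg, ?_⟩
  rcases h with ⟨h02, h03, h12, h13, h23⟩ | ⟨h03, h02, h13, h12, h23⟩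
  · obtain ⟨κ, hκ⟩ := IsAlgClosed.exists_pow_nat_eq (μ * (l0 * l1 * l2 * l3 * q23 ^ 4)) (n := 12)
      (by norm_num)
    have hκ0 : κ ≠ 0 := by
      rintro rfl
      rw [zero_pow (by norm_num)] at hκ
      exact mul_ne_zero hμ (mul_ne_zero (mul_ne_zero (mul_ne_zero (mul_ne_zero l0n l1n) l2n) l3n)
        (pow_ne_zero 4 q23n)) hκ.symm
    obtain ⟨G, hG⟩ := exists_equiv hker hκ0
    refine ⟨G, fun x => ?_⟩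
    rw [hG, FF_hom, hκ, FF_form g _ _ _ _ (w x)]
    have f0 : x ⬝ᵥ (A 0 *ᵥ x) = l0 * q23 * ((m 2 ⬝ᵥ x) * (m 3 ⬝ᵥ x) +
        (1 + g) ^ 2 * ((m 1 ⬝ᵥ x) * (m 3 ⬝ᵥ x)) + g ^ 2 * ((m 1 ⬝ᵥ x) * (m 2 ⬝ᵥ x))) := by
      rw [e0]
      linear_combination l0 * ((m 1 ⬝ᵥ x) * (m 3 ⬝ᵥ x)) * h02 +
        l0 * ((m 1 ⬝ᵥ x) * (m 2 ⬝ᵥ x)) * h03
    have f1 : x ⬝ᵥ (A 1 *ᵥ x) = -(l1 * q23) * (-((m 2 ⬝ᵥ x) * (m 3 ⬝ᵥ x)) +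
        (1 + I + I * g) ^ 2 * ((m 0 ⬝ᵥ x) * (m 3 ⬝ᵥ x)) +
        (1 + I * g) ^ 2 * ((m 0 ⬝ᵥ x) * (m 2 ⬝ᵥ x))) := by
      rw [e1]
      linear_combination -l1 * ((m 0 ⬝ᵥ x) * (m 3 ⬝ᵥ x)) * h12 -
        l1 * ((m 0 ⬝ᵥ x) * (m 2 ⬝ᵥ x)) * h13
    have f2 : x ⬝ᵥ (A 2 *ᵥ x) = l2 * q23 * (-((1 + g) ^ 2 * ((m 1 ⬝ᵥ x) * (m 3 ⬝ᵥ x))) -
        (1 + I + I * g) ^ 2 * ((m 0 ⬝ᵥ x) * (m 3 ⬝ᵥ x)) +
        (1 + (1 + I) * g) ^ 2 * ((m 0 ⬝ᵥ x) * (m 1 ⬝ᵥ x))) := by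
      rw [e2]
      linear_combination -l2 * ((m 1 ⬝ᵥ x) * (m 3 ⬝ᵥ x)) * h02 -
        l2 * ((m 0 ⬝ᵥ x) * (m 3 ⬝ᵥ x)) * h12 + l2 * ((m 0 ⬝ᵥ x) * (m 1 ⬝ᵥ x)) * h23
    have f3 : x ⬝ᵥ (A 3 *ᵥ x) = -(l3 * q23) * (-(g ^ 2 * ((m 1 ⬝ᵥ x) * (m 2 ⬝ᵥ x))) -
        (1 + I * g) ^ 2 * ((m 0 ⬝ᵥ x) * (m 2 ⬝ᵥ x)) -
        (1 + (1 + I) * g) ^ 2 * ((m 0 ⬝ᵥ x) * (m 1 ⬝ᵥ x))) := by
      rw [e3]
      linear_combination l3 * ((m 1 ⬝ᵥ x) * (m 2 ⬝ᵥ x)) * h03 +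
        l3 * ((m 0 ⬝ᵥ x) * (m 2 ⬝ᵥ x)) * h13 + l3 * ((m 0 ⬝ᵥ x) * (m 1 ⬝ᵥ x)) * h23
    rw [f0, f1, f2, f3]
    have e : ∀ M F0 F1 F2 F3 : ℂ, μ * M * (l0 * q23 * F0 * (-(l1 * q23) * F1) * (l2 * q23 * F2) *
      (-(l3 * q23) * F3)) = μ * (l0 * l1 * l2 * l3 * q23 ^ 4) * (M * (F0 * F1 * F2 * F3)) := by
      intros; ring
    exact e _ _ _ _ _
  · obtain ⟨κ, hκ⟩ := IsAlgClosed.exists_pow_nat_eq (μ * (l0 * l1 * l2 * l3 * q23 ^ 4)) (n := 12)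
      (by norm_num)
    have hκ0 : κ ≠ 0 := by
      rintro rfl
      rw [zero_pow (by norm_num)] at hκ
      exact mul_ne_zero hμ (mul_ne_zero (mul_ne_zero (mul_ne_zero (mul_ne_zero l0n l1n) l2n) l3n)
        (pow_ne_zero 4 q23n)) hκ.symm
    obtain ⟨G, hG⟩ := exists_equiv (m1 := m 0) (m2 := m 1) (m3 := m 3)
      (fun y y0 y1 y3 => hker y y0 y1 (by
        have := w y
        rw [y0, y1, y3] at this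
        linear_combination this)) hκ0
    have w' : ∀ x : E3, m 2 ⬝ᵥ x = -(m 0 ⬝ᵥ x + m 1 ⬝ᵥ x + m 3 ⬝ᵥ x) := by
      intro x
      have := w x
      linear_combination this
    refine ⟨G, fun x => ?_⟩
    rw [hG, FF_hom, hκ, FF_form g _ _ _ _ (w' x)]
    have f0 : x ⬝ᵥ (A 0 *ᵥ x) = l0 * q23 * ((m 3 ⬝ᵥ x) * (m 2 ⬝ᵥ x) +
        (1 + g) ^ 2 * ((m 1 ⬝ᵥ x) * (m 2 ⬝ᵥ x)) + g ^ 2 * ((m 1 ⬝ᵥ x) * (m 3 ⬝ᵥ x))) := by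
      rw [e0]
      linear_combination l0 * ((m 1 ⬝ᵥ x) * (m 3 ⬝ᵥ x)) * h02 +
        l0 * ((m 1 ⬝ᵥ x) * (m 2 ⬝ᵥ x)) * h03
    have f1 : x ⬝ᵥ (A 1 *ᵥ x) = -(l1 * q23) * (-((m 3 ⬝ᵥ x) * (m 2 ⬝ᵥ x)) +
        (1 + I + I * g) ^ 2 * ((m 0 ⬝ᵥ x) * (m 2 ⬝ᵥ x)) +
        (1 + I * g) ^ 2 * ((m 0 ⬝ᵥ x) * (m 3 ⬝ᵥ x))) := by
      rw [e1]
      linear_combination -l1 * ((m 0 ⬝ᵥ x) * (m 3 ⬝ᵥ x)) * h12 -
        l1 * ((m 0 ⬝ᵥ x) * (m 2 ⬝ᵥ x)) * h13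
    have f3 : x ⬝ᵥ (A 3 *ᵥ x) = -(l3 * q23) * (-((1 + g) ^ 2 * ((m 1 ⬝ᵥ x) * (m 2 ⬝ᵥ x))) -
        (1 + I + I * g) ^ 2 * ((m 0 ⬝ᵥ x) * (m 2 ⬝ᵥ x)) +
        (1 + (1 + I) * g) ^ 2 * ((m 0 ⬝ᵥ x) * (m 1 ⬝ᵥ x))) := by
      rw [e3]
      linear_combination l3 * ((m 1 ⬝ᵥ x) * (m 2 ⬝ᵥ x)) * h03 +
        l3 * ((m 0 ⬝ᵥ x) * (m 2 ⬝ᵥ x)) * h13 - l3 * ((m 0 ⬝ᵥ x) * (m 1 ⬝ᵥ x)) * h23
    have f2 : x ⬝ᵥ (A 2 *ᵥ x) = l2 * q23 * (-(g ^ 2 * ((m 1 ⬝ᵥ x) * (m 3 ⬝ᵥ x))) -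
        (1 + I * g) ^ 2 * ((m 0 ⬝ᵥ x) * (m 3 ⬝ᵥ x)) -
        (1 + (1 + I) * g) ^ 2 * ((m 0 ⬝ᵥ x) * (m 1 ⬝ᵥ x))) := by
      rw [e2]
      linear_combination -l2 * ((m 1 ⬝ᵥ x) * (m 3 ⬝ᵥ x)) * h02 -
        l2 * ((m 0 ⬝ᵥ x) * (m 3 ⬝ᵥ x)) * h12 - l2 * ((m 0 ⬝ᵥ x) * (m 1 ⬝ᵥ x)) * h23
    rw [f0, f1, f2, f3]
    have e : ∀ M0 M1 M2 M3 F0 F1 F2 F3 : ℂ, μ * (M0 * M1 * M2 * M3) * (l0 * q23 * F0 *
      (-(l1 * q23) * F1) * (l2 * q23 * F2) *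
      (-(l3 * q23) * F3)) = μ * (l0 * l1 * l2 * l3 * q23 ^ 4) * (M0 * M1 * M3 * M2 *
      (F0 * F1 * F3 * F2)) := by
      intros; ring
    exact e _ _ _ _ _ _ _ _

/-- **Classification.** Every curve of weak combinatorial type `W` is projectively equivalent to a
member of the family `FF`. -/
theorem classify {l : Fin 4 → E3} {A : Fin 4 → Matrix (Fin 3) (Fin 3) ℂ} {P : Fin 9 → E3}
    {T : Fin 4 → E3}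
    (hl : ∀ j i, l i ⬝ᵥ P j = 0 ↔ i ∈ NN j)
    (hA : ∀ j i, P j ⬝ᵥ (A i *ᵥ P j) = 0 ↔ i ∉ NN j)
    (hs : ∀ i, (A i).IsSymm) (hT0 : ∀ i, T i ≠ 0) (hT : ∀ i, l i ⬝ᵥ T i = 0)
    (hTA : ∀ i, ∃ c : ℂ, A i *ᵥ T i = c • l i) (hP : LinearIndependent ℂ ![P 1, P 2]) :
    ∃ g ∈ Gam, ∃ G : E3 ≃ₗ[ℂ] E3, ∀ x : E3,
      (∏ i, l i ⬝ᵥ x) * (∏ i, x ⬝ᵥ (A i *ᵥ x)) = FF (g, G x) := by
  have z : ∀ {j i}, i ∈ NN j → l i ⬝ᵥ P j = 0 := fun {j i} h => (hl j i).2 h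
  have nz : ∀ {j i}, i ∉ NN j → l i ⬝ᵥ P j ≠ 0 := fun {j i} h => (hl j i).not.2 h
  let al : Fin 4 → ℂ := ![-(l 3 ⬝ᵥ P 5) / (l 0 ⬝ᵥ P 5), -(l 3 ⬝ᵥ P 7) / (l 1 ⬝ᵥ P 7),
    -(l 3 ⬝ᵥ P 4) / (l 2 ⬝ᵥ P 4), 1]
  have hal : ∀ i, al i ≠ 0 := by
    intro i
    fin_cases i
    · exact div_ne_zero (neg_ne_zero.2 (nz (by decide))) (nz (by decide))
    · exact div_ne_zero (neg_ne_zero.2 (nz (by decide))) (nz (by decide))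
    · exact div_ne_zero (neg_ne_zero.2 (nz (by decide))) (nz (by decide))
    · exact one_ne_zero
  have hm : al 0 • l 0 + al 1 • l 1 + al 2 • l 2 + al 3 • l 3 = 0 := by
    have c1 : ∀ {j i}, i ∈ NN j → P j ⬝ᵥ l i = 0 := fun {j i} h => by
      rw [dotProduct_comm]; exact z h
    have c2 : ∀ {j i}, i ∉ NN j → P j ⬝ᵥ l i ≠ 0 := fun {j i} h => by
      rw [dotProduct_comm]; exact nz h
    refine ker_zero (m1 := P 5) (m2 := P 7) (m3 := P 4) (r1 := l 0) (r2 := l 1) (r3 := l 2)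
      (c2 (by decide)) (c1 (by decide)) (c1 (by decide)) (c1 (by decide)) (c2 (by decide))
      (c1 (by decide)) (c1 (by decide)) (c1 (by decide)) (c2 (by decide)) ?_ ?_ ?_
    · have h := nz (j := 5) (i := 0) (by decide)
      simp only [dotProduct_add, dotProduct_smul, c1 (j := 5) (i := 1) (by decide),
        c1 (j := 5) (i := 2) (by decide), smul_eq_mul]
      rw [dotProduct_comm (P 5) (l 0), dotProduct_comm (P 5) (l 3)]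
      simp only [al, Matrix.cons_val_zero, Matrix.cons_val]
      field_simp
      ring
    · have h := nz (j := 7) (i := 1) (by decide)
      simp only [dotProduct_add, dotProduct_smul, c1 (j := 7) (i := 0) (by decide),
        c1 (j := 7) (i := 2) (by decide), smul_eq_mul]
      rw [dotProduct_comm (P 7) (l 1), dotProduct_comm (P 7) (l 3)]
      simp only [al, Matrix.cons_val_one, Matrix.cons_val]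
      field_simp
      ring
    · have h := nz (j := 4) (i := 2) (by decide)
      simp only [dotProduct_add, dotProduct_smul, c1 (j := 4) (i := 0) (by decide),
        c1 (j := 4) (i := 1) (by decide), smul_eq_mul]
      rw [dotProduct_comm (P 4) (l 2), dotProduct_comm (P 4) (l 3)]
      simp only [al, Matrix.cons_val]
      field_simp
      ring
  obtain ⟨g, hg, G, h⟩ := classify0 (m := fun i => al i • l i) (A := A) (P := P) (T := T)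
    (μ := (al 0 * al 1 * al 2 * al 3)⁻¹) hm
    (fun j i => by
      rw [smul_dotProduct, smul_eq_mul, mul_eq_zero]
      exact (or_iff_right (hal i)).trans (hl j i)) hA hs hT0
    (fun i => by rw [smul_dotProduct, hT, smul_zero])
    (fun i => by
      obtain ⟨c, hc⟩ := hTA i
      refine ⟨c / al i, ?_⟩
      rw [hc, smul_smul, div_mul_cancel₀ _ (hal i)]) hP
    (inv_ne_zero (mul_ne_zero (mul_ne_zero (mul_ne_zero (hal 0) (hal 1)) (hal 2)) (hal 3)))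
  refine ⟨g, hg, G, fun x => ?_⟩
  rw [← h, Fin.prod_univ_four, Fin.prod_univ_four]
  simp only [smul_dotProduct, smul_eq_mul]
  have := hal 0
  have := hal 1
  have := hal 2
  have := hal 3
  field_simp

end Pool.Agent.Helper48.W
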